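import Mathlib
import Pool.Agent.MP_c853c5_nt.SFour
import Pool.Agent.MP_c853c5_nt.SConv

/- Prime values of `a f ^ 2 + c` over `F[X]`, characteristic two: definitions, basic facts. -/

set_option autoImplicit false

namespace Pool.Agent.MP_f37147_nt

open Polynomial Finset Pool.Agent.MP_4fffd4_nt Pool.Agent.MP_c853c5_nt
open scoped BigOperators

variable {F : Type*} [Field F] [Fintype F]

/-- The phase at infinity. -/
noncomputable def phi (b : F) (m s : F[X]) : F :=
  SFour.res (C (b⁻¹ ^ 2) * X * derivative s ^ 3) (m ^ 2 * s)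

/-- The number of monic `f` of degree `n` with `D ∣ a f ^ 2 + c`. -/
noncomputable def cnt (a c : F[X]) (n : ℕ) (D : F[X]) : ℝ :=
  ∑ f ∈ monF F n, ind (D ∣ a * f ^ 2 + c)

/-- The Moebius sum over divisors of degree `i`. -/
noncomputable def RR (a c : F[X]) (n i : ℕ) : ℝ := ∑ D ∈ monF F i, mu D * cnt a c n D

open Classical in
/-- The monic irreducible divisors. -/
noncomputable def pf (a : F[X]) : Finset F[X] :=
  (UniqueFactorizationMonoid.normalizedFactors a).toFinset

/-- The singular series. -/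
noncomputable def sing (a : F[X]) : ℝ :=
  ∏ P ∈ pf a, (1 - 1 / (Fintype.card F : ℝ) ^ P.natDegree)⁻¹

/-- The Moebius function twisted by a character of the root of `a f ^ 2 + c` modulo `D`. -/
noncomputable def md (e : F → ℝ) (a c h : F[X]) (i : ℕ) (D : F[X]) : ℝ :=
  mu D * ∑ f ∈ ltF F i, ind (D ∣ a * f ^ 2 + c) * e (SFour.res (h * f) D)

/-- The number of monic `f` of degree `n` with `a f ^ 2 + c` irreducible. -/
noncomputable def npr (a c : F[X]) (n : ℕ) : ℝ :=
  ∑ f ∈ monF F n, ind (Irreducible (a * f ^ 2 + c))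

/-- The shifted Euler operator on power series. -/
noncomputable def eul (κ : F) (x : PowerSeries F) : PowerSeries F :=
  PowerSeries.C κ * x + PowerSeries.X * PowerSeries.derivative F x

/-- The phase at infinity as a power series. -/
noncomputable def psi (κ : F) (x : PowerSeries F) : PowerSeries F := eul κ x ^ 3 * x⁻¹

/-- The coefficient of `1 / X` in `a / b`, over a commutative ring. -/
noncomputable def resR {R : Type*} [CommRing R] (a b : R[X]) : R :=
  (a %ₘ b).coeff (b.natDegree - 1)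

variable (F) in
/-- The asymptotic formula, uniformly in `a` and `c`. -/
def CoreSt (C n₀ : ℕ) : Prop :=
  ∀ n, n₀ ≤ n → ∀ a c : F[X], a.Monic → IsCoprime a c → derivative (a * c) ≠ 0 →
    a.natDegree ≤ n / C → c.natDegree ≤ n / C →
    |(2 * n + a.natDegree) * npr a c n - (Fintype.card F : ℝ) ^ n * sing a| ≤
      (Fintype.card F : ℝ) ^ n / (Fintype.card F : ℝ) ^ (n / C)

open Classical in
/-- The set to be sifted. -/
noncomputable def om (a c d x₀ : F[X]) (n : ℕ) : Finset F[X] :=
  (monF F n).filter fun P => d ∣ P - x₀ ∧ ∃ Q, Irreducible Q ∧ a * P ^ 2 + c = d * Q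

open Classical in
/-- The local density. -/
noncomputable def gl (a R : F[X]) : ℝ :=
  if R ∣ a then 1 / (Fintype.card F : ℝ) ^ R.natDegree
  else 1 / ((Fintype.card F : ℝ) ^ R.natDegree - 1)

omit [Fintype F] in
theorem resR_eq (a b : F[X]) : resR a b = SFour.res a b := rfl

omit [Fintype F] in
theorem mem_pf {a P : F[X]} (ha : a ≠ 0) : P ∈ pf a ↔ P.Monic ∧ Irreducible P ∧ P ∣ a := by
  classical
  unfold pf
  rw [Multiset.mem_toFinset]
  convert Polynomial.mem_normalizedFactors_iff ha using 1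
  tauto

theorem one_le_sing {a : F[X]} (ha : a ≠ 0) : 1 ≤ sing a := by
  refine Finset.one_le_prod fun P hP => ?_
  have h1 := ((mem_pf ha).1 hP).2.1.natDegree_pos
  have h2 : (2 : ℝ) ≤ (Fintype.card F : ℝ) ^ P.natDegree :=
    two_le_card.trans (le_self_pow₀ (one_le_two.trans two_le_card) h1.ne')
  have h3 : 1 / (Fintype.card F : ℝ) ^ P.natDegree ≤ 1 / 2 :=
    one_div_le_one_div_of_le two_pos h2
  have h4 : 0 < 1 / (Fintype.card F : ℝ) ^ P.natDegree := by positivity
  exact (one_le_inv₀ (by linarith)).2 (by linarith)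

variable [CharP F 2]

theorem chr_unique {e e' : F → ℝ} (he : Chr e) (he' : Chr e') : e = e' := by
  classical
  have h2 : (2 : F) = 0 := by exact_mod_cast CharP.cast_eq_zero F 2
  let W : F →+ F := { toFun := fun c => c ^ 2 + c
                      map_zero' := by simp
                      map_add' := fun a b => by rw [CharTwo.add_sq]; ring }
  have hker : ∀ {g : F → ℝ}, Chr g → ∀ c, g (c ^ 2 + c) = 1 := fun hg c => by
    rw [hg.add, hg.sq, hg.toSgn.mul_self]
  have hcard : ∀ {g : F → ℝ}, Chr g → 2 * (univ.filter fun c => g c = 1).card = Fintype.card F := by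
    intro g hg
    obtain ⟨ν, hν⟩ := hg.neg
    have h1 : (univ.filter fun c => g c = 1).card = (univ.filter fun c => ¬ g c = 1).card := by
      refine Finset.card_bij (fun c _ => c + ν) (fun c hc => ?_) (fun a _ b _ h => by simpa using h)
        fun c hc => ⟨c + ν, ?_, by linear_combination ν * h2⟩
      · simp only [mem_filter, mem_univ, true_and] at hc ⊢
        rw [hg.add, hc, hν]; norm_num
      · simp only [mem_filter, mem_univ, true_and] at hc ⊢
        rw [hg.add, (hg.sign c).resolve_left hc, hν]; norm_num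
    have := Finset.card_filter_add_card_filter_not (s := (univ : Finset F)) (fun c => g c = 1)
    rw [card_univ] at this
    omega
  have him : Fintype.card F ≤ 2 * (univ.image fun c : F => c ^ 2 + c).card := by
    rw [← card_univ]
    refine Finset.card_le_mul_card_image _ 2 fun y hy => ?_
    obtain ⟨c, -, rfl⟩ := mem_image.1 hy
    refine (Finset.card_le_card (t := {c, c + 1}) fun x hx => ?_).trans Finset.card_le_two
    have h1 : (x - c) * (x - (c + 1)) = 0 := by
      linear_combination (mem_filter.1 hx).2 + (c ^ 2 + c - x * c - x) * h2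
    rcases mul_eq_zero.1 h1 with h | h <;> simp [sub_eq_zero.1 h]
  have heq : ∀ {g : F → ℝ}, Chr g →
      (univ.image fun c : F => c ^ 2 + c) = univ.filter fun c => g c = 1 := fun hg =>
    Finset.eq_of_subset_of_card_le (fun y hy => by
      obtain ⟨c, -, rfl⟩ := mem_image.1 hy
      simpa using hker hg c) (by have := hcard hg; omega)
  funext c
  have h1 : e c = 1 ↔ e' c = 1 := by
    have := Finset.ext_iff.1 ((heq he).symm.trans (heq he')) c
    simpa using this
  rcases he.sign c with h | h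
  · rw [h, h1.1 h]
  · rcases he'.sign c with h' | h'
    · rw [h1.2 h'] at h; norm_num at h
    · rw [h, h']

theorem chr_of_isChar {K : Type*} [Field K] [Algebra F K] [CharP K 2] [IsAlgClosed K] {ε : K → ℝ}
    (hε : IsChar F ε) {e : F → ℝ} (he : Chr e) (c : F) : e c = ε (algebraMap F K c) := by
  have h : Chr fun c => ε (algebraMap F K c) :=
    ⟨⟨fun a b => by rw [map_add, hε.add], fun _ => hε.sign _⟩, hε.sq_algebraMap, hε.exists_neg⟩
  rw [chr_unique he h]

omit [Fintype F] [CharP F 2] in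
theorem coprime_of_sol {a c D f : F[X]} (hac : IsCoprime a c) (h : D ∣ a * f ^ 2 + c) :
    IsCoprime D a := by
  obtain ⟨u, v, huv⟩ := hac
  obtain ⟨z, hz⟩ := h
  exact ⟨v * z, u - v * f ^ 2, by linear_combination huv - v * hz⟩

omit [Fintype F] in
theorem sol_unique {a c D f g : F[X]} (hD : Squarefree D) (hDa : IsCoprime D a)
    (hf : D ∣ a * f ^ 2 + c) (hg : D ∣ a * g ^ 2 + c) : D ∣ f - g := by
  have h2 : (2 : F[X]) = 0 := by exact_mod_cast CharP.cast_eq_zero F[X] 2
  have h1 : D ∣ a * (f - g) ^ 2 := by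
    have := dvd_sub hf hg
    rwa [show a * f ^ 2 + c - (a * g ^ 2 + c) = a * (f - g) ^ 2 by
      linear_combination (a * f * g - a * g ^ 2) * h2] at this
  exact (hD.dvd_pow_iff_dvd two_ne_zero).1 (hDa.dvd_of_dvd_mul_left h1)

theorem sol_exists {a D : F[X]} (c : F[X]) (hD : Squarefree D) (hDa : IsCoprime D a) :
    ∃ f, D ∣ a * f ^ 2 + c := by
  have h2 : (2 : F[X]) = 0 := by exact_mod_cast CharP.cast_eq_zero F[X] 2
  obtain ⟨σ, hσ⟩ := exists_od D
  have hs : IsCoprime D (od D) := by
    have : IsCoprime D (derivative D) := PerfectField.separable_iff_squarefree.2 hD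
    rw [← od_sq] at this
    exact (IsCoprime.pow_right_iff two_pos).1 this
  obtain ⟨κ, hκ⟩ := exists_od (a * c)
  obtain ⟨u, v, huv⟩ := hs.mul_right hDa
  refine ⟨v * (σ * od (a * c) + κ * od D), ?_⟩
  refine (hDa.mul_right (hs.pow_right (n := 2))).dvd_of_dvd_mul_left ?_
  set m := od (a * c)
  set w := od D
  refine ⟨(u ^ 2 * D) * (σ * m + κ * w) ^ 2 + m ^ 2, ?_⟩
  have e1 : (v * (w * a)) ^ 2 = 1 + (u * D) ^ 2 := by
    rw [show v * (w * a) = 1 + u * D by linear_combination huv - u * D * h2, CharTwo.add_sq,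
      one_pow]
  linear_combination (σ * m + κ * w) ^ 2 * e1 + w ^ 2 * hκ - m ^ 2 * hσ +
    (σ * m * κ * w + κ ^ 2 * w ^ 2) * h2

theorem sum_sol_le {a c D : F[X]} (hac : IsCoprime a c) (hD : Squarefree D) {i : ℕ}
    (hi : D.natDegree = i) : ∑ f ∈ ltF F i, ind (D ∣ a * f ^ 2 + c) ≤ 1 := by
  by_cases h : ∃ f ∈ ltF F i, D ∣ a * f ^ 2 + c
  · obtain ⟨f, hf, h⟩ := h
    rw [Finset.sum_eq_single_of_mem f hf fun g hg hne => ind_neg fun h' => hne ?_]
    · exact ind_le_one _
    · refine sub_eq_zero.1 (eq_zero_of_dvd_of_degree_lt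
        (sol_unique hD (coprime_of_sol hac h) h' h) ?_)
      rw [degree_eq_natDegree hD.ne_zero, hi]
      exact (degree_sub_le _ _).trans_lt (max_lt (mem_ltF.1 hg) (mem_ltF.1 hf))
  · push Not at h
    rw [Finset.sum_eq_zero fun f hf => ind_neg (h f hf)]
    exact zero_le_one

theorem abs_md_le {e : F → ℝ} (he : Chr e) {a c D : F[X]} (hac : IsCoprime a c) (h : F[X]) {i : ℕ}
    (hi : D.natDegree = i) : |md e a c h i D| ≤ 1 := by
  by_cases hD : Squarefree D
  · rw [md, abs_mul]
    refine mul_le_one₀ (abs_mu_le _) (abs_nonneg _) ((Finset.abs_sum_le_sum_abs _ _).trans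
      (le_trans (le_of_eq (Finset.sum_congr rfl fun f _ => ?_)) (sum_sol_le hac hD hi)))
    rw [abs_mul, he.toSgn.abs_eq, mul_one, abs_of_nonneg (ind_nonneg _)]
  · simp [md, mu, hD]

theorem derivative_ne_zero_iff {g : F[X]} : derivative g ≠ 0 ↔ ¬ IsSquare g := by
  refine not_congr ⟨fun h => ?_, fun ⟨r, hr⟩ => ?_⟩
  · obtain ⟨σ, hσ⟩ := exists_od g
    rw [od_sq, h, mul_zero, add_zero] at hσ
    exact ⟨σ, by rw [hσ, sq]⟩
  · rw [← od_sq, hr, ← sq, od_of_sq, zero_pow two_ne_zero]

end Pool.Agent.MP_f37147_nt
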