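import Mathlib
import Pool.Agent.MP_f37147_nt.QDefs

/- Iterated differences of the phase at infinity. -/

set_option autoImplicit false

namespace Pool.Agent.MP_f37147_nt

open Finset Pool.Agent.MP_4fffd4_nt
open scoped BigOperators

namespace QCube

section Ring

variable {R ι : Type*} [CommRing R] [DecidableEq ι]

/-- The product of the vertices of a cube. -/
def LL (s : Finset ι) (h : ι → R) (x : R) : R := ∏ ω ∈ s.powerset, (x + ∑ j ∈ ω, h j)

/-- The product of the vertices other than the base point. -/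
def DD (s : Finset ι) (h : ι → R) (x : R) : R := ∏ ω ∈ s.powerset.erase ∅, (x + ∑ j ∈ ω, h j)

theorem LL_eq (s : Finset ι) (h : ι → R) (x : R) : LL s h x = x * DD s h x := by
  rw [LL, DD, ← Finset.mul_prod_erase _ _ (empty_mem_powerset s), sum_empty, add_zero]

theorem LL_insert {s : Finset ι} {a : ι} (ha : a ∉ s) (h : ι → R) (x : R) :
    LL (insert a s) h x = LL s h x * LL s h (x + h a) := by
  unfold LL
  rw [Finset.prod_powerset_insert ha]
  congr 1
  refine Finset.prod_congr rfl fun ω hω => ?_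
  rw [Finset.sum_insert (fun e => ha (mem_powerset.1 hω e)), add_assoc]

theorem DD_insert {s : Finset ι} {a : ι} (ha : a ∉ s) (h : ι → R) (x : R) :
    DD (insert a s) h x = DD s h x * LL s h (x + h a) := by
  have h1 : ∀ t : Finset ι, DD t h x =
      ∏ ω ∈ t.powerset, if ω = ∅ then 1 else (x + ∑ j ∈ ω, h j) := fun t => by
    rw [← Finset.mul_prod_erase _ _ (empty_mem_powerset t), if_pos rfl, one_mul]
    exact Finset.prod_congr rfl fun ω hω => (if_neg (ne_of_mem_erase hω)).symm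
  rw [h1, h1, Finset.prod_powerset_insert ha]
  congr 1
  refine Finset.prod_congr rfl fun ω hω => ?_
  rw [if_neg (insert_ne_empty _ _), Finset.sum_insert (fun e => ha (mem_powerset.1 hω e)),
    add_assoc]

omit [DecidableEq ι] in
theorem LL_congr {s : Finset ι} {h h' : ι → R} (e : ∀ j ∈ s, h j = h' j) (x : R) :
    LL s h x = LL s h' x :=
  Finset.prod_congr rfl fun ω hω => by
    rw [Finset.sum_congr rfl fun j hj => e j (mem_powerset.1 hω hj)]

theorem LL_add (h2 : (2 : R) = 0) (s : Finset ι) (h : ι → R) (x y : R) :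
    LL s h (x + y) = LL s h x + LL s h y := by
  induction s using Finset.induction generalizing x y with
  | empty => simp [LL]
  | insert a s ha IH =>
    simp only [LL_insert ha, IH]
    linear_combination LL s h x * LL s h y * h2

theorem cube_mul {f : R → R} (hf : ∀ x y, f (x + y) = f x + f y) (g : R → R) (s : Finset ι)
    (h : ι → R) (x : R) : cube s h (fun x => f x * g x) x =
      f x * cube s h g x + ∑ a ∈ s, f (h a) * cube (s.erase a) h g (x + h a) := by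
  induction s using Finset.induction generalizing x with
  | empty => simp [cube_empty]
  | insert b s hb IH =>
    rw [cube_insert hb, IH, IH, cube_insert hb, Finset.sum_insert hb, erase_insert hb, hf,
      Finset.sum_congr (s₁ := s) (f := fun a => f (h a) * cube ((insert b s).erase a) h g (x + h a))
        (g := fun a => f (h a) * cube (s.erase a) h g (x + h a) +
          f (h a) * cube (s.erase a) h g (x + h b + h a)) rfl fun a ha => by
        rw [erase_insert_of_ne fun e : b = a => hb (e ▸ ha),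
          cube_insert fun e => hb (mem_of_mem_erase e), add_right_comm x, mul_add],
      Finset.sum_add_distrib]
    ring

omit [DecidableEq ι] in
theorem dvd_prod {t : Finset ι} {a : ι → R} {u : R} {r : ℕ} (ha : ∀ i ∈ t, u ^ r ∣ a i) :
    u ^ (t.card * r) ∣ ∏ i ∈ t, a i := by
  rw [mul_comm, pow_mul, ← Finset.prod_const]
  exact Finset.prod_dvd_prod_of_dvd _ _ ha

theorem dvd_prod_sub {t : Finset ι} {a b : ι → R} {u : R} {r δ : ℕ} (ha : ∀ i ∈ t, u ^ r ∣ a i)
    (hb : ∀ i ∈ t, u ^ r ∣ b i) (hab : ∀ i ∈ t, u ^ (r + δ) ∣ a i - b i) :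
    u ^ (t.card * r + δ) ∣ ∏ i ∈ t, a i - ∏ i ∈ t, b i := by
  induction t using Finset.induction with
  | empty => simp
  | insert i t hi IH =>
    rw [Finset.prod_insert hi, Finset.prod_insert hi, card_insert_of_notMem hi,
      show a i * ∏ j ∈ t, a j - b i * ∏ j ∈ t, b j =
        a i * (∏ j ∈ t, a j - ∏ j ∈ t, b j) + (a i - b i) * ∏ j ∈ t, b j by ring]
    refine dvd_add ?_ ?_
    · rw [show (t.card + 1) * r + δ = r + (t.card * r + δ) by ring, pow_add]
      exact mul_dvd_mul (ha i (mem_insert_self _ _)) (IH (fun j hj => ha j (mem_insert_of_mem hj))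
        (fun j hj => hb j (mem_insert_of_mem hj)) fun j hj => hab j (mem_insert_of_mem hj))
    · rw [show (t.card + 1) * r + δ = r + δ + t.card * r by ring, pow_add]
      exact mul_dvd_mul (hab i (mem_insert_self _ _))
        (dvd_prod fun j hj => hb j (mem_insert_of_mem hj))

variable {s : Finset ι} {h : ι → R} {u y : R} {r m : ℕ}

theorem card_erase (hm : m + 1 = 2 ^ s.card) : (s.powerset.erase ∅).card = m := by
  rw [card_erase_of_mem (empty_mem_powerset s), card_powerset, ← hm, Nat.add_sub_cancel]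

theorem dvd_vertex (hs : ∀ j ∈ s, u ^ r ∣ h j) (hy : u ^ r ∣ y) {ω : Finset ι}
    (hω : ω ∈ s.powerset.erase ∅) : u ^ r ∣ y + ∑ j ∈ ω, h j :=
  dvd_add hy (Finset.dvd_sum fun j hj => hs j (mem_powerset.1 (mem_of_mem_erase hω) hj))

theorem dvd_DD (hm : m + 1 = 2 ^ s.card) (hs : ∀ j ∈ s, u ^ r ∣ h j) (hy : u ^ r ∣ y) :
    u ^ (m * r) ∣ DD s h y := by
  rw [← card_erase hm]
  exact dvd_prod fun ω hω => dvd_vertex hs hy hω

theorem dvd_LL (hm : m + 1 = 2 ^ s.card) (hs : ∀ j ∈ s, u ^ r ∣ h j) {δ : ℕ}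
    (hy : u ^ (r + δ) ∣ y) : u ^ (r + δ + m * r) ∣ LL s h y := by
  rw [LL_eq, pow_add]
  exact mul_dvd_mul hy (dvd_DD hm hs ((pow_dvd_pow _ (Nat.le_add_right _ _)).trans hy))

theorem dvd_LL_sub (hm : m + 1 = 2 ^ s.card) (hs : ∀ j ∈ s, u ^ r ∣ h j) {δ : ℕ}
    (hy : u ^ (r + δ) ∣ y) : u ^ (r + δ + (m * r + δ)) ∣ LL s h y - y * DD s h 0 := by
  rw [LL_eq, ← mul_sub, pow_add, ← card_erase hm]
  exact mul_dvd_mul hy (dvd_prod_sub
    (fun ω hω => dvd_vertex hs ((pow_dvd_pow _ (Nat.le_add_right _ _)).trans hy) hω)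
    (fun ω hω => dvd_vertex hs (dvd_zero _) hω) fun ω _ => by simpa using hy)

end Ring

open PowerSeries

variable {F ι : Type*} [Field F] [DecidableEq ι]

/-- The Euler operator. -/
noncomputable def EE (x : F⟦X⟧) : F⟦X⟧ := X * PowerSeries.derivative F x

theorem EE_add (x y : F⟦X⟧) : EE (x + y) = EE x + EE y := by rw [EE, map_add, mul_add]; rfl

theorem EE_mul (x y : F⟦X⟧) : EE (x * y) = x * EE y + y * EE x := by
  simp only [EE, Derivation.leibniz, smul_eq_mul]; ring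

theorem coeff_EE (x : F⟦X⟧) (n : ℕ) : coeff n (EE x) = n * coeff n x := by
  rcases n with _ | n
  · simp [EE]
  · rw [EE, coeff_succ_X_mul, coeff_derivative]; push_cast; ring

theorem dvd_EE {x : F⟦X⟧} {n : ℕ} (h : X ^ n ∣ x) : X ^ n ∣ EE x := by
  rw [X_pow_dvd_iff] at h ⊢
  intro m hm
  rw [coeff_EE, h m hm, mul_zero]

theorem eul_add (κ : F) (x y : F⟦X⟧) : eul κ (x + y) = eul κ x + eul κ y := by
  simp only [eul, map_add]; ring

theorem dvd_eul (κ : F) {x : F⟦X⟧} {n : ℕ} (h : X ^ n ∣ x) : X ^ n ∣ eul κ x :=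
  dvd_add (h.mul_left _) (dvd_EE h)

omit [DecidableEq ι] in
theorem cc_LL {s : Finset ι} {h : ι → F⟦X⟧} {x : F⟦X⟧} (hs : ∀ j ∈ s, X ∣ h j)
    (hx : constantCoeff x ≠ 0) : constantCoeff (LL s h x) ≠ 0 := by
  rw [LL, map_prod]
  refine Finset.prod_ne_zero_iff.2 fun ω hω => ?_
  rwa [map_add, X_dvd_iff.1 (Finset.dvd_sum fun j hj => hs j (mem_powerset.1 hω hj)), add_zero]

theorem cc_add {x y : F⟦X⟧} (hx : constantCoeff x ≠ 0) (hy : X ∣ y) :
    constantCoeff (x + y) ≠ 0 := by rwa [map_add, X_dvd_iff.1 hy, add_zero]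

variable [CharP F 2]

theorem two_eq : (2 : F⟦X⟧) = 0 := by
  have : (2 : F) = 0 := by exact_mod_cast CharP.cast_eq_zero F 2
  rw [← map_ofNat (C (R := F)) 2, this, map_zero]

theorem EE_sq_mul (x y : F⟦X⟧) : EE (x ^ 2 * y) = x ^ 2 * EE y := by
  rw [EE_mul, sq, EE_mul]
  linear_combination y * x * EE x * two_eq (F := F)

theorem add_sq' (x y : F⟦X⟧) : (x + y) ^ 2 = x ^ 2 + y ^ 2 := by
  linear_combination x * y * two_eq (F := F)

theorem cube_inv {s : Finset ι} {h : ι → F⟦X⟧} (hs : ∀ j ∈ s, X ∣ h j) {x : F⟦X⟧}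
    (hx : constantCoeff x ≠ 0) : cube s h (fun x => x⁻¹) x = DD s h 0 * (LL s h x)⁻¹ := by
  induction s using Finset.induction generalizing x with
  | empty => simp [cube_empty, DD, LL]
  | insert a s ha IH =>
    have hs' : ∀ j ∈ s, X ∣ h j := fun j hj => hs j (mem_insert_of_mem hj)
    have hx' := cc_add hx (hs a (mem_insert_self _ _))
    have e1 := PowerSeries.mul_inv_cancel _ (cc_LL hs' hx)
    have e2 := PowerSeries.mul_inv_cancel _ (cc_LL hs' hx')
    rw [cube_insert ha, IH hs' hx, IH hs' hx', DD_insert ha, LL_insert ha, PowerSeries.mul_inv_rev,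
      zero_add]
    have e3 := LL_add two_eq s h x (h a)
    generalize (LL s h x)⁻¹ = A at *
    generalize (LL s h (x + h a))⁻¹ = B at *
    linear_combination DD s h 0 * (-A * e2 + B * e1 + A * B * e3 + B * two_eq (F := F))

/-- The iterated difference of the logarithmic derivative. -/
noncomputable def GG (κ : F) (s : Finset ι) (h : ι → F⟦X⟧) (x : F⟦X⟧) : F⟦X⟧ :=
  cube s h (fun x => eul κ x * x⁻¹) x

omit [CharP F 2] in
theorem GG_eq (κ : F) {s : Finset ι} {h : ι → F⟦X⟧} (hs : ∀ j ∈ s, X ∣ h j) {x : F⟦X⟧}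
    (hx : constantCoeff x ≠ 0) :
    GG κ s h x = 2 ^ s.card * C κ + EE (LL s h x) * (LL s h x)⁻¹ := by
  unfold GG
  induction s using Finset.induction generalizing x with
  | empty =>
    have e1 := PowerSeries.mul_inv_cancel _ hx
    simp only [cube_empty, LL, card_empty, powerset_empty, prod_singleton, sum_empty, add_zero,
      eul, EE]
    linear_combination C κ * e1
  | insert a s ha IH =>
    have hs' : ∀ j ∈ s, X ∣ h j := fun j hj => hs j (mem_insert_of_mem hj)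
    have hx' := cc_add hx (hs a (mem_insert_self _ _))
    have e1 := PowerSeries.mul_inv_cancel _ (cc_LL hs' hx)
    have e2 := PowerSeries.mul_inv_cancel _ (cc_LL hs' hx')
    rw [cube_insert ha, IH hs' hx, IH hs' hx', LL_insert ha, PowerSeries.mul_inv_rev, EE_mul,
      card_insert_of_notMem ha]
    generalize (LL s h x)⁻¹ = A at *
    generalize (LL s h (x + h a))⁻¹ = B at *
    linear_combination -EE (LL s h x) * A * e2 - EE (LL s h (x + h a)) * B * e1

theorem GG_insert (κ : F) {s : Finset ι} {a : ι} (ha : a ∉ s) {h : ι → F⟦X⟧}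
    (hs : ∀ j ∈ insert a s, X ∣ h j) {x : F⟦X⟧} (hx : constantCoeff x ≠ 0) :
    GG κ (insert a s) h x = EE (LL s h x * LL s h (h a)) * (LL (insert a s) h x)⁻¹ := by
  rw [GG_eq κ hs hx, card_insert_of_notMem ha, pow_succ, two_eq, mul_zero, zero_mul, zero_add]
  congr 1
  have := EE_sq_mul (LL s h x) 1
  rw [LL_insert ha, LL_add two_eq, mul_add, EE_add, ← sq, ← mul_one (_ ^ 2), this]
  simp [EE]

theorem term_main (κ : F) {O : Finset ι} {y z : ι} (hy : y ∉ O) (hz : z ∉ insert y O)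
    {h : ι → F⟦X⟧} {r δ m : ℕ} (hr : 1 ≤ r) (hm : m + 1 = 2 ^ O.card)
    (hO : ∀ j ∈ O, X ^ r ∣ h j) (h1 : X ^ (r + δ) ∣ h y) (h2 : X ^ (r + δ) ∣ h z) {x : F⟦X⟧}
    (hx : constantCoeff x ≠ 0) : X ^ (2 * (r + δ + m * r) + δ) ∣
      GG κ (insert z (insert y O)) h x - cube O h (fun x => x⁻¹) x ^ 2 * EE (h y * h z) := by
  have hX : ∀ {n : ℕ} {g : F⟦X⟧}, X ^ (r + n) ∣ g → X ∣ g := fun hg =>
    (dvd_pow_self _ (by omega)).trans hg
  have hO' : ∀ j ∈ O, X ∣ h j := fun j hj => hX (n := 0) (hO j hj)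
  have hS : ∀ j ∈ insert z (insert y O), X ∣ h j := by
    simp only [mem_insert, forall_eq_or_imp]
    exact ⟨hX h2, hX h1, hO'⟩
  have e1 := PowerSeries.mul_inv_cancel _ (cc_LL hO' hx)
  have e2 := PowerSeries.mul_inv_cancel _ (cc_LL hS hx)
  rw [GG_insert κ hz hS hx, cube_inv hO' hx]
  generalize (LL (insert z (insert y O)) h x)⁻¹ = W at *
  generalize (LL O h x)⁻¹ = B at *
  simp only [LL_insert hz, LL_insert hy, LL_add (two_eq (F := F))] at e2 ⊢
  have d1 := dvd_LL hm hO h1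
  have d2 := dvd_LL hm hO h2
  have d3 := dvd_LL_sub hm hO h1
  have d4 := dvd_LL_sub hm hO h2
  have d5 := dvd_DD hm hO (dvd_zero _)
  generalize LL O h x = A at *
  generalize LL O h (h y) = Y at *
  generalize LL O h (h z) = Z at *
  generalize DD O h 0 = c at *
  have e3 : EE (A * (A + Y) * (Z * (Z + Y))) =
      A ^ 2 * EE (Y * Z) + Z ^ 2 * EE (A * Y) + Y ^ 2 * EE (A * Z) := by
    rw [show A * (A + Y) * (Z * (Z + Y)) =
      (A * Z) ^ 2 * 1 + A ^ 2 * (Y * Z) + Z ^ 2 * (A * Y) + Y ^ 2 * (A * Z) by ring]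
    simp only [EE_add, EE_sq_mul]
    simp [EE]
  have e4 : EE (Y * Z) = c ^ 2 * EE (h y * h z) + EE (Y * Z - c ^ 2 * (h y * h z)) := by
    rw [← EE_sq_mul, ← EE_add]; congr 1; ring
  have f1 : X ^ (2 * (r + δ + m * r) + δ) ∣ EE (Y * Z - c ^ 2 * (h y * h z)) := by
    refine dvd_EE ?_
    rw [show Y * Z - c ^ 2 * (h y * h z) = Y * (Z - h z * c) + h z * c * (Y - h y * c) by ring,
      show 2 * (r + δ + m * r) + δ = r + δ + m * r + (r + δ + (m * r + δ)) by ring, pow_add]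
    refine dvd_add (mul_dvd_mul d1 d4) (mul_dvd_mul ?_ d3)
    rw [pow_add]
    exact mul_dvd_mul h2 d5
  have f2 : ∀ {Y Z : F⟦X⟧}, X ^ (r + δ + m * r) ∣ Y → X ^ (r + δ + m * r) ∣ Z →
      X ^ (2 * (r + δ + m * r) + δ) ∣ Z ^ 2 * EE (A * Y) := fun hY hZ => by
    rw [pow_add, mul_comm 2, pow_mul]
    exact mul_dvd_mul (pow_dvd_pow_of_dvd hZ 2)
      (dvd_EE (((pow_dvd_pow _ (by omega)).trans hY).mul_left _))
  have f3 : X ^ (2 * (r + δ + m * r)) ∣ c ^ 2 * EE (h y * h z) := by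
    rw [show 2 * (r + δ + m * r) = m * r * 2 + (r + δ + (r + δ)) by ring, pow_add, pow_mul]
    refine mul_dvd_mul (pow_dvd_pow_of_dvd d5 2) (dvd_EE ?_)
    rw [pow_add]
    exact mul_dvd_mul h1 h2
  have f4 : X ^ δ ∣ A ^ 2 * W - B ^ 2 := by
    obtain ⟨Y', rfl⟩ : X ^ δ ∣ Y := (pow_dvd_pow _ (by omega)).trans d1
    obtain ⟨Z', rfl⟩ : X ^ δ ∣ Z := (pow_dvd_pow _ (by omega)).trans d2
    generalize (X : F⟦X⟧) ^ δ = t at e2 ⊢
    refine ⟨-(B ^ 2 * W * A * (2 * A ^ 2 * (Y' + Z') + A * t * (Y' ^ 2 + 3 * Y' * Z' + Z' ^ 2) +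
      t ^ 2 * Y' * Z' * (Y' + Z'))), ?_⟩
    linear_combination B ^ 2 * e2 - A ^ 2 * W * (A * B + 1) * e1
  rw [e3, e4, show (A ^ 2 * (c ^ 2 * EE (h y * h z) + EE (Y * Z - c ^ 2 * (h y * h z))) +
    Z ^ 2 * EE (A * Y) + Y ^ 2 * EE (A * Z)) * W - (c * B) ^ 2 * EE (h y * h z) =
    c ^ 2 * EE (h y * h z) * (A ^ 2 * W - B ^ 2) + (A ^ 2 * EE (Y * Z - c ^ 2 * (h y * h z)) +
    Z ^ 2 * EE (A * Y) + Y ^ 2 * EE (A * Z)) * W by ring]
  refine dvd_add ?_ (Dvd.dvd.mul_right (dvd_add (dvd_add (f1.mul_left _) (f2 d1 d2)) (f2 d2 d1)) _)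
  rw [pow_add]
  exact mul_dvd_mul f3 f4

theorem cube_main (κ : F) {O : Finset ι} {y z : ι} (hy : y ∉ O) (hz : z ∉ insert y O)
    {h : ι → F⟦X⟧} {r δ m N : ℕ} (hr : 1 ≤ r) (hm : 2 * (m + 1) = 2 ^ O.card)
    (hO : ∀ j ∈ O, X ^ r ∣ h j) (h1 : X ^ (r + δ) ∣ h y) (h2 : X ^ (r + δ) ∣ h z) {x : F⟦X⟧}
    (hx : constantCoeff x ≠ 0) (hN : N ≤ 4 * (m * r + r)) (hN' : N ≤ 3 * δ + 2 * (m * r) + 4 * r) :
    X ^ N ∣ cube (insert z (insert y O)) h (psi κ) x - GG κ O h x ^ 2 * EE (h y * h z) := by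
  have hX : ∀ {n : ℕ} {g : F⟦X⟧}, X ^ (r + n) ∣ g → X ∣ g := fun hg =>
    (dvd_pow_self _ (by omega)).trans hg
  have hO' : ∀ j ∈ O, X ∣ h j := fun j hj => hX (n := 0) (hO j hj)
  have hyz : z ≠ y := fun e => hz (e ▸ mem_insert_self _ _)
  have hzO : z ∉ O := fun e => hz (mem_insert_of_mem e)
  have hr1 : X ^ r ∣ h y := (pow_dvd_pow _ (Nat.le_add_right _ _)).trans h1
  have hr2 : X ^ r ∣ h z := (pow_dvd_pow _ (Nat.le_add_right _ _)).trans h2
  have e0 : psi κ = fun x => eul κ x ^ 2 * (eul κ x * x⁻¹) := funext fun x => by rw [psi]; ring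
  have e1 := cube_mul (eul_add κ) (fun x => x⁻¹) O h x
  have side : ∀ {y z : ι}, z ∉ O → X ^ (r + δ) ∣ h y → X ^ (r + δ) ∣ h z →
      X ^ N ∣ eul κ (h y) ^ 2 * GG κ (insert z O) h (x + h y) := fun {y z} hz h1 h2 => by
    rw [GG_insert κ hz (by
      simp only [mem_insert, forall_eq_or_imp]
      exact ⟨hX h2, hO'⟩) (cc_add hx (hX h1)), ← mul_assoc]
    refine Dvd.dvd.mul_right ((pow_dvd_pow _ (?_ : N ≤ (r + δ) * 2 +
      (r + δ + (2 * m + 1) * r))).trans ?_) _
    · nlinarith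
    rw [pow_add, pow_mul]
    exact mul_dvd_mul (pow_dvd_pow_of_dvd (dvd_eul κ h1) 2)
      (dvd_EE ((dvd_LL (by omega) hO h2).mul_left _))
  rw [e0, cube_mul (f := fun x => eul κ x ^ 2) (fun x y => by rw [eul_add, add_sq']),
    Finset.sum_insert hz, Finset.sum_insert hy, erase_insert hz, erase_insert_of_ne hyz,
    erase_insert hy]
  change X ^ N ∣ eul κ x ^ 2 * GG κ (insert z (insert y O)) h x +
    (eul κ (h z) ^ 2 * GG κ (insert y O) h (x + h z) +
    (eul κ (h y) ^ 2 * GG κ (insert z O) h (x + h y) +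
    ∑ b ∈ O, eul κ (h b) ^ 2 * GG κ ((insert z (insert y O)).erase b) h (x + h b))) - _
  have e2 : GG κ O h x ^ 2 = (eul κ x * cube O h (fun x => x⁻¹) x) ^ 2 +
      ∑ b ∈ O, (eul κ (h b) * cube (O.erase b) h (fun x => x⁻¹) (x + h b)) ^ 2 := by
    have : CharP F⟦X⟧ 2 := charP_of_injective_algebraMap (algebraMap F F⟦X⟧).injective 2
    rw [GG, e1, add_sq', CharTwo.sum_sq]
  rw [e2, add_mul, Finset.sum_mul, ← add_assoc, ← add_assoc, add_sub_add_comm,
    ← Finset.sum_sub_distrib]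
  refine dvd_add (dvd_sub (dvd_add (dvd_add (Dvd.dvd.mul_left ?_ _) (side hy h2 h1))
    (side hzO h1 h2)) ?_) (Finset.dvd_sum fun b hb => ?_)
  · have hS : ∀ j ∈ insert y O, X ^ r ∣ h j := by
      simp only [mem_insert, forall_eq_or_imp]
      exact ⟨hr1, hO⟩
    rw [GG_insert κ hz (by
      simp only [mem_insert, forall_eq_or_imp]
      exact ⟨hX h2, hX h1, hO'⟩) hx]
    refine Dvd.dvd.mul_right (dvd_EE (Dvd.dvd.mul_left ((pow_dvd_pow _ ?_).trans
      (dvd_LL (m := 4 * m + 3) (δ := 0) ?_ hS hr2)) _)) _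
    · nlinarith
    · rw [card_insert_of_notMem hy, pow_succ]; omega
  · rw [cube_inv hO' hx]
    refine (pow_dvd_pow _ (?_ : N ≤ (2 * m + 1) * r * 2 + (r + r))).trans ?_
    · nlinarith
    rw [pow_add, pow_mul]
    refine mul_dvd_mul (pow_dvd_pow_of_dvd
      (((dvd_DD (by omega) hO (dvd_zero _)).mul_right _).mul_left _) 2) (dvd_EE ?_)
    rw [pow_add]
    exact mul_dvd_mul hr1 hr2
  · rw [erase_insert_of_ne fun e : z = b => hzO (e ▸ hb),
      erase_insert_of_ne fun e : y = b => hy (e ▸ hb), mul_pow, mul_assoc, ← mul_sub]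
    refine (pow_dvd_pow _ (?_ : N ≤ r * 2 + (2 * (r + δ + m * r) + δ))).trans ?_
    · omega
    rw [pow_add, pow_mul]
    refine mul_dvd_mul (pow_dvd_pow_of_dvd (dvd_eul κ (hO b hb)) 2) (term_main κ
      (fun e => hy (mem_of_mem_erase e)) (fun e => ?_) hr ?_
      (fun j hj => hO j (mem_of_mem_erase hj)) h1 h2 (cc_add hx (hO' b hb)))
    · rcases mem_insert.1 e with e | e
      · exact hyz e
      · exact hzO (mem_of_mem_erase e)
    · rw [← card_erase_add_one hb, pow_succ] at hm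
      omega

end QCube

end Pool.Agent.MP_f37147_nt
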