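import Mathlib
import Pool.Agent.MP_f37147_nt.QCube

/- Cancellation in the phase at infinity. -/

set_option autoImplicit false

namespace Pool.Agent.MP_f37147_nt

open Finset Pool.Agent.MP_4fffd4_nt Pool.Agent.MP_c853c5_nt
open Polynomial (degreeLT mem_degreeLT)
open scoped BigOperators

namespace QSer

open PowerSeries QCube

variable {F : Type*} [Field F]

/-- Exact order of vanishing. -/
def Ex (n : ℕ) (f : F⟦X⟧) : Prop := ∃ u, constantCoeff u ≠ 0 ∧ f = X ^ n * u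

theorem Ex.mul {m n : ℕ} {f g : F⟦X⟧} (hf : Ex m f) (hg : Ex n g) : Ex (m + n) (f * g) := by
  obtain ⟨u, hu, rfl⟩ := hf
  obtain ⟨v, hv, rfl⟩ := hg
  exact ⟨u * v, by rw [map_mul]; exact mul_ne_zero hu hv, by ring⟩

theorem Ex.unit {f : F⟦X⟧} (hf : constantCoeff f ≠ 0) : Ex 0 f := ⟨f, hf, by simp⟩

theorem Ex.pow (n : ℕ) : Ex n (X ^ n : F⟦X⟧) := ⟨1, by simp, by simp⟩

theorem Ex.le {n k : ℕ} {f : F⟦X⟧} (hf : Ex n f) (h : X ^ k ∣ f) : k ≤ n := by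
  obtain ⟨u, hu, rfl⟩ := hf
  by_contra hk
  have := X_pow_dvd_iff.1 h n (by omega)
  rw [coeff_X_pow_mul', if_pos le_rfl, Nat.sub_self, coeff_zero_eq_constantCoeff_apply] at this
  exact hu this

theorem exists_ex {N : ℕ} {f : F⟦X⟧} (h : ¬ X ^ N ∣ f) : ∃ n < N, Ex n f := by
  induction N with
  | zero => simp at h
  | succ N IH =>
    by_cases h' : X ^ N ∣ f
    · obtain ⟨u, rfl⟩ := h'
      refine ⟨N, Nat.lt_succ_self _, u, fun hu => h ?_, rfl⟩
      rw [pow_succ]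
      exact mul_dvd_mul_left _ (X_dvd_iff.2 hu)
    · obtain ⟨n, h1, h2⟩ := IH h'
      exact ⟨n, by omega, h2⟩

theorem exists_ex_poly {ρ : ℕ} {γ : degreeLT F ρ} (h : γ ≠ 0) :
    ∃ n < ρ, Ex n (γ.1 : F⟦X⟧) := by
  refine exists_ex fun h' => h (Subtype.ext (Polynomial.ext fun n => ?_))
  by_cases hn : n < ρ
  · simpa using X_pow_dvd_iff.1 h' n hn
  · exact (Polynomial.degree_lt_iff_coeff_zero _ _).1 (mem_degreeLT.1 γ.2) n (by omega)

theorem ex_prod {ι : Type*} {t : Finset ι} {a : ι → F⟦X⟧} {B : ℕ}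
    (h : ∀ i ∈ t, ∃ n ≤ B, Ex n (a i)) : ∃ n ≤ t.card * B, Ex n (∏ i ∈ t, a i) := by
  classical
  induction t using Finset.induction with
  | empty => exact ⟨0, by simp, Ex.unit (by simp)⟩
  | insert i t hi IH =>
    obtain ⟨n, h1, h2⟩ := IH fun j hj => h j (mem_insert_of_mem hj)
    obtain ⟨k, h3, h4⟩ := h i (mem_insert_self _ _)
    refine ⟨k + n, ?_, by rw [Finset.prod_insert hi]; exact h4.mul h2⟩
    rw [card_insert_of_notMem hi, add_mul]
    omega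

theorem expect_uniq {W : Type*} [Fintype W] {P : W → Prop} (h : ∀ a b, P a → P b → a = b) :
    𝔼 a, ind (P a) ≤ 1 / Fintype.card W := by
  by_cases h' : ∃ a, P a
  · obtain ⟨a, ha⟩ := h'
    simpa using expect_ind_le (P := P) {a} fun b hb => by simpa using h b a hb ha
  · push Not at h'
    simp only [ind_neg (h' _), Finset.expect_const_zero]
    positivity

variable [Fintype F]

theorem char_zero {e : F → ℝ} (he : Chr e) {o p ρ : ℕ} {Q : F⟦X⟧} (hQ : Ex o Q) (h1 : o ≤ p)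
    (h2 : p < o + ρ) : 𝔼 ζ : degreeLT F ρ, e (coeff p (Q * (ζ.1 : F⟦X⟧))) = 0 := by
  obtain ⟨u, hu, rfl⟩ := hQ
  obtain ⟨c, hc⟩ := he.neg
  refine (he.toSgn.comp (fun ζ : degreeLT F ρ => coeff p (X ^ o * u * (ζ.1 : F⟦X⟧))) fun a b => by
    rw [Submodule.coe_add, Polynomial.coe_add, mul_add, map_add]).expect_eq_zero
    (a := ⟨Polynomial.C (c / constantCoeff u) * Polynomial.X ^ (p - o), mem_degreeLT.2
      ((Polynomial.degree_C_mul_X_pow_le _ _).trans_lt (by exact_mod_cast (by omega)))⟩) ?_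
  simp only [Polynomial.coe_mul, Polynomial.coe_C, Polynomial.coe_pow, Polynomial.coe_X]
  rw [show X ^ o * u * (C (c / constantCoeff u) * X ^ (p - o)) =
    X ^ (o + (p - o)) * (C (c / constantCoeff u) * u) by ring, show o + (p - o) = p by omega,
    coeff_X_pow_mul', if_pos le_rfl, Nat.sub_self, coeff_zero_eq_constantCoeff_apply, map_mul,
    constantCoeff_C, div_mul_cancel₀ _ hu, hc]
  norm_num

variable [CharP F 2]

omit [Fintype F] in
theorem cast_odd {n : ℕ} (hn : Odd n) : (n : F) = 1 := by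
  obtain ⟨k, rfl⟩ := hn
  have h2 : (2 : F) = 0 := by exact_mod_cast CharP.cast_eq_zero F 2
  push_cast
  rw [h2, zero_mul, zero_add]

omit [Fintype F] in
theorem Ex.EE {n : ℕ} {f : F⟦X⟧} (hf : Ex n f) (hn : Odd n) : Ex n (EE f) := by
  obtain ⟨k, h1, h2⟩ := exists_ex (N := n + 1) (f := QCube.EE f) fun h => by
    have h3 := X_pow_dvd_iff.1 h n (Nat.lt_succ_self _)
    rw [coeff_EE, cast_odd hn, one_mul] at h3
    obtain ⟨u, hu, rfl⟩ := hf
    rw [coeff_X_pow_mul', if_pos le_rfl, Nat.sub_self, coeff_zero_eq_constantCoeff_apply] at h3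
    exact hu h3
  obtain ⟨u, -, hu⟩ := hf
  rwa [le_antisymm (Nat.lt_succ_iff.1 h1) (h2.le (dvd_EE ⟨u, hu⟩))] at h2

theorem bad_w {ι : Type*} [DecidableEq ι] {O : Finset ι} {h : ι → F⟦X⟧} {r δ m ρ : ℕ}
    (hr : 1 ≤ r) (hm : m + 1 = 2 ^ O.card) (hO : ∀ j ∈ O, X ^ r ∣ h j)
    (hgood : ∀ ω ∈ O.powerset.erase ∅, ∃ n ≤ r + ρ, Ex n (∑ j ∈ ω, h j)) {x V : F⟦X⟧}
    (hx : constantCoeff x ≠ 0) (hV : Ex (r + δ) V) (hδ : m * ρ + ρ ≤ δ)
    {ρ' : ℕ} (hρ : 2 * ρ' + 1 ≤ ρ) :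
    𝔼 γ : degreeLT F ρ, ind (X ^ (r + δ + (m * r + (m * ρ + ρ))) ∣
      EE (LL O h x * LL O h (V * (γ.1 : F⟦X⟧)))) ≤ 1 / (Fintype.card F : ℝ) ^ ρ' := by
  obtain ⟨o, ho, hc⟩ := ex_prod hgood
  rw [QCube.card_erase hm, mul_add] at ho
  obtain ⟨ε, hε, hodd⟩ : ∃ ε ≤ 1, Odd (0 + o + (r + δ) + ε) := by
    rcases Nat.even_or_odd (0 + o + (r + δ)) with h | h
    · exact ⟨1, le_rfl, h.add_one⟩
    · exact ⟨0, zero_le_one, h⟩
  have hmem : ∀ t : degreeLT F ρ', Polynomial.X ^ ε * t.1 ^ 2 ∈ degreeLT F ρ := fun t => by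
    rw [mem_degreeLT]
    by_cases ht : t.1 = 0
    · rw [ht, zero_pow two_ne_zero, mul_zero, Polynomial.degree_zero]; exact WithBot.bot_lt_coe _
    have h1 := (Polynomial.natDegree_lt_iff_degree_lt ht).2 (mem_degreeLT.1 t.2)
    refine Polynomial.degree_le_natDegree.trans_lt (Nat.cast_lt.2 ?_)
    rw [(Polynomial.monic_X_pow ε).natDegree_mul' (pow_ne_zero _ ht), Polynomial.natDegree_X_pow,
      Polynomial.natDegree_pow]
    omega
  rw [expect_avg _ fun t : degreeLT F ρ' => (⟨_, hmem t⟩ : degreeLT F ρ)]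
  refine Finset.expect_le univ_nonempty fun γ _ => (expect_uniq fun a b ha hb => ?_).trans_eq (by
    rw [card_degreeLT, Nat.cast_pow])
  by_contra hab
  obtain ⟨j, hj, hjx⟩ := exists_ex_poly (sub_ne_zero.2 hab)
  have h2 := two_eq (F := F)
  have h1 := dvd_add ha hb
  rw [← EE_add, ← mul_add, ← LL_add h2] at h1
  simp only [Submodule.coe_add, Polynomial.coe_add, Polynomial.coe_mul, Polynomial.coe_pow,
    Polynomial.coe_X] at h1
  rw [Submodule.coe_sub, Polynomial.coe_sub] at hjx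
  generalize (γ.1 : F⟦X⟧) = g at h1
  generalize (a.1 : F⟦X⟧) = a' at h1 hjx
  generalize (b.1 : F⟦X⟧) = b' at h1 hjx
  rw [show V * (g + X ^ ε * a' ^ 2) + V * (g + X ^ ε * b' ^ 2) = V * X ^ ε * (a' - b') ^ 2 by
      linear_combination (V * g + V * X ^ ε * a' * b') * h2] at h1
  generalize a' - b' = t at h1 hjx
  have h3 : X ^ (r + δ) ∣ V * X ^ ε * t ^ 2 := by
    obtain ⟨u, -, rfl⟩ := hV
    exact ⟨u * X ^ ε * t ^ 2, by ring⟩
  have h4 := dvd_EE (((pow_dvd_pow _ (by omega : r + δ + (m * r + (m * ρ + ρ)) ≤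
    r + δ + (m * r + δ))).trans (dvd_LL_sub hm hO h3)).mul_left (LL O h x))
  rw [show LL O h x * LL O h (V * X ^ ε * t ^ 2) = LL O h x * (LL O h (V * X ^ ε * t ^ 2) -
    V * X ^ ε * t ^ 2 * DD O h 0) + t ^ 2 * (LL O h x * DD O h 0 * V * X ^ ε) by ring, EE_add,
    dvd_add_right h4, EE_sq_mul, sq] at h1
  have hc' : Ex o (DD O h 0) := by simpa [DD] using hc
  have h5 := ((hjx.mul hjx).mul (((((Ex.unit (cc_LL (fun j hj => (dvd_pow_self _
    (by omega)).trans (hO j hj)) hx)).mul hc').mul hV).mul (Ex.pow ε)).EE hodd)).le h1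
  omega

omit [CharP F 2] in
theorem zero_prob {ι : Type*} [Fintype ι] [DecidableEq ι] {ω : Finset ι} (hω : ω ≠ ∅) (ρ : ℕ) :
    𝔼 Y : ι → degreeLT F ρ, ind (∑ j ∈ ω, Y j = 0) ≤ 1 / (Fintype.card F : ℝ) ^ ρ := by
  obtain ⟨i, hi⟩ := nonempty_iff_ne_empty.2 hω
  rw [expect_avg _ fun t : degreeLT F ρ => (Pi.single i t : ι → degreeLT F ρ)]
  refine Finset.expect_le univ_nonempty fun Y _ => (expect_uniq fun a b ha hb => ?_).trans_eq (by
    rw [card_degreeLT, Nat.cast_pow])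
  simp only [Pi.add_apply, Finset.sum_add_distrib, Finset.sum_pi_single', if_pos hi] at ha hb
  exact add_left_cancel (ha.trans hb.symm)

theorem inner_zero {ι : Type*} [DecidableEq ι] {O : Finset ι} {w y z : ι} (hw : w ∉ O)
    (hy : y ∉ insert w O) (hz : z ∉ insert y (insert w O)) {e : F → ℝ} (he : Chr e)
    {K M x : F⟦X⟧} (κ : F) {p : ℕ} (hK : constantCoeff K ≠ 0) (hM : constantCoeff M ≠ 0)
    (hx : constantCoeff x ≠ 0) (hp : Odd p) {r δ δ' m ρ B ρz : ℕ} (hr : 1 ≤ r)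
    (hm : m + 1 = 2 ^ O.card) {h : ι → F⟦X⟧} (hO : ∀ j ∈ O, X ^ r ∣ h j) (h1 : X ^ (r + δ) ∣ h w)
    {j : ℕ} (hj : j < ρ) (h2 : Ex (r + δ' + j) (h y))
    (h3 : ¬ X ^ (r + δ + (m * r + B)) ∣ EE (LL O h x * LL O h (h w)))
    (b1 : p + 1 ≤ 4 * (m * r + r)) (b2 : p + 1 ≤ 3 * δ' + 2 * (m * r) + 4 * r)
    (c1 : 2 * (r + δ + (m * r + B)) + ρ + 2 * (r + δ') ≤ p)
    (c2 : p < 2 * (r + δ + m * r) + 2 * (r + δ') + ρz) :
    𝔼 ζ : degreeLT F ρz, e (coeff p (K ^ 2 * cube (insert y (insert w O)) h (psi κ)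
      (x + M * X ^ (r + δ') * (ζ.1 : F⟦X⟧)))) = 0 := by
  have hO1 : ∀ j ∈ insert w O, X ^ r ∣ h j := by
    simp only [mem_insert, forall_eq_or_imp]
    exact ⟨(pow_dvd_pow _ (Nat.le_add_right _ _)).trans h1, hO⟩
  have hO2 : ∀ j ∈ insert w O, X ∣ h j := fun j hj => (dvd_pow_self _ (by omega)).trans (hO1 j hj)
  have h4 : X ^ (r + δ') ∣ h y := by
    obtain ⟨u, -, hu⟩ := h2
    exact ⟨X ^ j * u, by rw [hu]; ring⟩
  have key : ∀ ζ : F⟦X⟧, coeff p (K ^ 2 * cube (insert y (insert w O)) h (psi κ)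
      (x + M * X ^ (r + δ') * ζ)) = coeff p (K ^ 2 * cube (insert y (insert w O)) h (psi κ) x) +
      coeff p ((K * GG κ (insert w O) h x) ^ 2 * h y * M * X ^ (r + δ') * ζ) := fun ζ => by
    set h' := Function.update h z (M * X ^ (r + δ') * ζ) with hh'
    have e1 : ∀ j ∈ insert y (insert w O), h' j = h j := fun j hj =>
      Function.update_of_ne (fun e : j = z => hz (e ▸ hj)) _ _
    have e2 : h' z = M * X ^ (r + δ') * ζ := Function.update_self _ _ _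
    have e3 := cube_main κ hy hz (h := h') (δ := δ') (m := m) (N := p + 1) hr
      (by rw [card_insert_of_notMem hw, pow_succ]; omega)
      (fun j hj => e1 j (mem_insert_of_mem hj) ▸ hO1 j hj) (e1 y (mem_insert_self _ _) ▸ h4)
      (e2 ▸ ⟨M * ζ, by ring⟩) hx b1 b2
    have e4 := X_pow_dvd_iff.1 (e3.mul_left (K ^ 2)) p (Nat.lt_succ_self _)
    rw [cube_insert hz, cube_congr e1, cube_congr e1, e2, e1 y (mem_insert_self _ _), GG,
      cube_congr fun j hj => e1 j (mem_insert_of_mem hj), ← GG, mul_sub, map_sub, mul_add, map_add,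
      ← mul_assoc, ← mul_pow, ← EE_sq_mul, coeff_EE, cast_odd hp, one_mul] at e4
    have h2F : (2 : F) = 0 := by exact_mod_cast CharP.cast_eq_zero F 2
    simp only [← mul_assoc] at e4 ⊢
    linear_combination e4 - coeff p (K ^ 2 * cube (insert y (insert w O)) h (psi κ) x) * h2F
  simp only [key, he.add, ← Finset.mul_expect]
  obtain ⟨o, ho, hT⟩ := exists_ex h3
  have ho' := hT.le (dvd_EE ((dvd_LL hm hO h1).mul_left _))
  have hG : Ex (0 + (o + 0)) (K * GG κ (insert w O) h x) := by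
    rw [GG_insert κ hw hO2 hx]
    refine (Ex.unit hK).mul (hT.mul (Ex.unit ?_))
    rw [constantCoeff_inv]
    exact inv_ne_zero (cc_LL hO2 hx)
  rw [sq (K * _), char_zero he ((((hG.mul hG).mul h2).mul (Ex.unit hM)).mul (Ex.pow _)) (by omega)
    (by omega), mul_zero]

theorem ser_aux {ι : Type*} [Fintype ι] [DecidableEq ι] {O : Finset ι} {w y z : ι} (hw : w ∉ O)
    (hy : y ∉ insert w O) (hz : z ∉ insert y (insert w O)) {e : F → ℝ} (he : Chr e)
    {K M x₀ : F⟦X⟧} (κ : F) {p : ℕ} (hK : constantCoeff K ≠ 0) (hM : constantCoeff M ≠ 0)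
    (hx₀ : constantCoeff x₀ ≠ 0) (hp : Odd p) {H r δ δ' m ρ ρ' ρz : ℕ} (hr : 1 ≤ r)
    (hm : m + 1 = 2 ^ O.card) (hδ : m * ρ + ρ ≤ δ) (hρ : 2 * ρ' + 1 ≤ ρ)
    (a1 : r + δ + ρ ≤ H + 1) (a2 : r + δ' + ρ ≤ H + 1) (a3 : r + δ' + ρz ≤ H + 1)
    (b1 : p + 1 ≤ 4 * (m * r + r)) (b2 : p + 1 ≤ 3 * δ' + 2 * (m * r) + 4 * r)
    (c1 : 2 * (r + δ + (m * r + (m * ρ + ρ))) + ρ + 2 * (r + δ') ≤ p)
    (c2 : p < 2 * (r + δ + m * r) + 2 * (r + δ') + ρz) :
    |𝔼 γ : degreeLT F H, e (coeff p (K ^ 2 * psi κ (x₀ + M * X * (γ.1 : F⟦X⟧))))| ^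
      2 ^ (O.card + 2) ≤ (m + 1) / (Fintype.card F : ℝ) ^ ρ + 1 / (Fintype.card F : ℝ) ^ ρ' := by
  obtain ⟨r₀, rfl⟩ : ∃ r₀, r = r₀ + 1 := ⟨r - 1, by omega⟩
  let Λ : degreeLT F H →+ F⟦X⟧ := AddMonoidHom.mk' (fun γ => M * X * (γ.1 : F⟦X⟧)) fun a b => by
    rw [Submodule.coe_add, Polynomial.coe_add, mul_add]
  have hΛ : ∀ γ, Λ γ = M * X * (γ.1 : F⟦X⟧) := fun _ => rfl
  have hmul : ∀ {t σ : ℕ} (ht : (Polynomial.X ^ t : Polynomial F).natDegree + σ ≤ H)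
      (γ : degreeLT F σ), Λ (mulLT _ ht γ) = M * X ^ (t + 1) * (γ.1 : F⟦X⟧) := fun ht γ => by
    rw [hΛ, mulLT_apply, Polynomial.coe_mul, Polynomial.coe_pow, Polynomial.coe_X]
    ring
  let t : ι → ℕ := fun j => if j = w then r₀ + δ else if j = y then r₀ + δ' else r₀
  have ht : ∀ j, (Polynomial.X ^ t j : Polynomial F).natDegree + ρ ≤ H := fun j => by
    rw [Polynomial.natDegree_X_pow]
    simp only [t]
    split_ifs <;> omega
  have hwy : y ≠ w := fun e => hy (e ▸ mem_insert_self _ _)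
  have tO : ∀ j ∈ O, t j = r₀ := fun j hj => by
    simp only [t]
    rw [if_neg fun e : j = w => hw (e ▸ hj), if_neg fun e : j = y => hy (e ▸ mem_insert_of_mem hj)]
  have tw : t w + 1 = r₀ + 1 + δ := by simp only [t, if_pos]; omega
  have ty : t y + 1 = r₀ + 1 + δ' := by simp only [t, if_neg hwy, if_pos]; omega
  have h0 := vdc e he.add (fun j => mulLT _ (ht j))
    (fun γ : degreeLT F H => coeff p (K ^ 2 * psi κ (x₀ + Λ γ))) (insert y (insert w O))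
  rw [card_insert_of_notMem hy, card_insert_of_notMem hw] at h0
  refine h0.trans ?_
  set hh : (ι → degreeLT F ρ) → ι → F⟦X⟧ := fun Y j => M * X ^ (t j + 1) * ((Y j).1 : F⟦X⟧)
    with hhh
  have hc : ∀ (Y : ι → degreeLT F ρ) (γ : degreeLT F H),
      cube (insert y (insert w O)) (fun j => mulLT _ (ht j) (Y j))
        (fun γ : degreeLT F H => coeff p (K ^ 2 * psi κ (x₀ + Λ γ))) γ =
      coeff p (K ^ 2 * cube (insert y (insert w O)) (hh Y) (psi κ) (x₀ + Λ γ)) := fun Y γ => by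
    simp only [cube, Finset.mul_sum, map_sum, map_add, hmul, add_assoc, hhh]
  have hx : ∀ γ, constantCoeff (x₀ + Λ γ) ≠ 0 := fun γ =>
    cc_add hx₀ ⟨M * (γ.1 : F⟦X⟧), by rw [hΛ]; ring⟩
  have hO : ∀ Y, ∀ j ∈ O, X ^ (r₀ + 1) ∣ hh Y j := fun Y j hj =>
    ⟨M * ((Y j).1 : F⟦X⟧), by simp only [hhh, tO j hj]; ring⟩
  set G : (ι → degreeLT F ρ) → Prop := fun Y => ∀ ω ∈ O.powerset.erase ∅, ∑ j ∈ ω, Y j ≠ 0
    with hG
  set B : (ι → degreeLT F ρ) → degreeLT F H → Prop := fun Y γ =>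
    X ^ (r₀ + 1 + δ + (m * (r₀ + 1) + (m * ρ + ρ))) ∣
      EE (LL O (hh Y) (x₀ + Λ γ) * LL O (hh Y) (hh Y w)) with hB
  have hz' : (Polynomial.X ^ (r₀ + δ') : Polynomial F).natDegree + ρz ≤ H := by
    rw [Polynomial.natDegree_X_pow]; omega
  have step : ∀ Y, |𝔼 γ : degreeLT F H, e (coeff p (K ^ 2 *
      cube (insert y (insert w O)) (hh Y) (psi κ) (x₀ + Λ γ)))| ≤
      (∑ ω ∈ O.powerset.erase ∅, ind (∑ j ∈ ω, Y j = 0) + ind (∑ j ∈ {y}, Y j = 0)) +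
        𝔼 γ, ind (G Y ∧ B Y γ) := fun Y => by
    rw [expect_avg _ (mulLT _ hz'), ← Fintype.expect_const (ι := degreeLT F H)
      (∑ ω ∈ O.powerset.erase ∅, ind (∑ j ∈ ω, Y j = 0) + ind (∑ j ∈ {y}, Y j = 0)),
      ← Finset.expect_add_distrib]
    refine (Finset.abs_expect_le _ _).trans (Finset.expect_le_expect fun γ _ => ?_)
    refine le_trans (b := ind (((∃ ω ∈ O.powerset.erase ∅, ∑ j ∈ ω, Y j = 0) ∨
      ∑ j ∈ {y}, Y j = 0) ∨ (G Y ∧ B Y γ))) ?_ ((ind_le_add id).trans (add_le_add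
        ((ind_le_add id).trans (add_le_add (ind_le_sum id) le_rfl)) le_rfl))
    by_cases hbad : ((∃ ω ∈ O.powerset.erase ∅, ∑ j ∈ ω, Y j = 0) ∨
      ∑ j ∈ {y}, Y j = 0) ∨ (G Y ∧ B Y γ)
    · rw [ind_pos hbad]
      exact (Finset.abs_expect_le _ _).trans
        (Finset.expect_le univ_nonempty fun _ _ => (he.toSgn.abs_eq _).le)
    rw [ind_neg hbad]
    push Not at hbad
    obtain ⟨⟨g1, g2⟩, g3⟩ := hbad
    rw [sum_singleton] at g2
    obtain ⟨j, hj, hjx⟩ := exists_ex_poly g2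
    have := inner_zero hw hy hz he κ hK hM (hx γ) hp hr hm (hO Y) (δ := δ) (δ' := δ')
      ⟨M * ((Y w).1 : F⟦X⟧), by simp only [hhh, tw]; ring⟩ hj (by
        simpa only [hhh, ty, zero_add] using ((Ex.unit hM).mul (Ex.pow (r₀ + 1 + δ'))).mul hjx)
      (g3 g1) b1 b2 c1 c2
    simp only [map_add, hmul, ← add_assoc, add_right_comm r₀ δ' 1, this, abs_zero, le_refl]
  simp only [hc]
  refine (Finset.expect_le_expect fun Y _ => step Y).trans ?_
  rw [Finset.expect_add_distrib, Finset.expect_add_distrib, Finset.expect_sum_comm, add_div,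
    Finset.expect_comm]
  refine add_le_add (add_le_add ((Finset.sum_le_card_nsmul _ _ _ fun ω hω =>
    zero_prob (ne_of_mem_erase hω) ρ).trans_eq ?_) (zero_prob (singleton_ne_empty _) ρ))
    (Finset.expect_le univ_nonempty fun γ _ => ?_)
  · rw [QCube.card_erase hm, nsmul_eq_mul, mul_one_div]
  rw [expect_avg _ fun g : degreeLT F ρ => (Pi.single w g : ι → degreeLT F ρ)]
  refine Finset.expect_le univ_nonempty fun Y _ => ?_
  have e1 : ∀ (g : degreeLT F ρ), ∀ j ∈ O, (Y + Pi.single w g : ι → degreeLT F ρ) j = Y j :=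
    fun g j hj => by rw [Pi.add_apply, Pi.single_eq_of_ne fun e : j = w => hw (e ▸ hj), add_zero]
  by_cases hY : G Y
  · refine le_trans ?_ (bad_w hr hm (hO Y) (fun ω hω => ?_) (hx γ)
      (V := M * X ^ (r₀ + 1 + δ)) (by simpa using (Ex.unit hM).mul (Ex.pow (r₀ + 1 + δ))) hδ hρ)
    · refine le_trans ?_ (expect_shift _ (Y w)).le
      refine Finset.expect_le_expect fun g _ => ind_mono fun h => ?_
      have h1 := h.2
      have e2 : ∀ j ∈ O, hh (Y + Pi.single w g) j = hh Y j := fun j hj => by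
        simp only [hhh, e1 g j hj]
      simp only [hB, LL_congr e2] at h1
      simpa only [hhh, tw, Pi.add_apply, Pi.single_eq_same, add_comm g] using h1
    · obtain ⟨j, hj, hjx⟩ := exists_ex_poly (hY ω hω)
      refine ⟨0 + (r₀ + 1) + j, by omega, ?_⟩
      convert ((Ex.unit hM).mul (Ex.pow (r₀ + 1))).mul hjx using 1
      rw [Submodule.coe_sum, ← Polynomial.coeToPowerSeries.ringHom_apply, map_sum, Finset.mul_sum]
      exact Finset.sum_congr rfl fun j hj => by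
        simp only [hhh, tO j (mem_powerset.1 (mem_of_mem_erase hω) hj)]; rfl
  · refine Finset.expect_le univ_nonempty fun g _ => (ind_neg fun h => hY fun ω hω => ?_).le.trans
      (by have := card_pos' (F := F); positivity)
    have := h.1 ω hω
    rwa [Finset.sum_congr rfl fun j hj => e1 g j (mem_powerset.1 (mem_of_mem_erase hω) hj)] at this

omit [CharP F 2] in
theorem fin_bound {x : ℝ} (hx : 0 ≤ x) {I m ρ c : ℕ} (hm : m + 1 = 2 ^ I) (h1 : 2 * I + 8 ≤ ρ)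
    (h2 : c * 2 ^ (I + 2) ≤ ρ / 4) (h : x ^ 2 ^ (I + 2) ≤
      (m + 1) / (Fintype.card F : ℝ) ^ ρ + 1 / (Fintype.card F : ℝ) ^ ((ρ - 1) / 2)) :
    x ≤ 1 / (Fintype.card F : ℝ) ^ c := by
  have hq := card_pos' (F := F)
  have hq2 := two_le_card (F := F)
  have hq1 : (1 : ℝ) ≤ Fintype.card F := one_le_two.trans hq2
  refine (pow_le_pow_iff_left₀ hx (by positivity) (by positivity)).1 (h.trans ?_)
  have e1 : ((m : ℝ) + 1) / (Fintype.card F : ℝ) ^ ρ ≤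
      1 / (Fintype.card F : ℝ) ^ ((ρ - 1) / 2) := by
    rw [div_le_div_iff₀ (by positivity) (by positivity), one_mul]
    calc _ ≤ (Fintype.card F : ℝ) ^ I * (Fintype.card F : ℝ) ^ ((ρ - 1) / 2) := by
          gcongr
          exact le_trans (by exact_mod_cast hm.le) (pow_le_pow_left₀ zero_le_two hq2 I)
      _ ≤ _ := by rw [← pow_add]; exact pow_le_pow_right₀ hq1 (by omega)
  refine (add_le_add e1 le_rfl).trans ?_
  rw [one_div_pow, ← pow_mul, ← add_div, div_le_div_iff₀ (by positivity) (by positivity), one_mul]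
  calc _ ≤ (Fintype.card F : ℝ) ^ 1 * (Fintype.card F : ℝ) ^ (c * 2 ^ (I + 2)) := by
        gcongr; linarith
    _ ≤ _ := by rw [← pow_add]; exact pow_le_pow_right₀ hq1 (by omega)

theorem params {R m H p : ℕ} (hm : 16 * R + 1 ≤ m) (hH : 64 * (m + 1) ≤ H) (h1 : 7 * H ≤ p)
    (h2 : p ≤ R * H) {ρ : ℕ} (hρ : 64 * (m * ρ + ρ) ≤ H) : ∃ r δ δ' ρz : ℕ, 1 ≤ r ∧
      m * ρ + ρ ≤ δ ∧ r + δ + ρ ≤ H + 1 ∧ r + δ' + ρ ≤ H + 1 ∧ r + δ' + ρz ≤ H + 1 ∧
      p + 1 ≤ 4 * (m * r + r) ∧ p + 1 ≤ 3 * δ' + 2 * (m * r) + 4 * r ∧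
      2 * (r + δ + (m * r + (m * ρ + ρ))) + ρ + 2 * (r + δ') ≤ p ∧
      p < 2 * (r + δ + m * r) + 2 * (r + δ') + ρz := by
  generalize m * ρ = T at hρ ⊢
  obtain ⟨A, hA⟩ : ∃ A, A + (2 * (H / 8) + 2 * (H / 2) + 2 * (T + ρ) + ρ) = p :=
    ⟨p - (2 * (H / 8) + 2 * (H / 2) + 2 * (T + ρ) + ρ), by omega⟩
  have a1 := Nat.div_mul_le_self A (2 * m)
  have a2 := Nat.lt_mul_div_succ A (b := 2 * m) (by omega)
  generalize A / (2 * m) = r at a1 a2
  have a3 : 2 * (m * r) ≤ A := by nlinarith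
  have a4 : A < 2 * (m * r) + 2 * m := by nlinarith
  have a5 : 32 * r ≤ H := by
    rcases Nat.eq_zero_or_pos R with rfl | hR
    · omega
    · have := Nat.mul_le_mul_right r hm
      refine Nat.le_of_mul_le_mul_left (c := R) ?_ hR
      calc R * (32 * r) ≤ 2 * ((16 * R + 1) * r) := by nlinarith
        _ ≤ _ := by omega
  have a6 : 1 ≤ r := by
    rcases Nat.eq_zero_or_pos r with rfl | hr
    · omega
    · exact hr
  refine ⟨r, H / 8 - r, H / 2 - r, H / 4, ?_⟩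
  generalize m * r = U at *
  omega

end QSer

universe u

open QSer in
theorem ser_bound (R : ℕ) : ∃ C : ℕ, 0 < C ∧ ∃ H₀ : ℕ, ∀ H, H₀ ≤ H →
    ∀ (F : Type u) [Field F] [Fintype F] [CharP F 2] (e : F → ℝ), Chr e →
    ∀ (K M x₀ : PowerSeries F) (κ : F) (p : ℕ), PowerSeries.constantCoeff K ≠ 0 →
      PowerSeries.constantCoeff M ≠ 0 → PowerSeries.constantCoeff x₀ ≠ 0 → Odd p → 7 * H ≤ p →
      p ≤ R * H → |𝔼 γ : degreeLT F H, e (PowerSeries.coeff p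
        (K ^ 2 * psi κ (x₀ + M * PowerSeries.X * (γ.1 : PowerSeries F))))| ≤
        1 / (Fintype.card F : ℝ) ^ (H / C) := by
  obtain ⟨I, m, hm, hR⟩ : ∃ I m : ℕ, m + 1 = 2 ^ I ∧ 16 * R + 1 ≤ m := by
    have := Nat.lt_two_pow_self (n := 16 * R + 1)
    exact ⟨16 * R + 1, 2 ^ (16 * R + 1) - 1, by omega, by omega⟩
  refine ⟨64 * (m + 1) * 4 * 2 ^ (I + 2), by positivity, 64 * (m + 1) * (2 * I + 8),
    fun H hH F _ _ _ e he K M x₀ κ p hK hM hx hp h1 h2 => ?_⟩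
  have hρ : 2 * I + 8 ≤ H / (64 * (m + 1)) :=
    (Nat.le_div_iff_mul_le (by omega)).2 (by rwa [mul_comm])
  have hρ' := Nat.div_mul_le_self H (64 * (m + 1))
  rw [← Nat.div_div_eq_div_mul, ← Nat.div_div_eq_div_mul]
  generalize H / (64 * (m + 1)) = ρ at hρ hρ' ⊢
  obtain ⟨r, δ, δ', ρz, a0, a1, a2, a3, a4, a5, a6, a7, a8⟩ := params (ρ := ρ) hR
    (le_trans (Nat.le_mul_of_pos_right _ (by omega)) hH) h1 h2 (by nlinarith)
  have hc : (univ.map (Function.Embedding.inl : Fin I ↪ Fin I ⊕ Fin 3)).card = I := by simp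
  have := ser_aux (O := univ.map (Function.Embedding.inl : Fin I ↪ Fin I ⊕ Fin 3))
    (w := Sum.inr 0) (y := Sum.inr 1) (z := Sum.inr 2) (by simp) (by simp) (by simp) he κ hK hM hx
    hp a0 (by rw [hc, hm]) a1 (ρ' := (ρ - 1) / 2) (by omega) a2 a3 a4 a5 a6 a7 a8
  rw [hc] at this
  exact fin_bound (abs_nonneg _) hm hρ (Nat.div_mul_le_self _ _) this

end Pool.Agent.MP_f37147_nt
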