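import Mathlib
import Pool.Agent.MP_f37147_nt.QSer

/- The phase at infinity as a coefficient of a power series. -/

set_option autoImplicit false

namespace Pool.Agent.MP_f37147_nt

open Polynomial Finset Pool.Agent.MP_4fffd4_nt Pool.Agent.MP_c853c5_nt
open scoped BigOperators

universe u

namespace QRat

variable {F : Type*} [Field F]

theorem const_reverse {b : F[X]} (hb : b.Monic) :
    PowerSeries.constantCoeff (b.reverse : PowerSeries F) = 1 := by
  rw [← PowerSeries.coeff_zero_eq_constantCoeff_apply, coeff_coe, coeff_zero_reverse,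
    hb.leadingCoeff]

theorem res_eq {a b : F[X]} {N : ℕ} (hb : b.Monic) (ha : a.natDegree ≤ N) (h1 : 0 < b.natDegree)
    (hn : b.natDegree ≤ N) :
    SFour.res a b = PowerSeries.coeff (N + 1 - b.natDegree)
      ((reflect N a : PowerSeries F) * (b.reverse : PowerSeries F)⁻¹) := by
  have hq : (a /ₘ b).natDegree ≤ N - b.natDegree := by
    rw [natDegree_divByMonic a hb]; omega
  have hr : (a %ₘ b).natDegree ≤ b.natDegree - 1 := by
    have := natDegree_modByMonic_lt a hb (fun e => by rw [e, natDegree_one] at h1; omega)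
    omega
  have e1 : reflect N (b * (a /ₘ b)) = b.reverse * reflect (N - b.natDegree) (a /ₘ b) := by
    have := reflect_mul b (a /ₘ b) le_rfl hq
    rwa [show b.natDegree + (N - b.natDegree) = N by omega] at this
  have e2 : reflect N (a %ₘ b) =
      X ^ (N + 1 - b.natDegree) * reflect (b.natDegree - 1) (a %ₘ b) := by
    have := reflect_mul (1 : F[X]) (a %ₘ b) (F := N + 1 - b.natDegree) (by simp) hr
    rwa [show N + 1 - b.natDegree + (b.natDegree - 1) = N by omega, one_mul, reflect_one] at this
  have e3 : reflect N a = X ^ (N + 1 - b.natDegree) * reflect (b.natDegree - 1) (a %ₘ b) +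
      b.reverse * reflect (N - b.natDegree) (a /ₘ b) := by
    rw [← e1, ← e2, ← reflect_add, modByMonic_add_div]
  have hc : PowerSeries.constantCoeff (b.reverse : PowerSeries F) ≠ 0 := by
    rw [const_reverse hb]; exact one_ne_zero
  have e4 : (reflect N a : PowerSeries F) * (b.reverse : PowerSeries F)⁻¹ =
      PowerSeries.X ^ (N + 1 - b.natDegree) *
        ((reflect (b.natDegree - 1) (a %ₘ b) : PowerSeries F) * (b.reverse : PowerSeries F)⁻¹) +
      (reflect (N - b.natDegree) (a /ₘ b) : PowerSeries F) := by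
    rw [e3, Polynomial.coe_add, Polynomial.coe_mul, Polynomial.coe_mul, Polynomial.coe_pow, coe_X]
    linear_combination (reflect (N - b.natDegree) (a /ₘ b) : PowerSeries F) *
      PowerSeries.mul_inv_cancel _ hc
  rw [e4, map_add, coeff_coe, coeff_reflect, revAt_eq_self_of_lt (by omega),
    coeff_eq_zero_of_natDegree_lt (by omega), add_zero, PowerSeries.coeff_X_pow_mul',
    if_pos le_rfl, Nat.sub_self, PowerSeries.coeff_zero_eq_constantCoeff_apply, map_mul,
    PowerSeries.constantCoeff_inv, const_reverse hb, inv_one, mul_one,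
    ← PowerSeries.coeff_zero_eq_constantCoeff_apply, coeff_coe, coeff_reflect, revAt_zero]
  rfl

theorem reflect_der [CharP F 2] {s : F[X]} {k : ℕ} (hk : s.natDegree = k) (h0 : 0 < k) :
    (reflect (k - 1) (derivative s) : PowerSeries F) = eul (k : F) (s.reverse : PowerSeries F) := by
  have h2 : (2 : F) = 0 := by exact_mod_cast CharP.cast_eq_zero F 2
  have key : ∀ j, PowerSeries.coeff j (eul (k : F) (s.reverse : PowerSeries F)) =
      ((k : F) + j) * s.coeff (revAt k j) := by
    intro j
    rw [eul, map_add, PowerSeries.coeff_C_mul, coeff_coe, coeff_reverse, hk]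
    rcases j with _ | j
    · simp
    · rw [PowerSeries.coeff_succ_X_mul, PowerSeries.coeff_derivative, coeff_coe, coeff_reverse, hk]
      push_cast
      ring
  ext j
  rw [key, coeff_coe, coeff_reflect, coeff_derivative]
  rcases lt_trichotomy j k with h | h | h
  · rw [revAt_le (by omega), revAt_le h.le, show k - 1 - j + 1 = k - j by omega,
      Nat.cast_sub (by omega), Nat.cast_sub (by omega)]
    push_cast
    linear_combination (-(j : F) * s.coeff (k - j)) * h2
  · subst h
    rw [revAt_eq_self_of_lt (by omega), coeff_eq_zero_of_natDegree_lt (by omega)]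
    linear_combination (-(j : F) * s.coeff (revAt j j)) * h2
  · rw [revAt_eq_self_of_lt (by omega), revAt_eq_self_of_lt h,
      coeff_eq_zero_of_natDegree_lt (by omega), coeff_eq_zero_of_natDegree_lt (by omega)]
    simp

theorem le_of_LT {H : ℕ} (hH : 0 < H) (γ : degreeLT F H) : γ.1.natDegree ≤ H - 1 := by
  by_cases h : γ.1 = 0
  · rw [h, natDegree_zero]; omega
  · have := (natDegree_lt_iff_degree_lt h).2 (mem_degreeLT.1 γ.2)
    omega

/-- Reflection of the polynomials of degree less than `H`. -/
noncomputable def rf {H : ℕ} (hH : 0 < H) (γ : degreeLT F H) : degreeLT F H :=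
  ⟨reflect (H - 1) γ.1, mem_degreeLT.2 (degree_le_natDegree.trans_lt (by
    have h1 := natDegree_reflect_le (N := H - 1) (p := γ.1)
    have h2 := le_of_LT hH γ
    exact_mod_cast (by omega)))⟩

theorem rf_bij {H : ℕ} (hH : 0 < H) : Function.Bijective (rf (F := F) hH) :=
  Function.Involutive.bijective fun _ => Subtype.ext reflect_reflect

end QRat

theorem phi_eq_coeff {F : Type*} [Field F] [CharP F 2] {b : F} (hb : b ≠ 0) {m s : F[X]} {k : ℕ}
    (hm : m.Monic) (hs : s.Monic) (hk : s.natDegree = k) (hmk : m.natDegree < k) :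
    phi b m s = PowerSeries.coeff (2 * k - 2 * m.natDegree - 1)
      ((PowerSeries.C b * (m.reverse : PowerSeries F))⁻¹ ^ 2 *
        psi (k : F) (s.reverse : PowerSeries F)) := by
  have hd : (derivative s).natDegree ≤ k - 1 := hk ▸ natDegree_derivative_le s
  have hn : (m ^ 2 * s).natDegree = 2 * m.natDegree + k := by
    rw [(hm.pow 2).natDegree_mul hs, hm.natDegree_pow, hk]
  have h2 : (derivative s * derivative s).natDegree ≤ (k - 1) + (k - 1) :=
    natDegree_mul_le.trans (add_le_add hd hd)
  have h3 : (derivative s * derivative s * derivative s).natDegree ≤ (k - 1) + (k - 1) + (k - 1) :=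
    natDegree_mul_le.trans (add_le_add h2 hd)
  have e0 : C (b⁻¹ ^ 2) * X * derivative s ^ 3 =
      C (b⁻¹ ^ 2) * (X * (derivative s * derivative s * derivative s)) := by ring
  have h4 : (C (b⁻¹ ^ 2) * X * derivative s ^ 3).natDegree ≤ 1 + ((k - 1) + (k - 1) + (k - 1)) := by
    rw [e0]
    exact (natDegree_C_mul_le _ _).trans (natDegree_mul_le.trans (add_le_add natDegree_X_le h3))
  rw [phi, QRat.res_eq ((hm.pow 2).mul hs) h4 (by omega) (by omega), hn,
    show 1 + ((k - 1) + (k - 1) + (k - 1)) + 1 - (2 * m.natDegree + k) =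
      2 * k - 2 * m.natDegree - 1 by omega, e0, reflect_C_mul, reflect_mul _ _ natDegree_X_le h3,
    reflect_mul _ _ h2 hd, reflect_mul _ _ hd hd, reflect_one_X, one_mul, sq m,
    reverse_mul_of_domain, reverse_mul_of_domain]
  simp only [Polynomial.coe_mul, coe_C, map_pow, Polynomial.coe_pow]
  rw [QRat.reflect_der hk (by omega), PowerSeries.mul_inv_rev, PowerSeries.mul_inv_rev,
    PowerSeries.mul_inv_rev, PowerSeries.C_inv, psi]
  congr 1
  ring

theorem inf_bound (R : ℕ) : ∃ C : ℕ, 0 < C ∧ ∃ H₀ : ℕ, ∀ H, H₀ ≤ H →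
    ∀ (F : Type u) [Field F] [Fintype F] [CharP F 2] (e : F → ℝ), Chr e →
    ∀ (b : F) (m s M : F[X]) (k : ℕ), b ≠ 0 → m.Monic → s.Monic → M.Monic → s.natDegree = k →
      M.natDegree + H = k → 8 * H ≤ k → k ≤ R * H → 2 * m.natDegree ≤ k →
      |𝔼 γ : degreeLT F H, e (phi b m (s + M * γ.1))| ≤ 1 / (Fintype.card F : ℝ) ^ (H / C) := by
  obtain ⟨C, hC, H₀, h⟩ := ser_bound.{u} (2 * R)
  refine ⟨C, hC, max H₀ 1, fun H hH F _ _ _ e he b m s M k hb hm hs hM hk hMk h8 hR hmk => ?_⟩
  have hH0 : 0 < H := le_trans (le_max_right _ _) hH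
  have hK : PowerSeries.constantCoeff (PowerSeries.C b * (m.reverse : PowerSeries F))⁻¹ ≠ 0 := by
    rw [PowerSeries.constantCoeff_inv, map_mul, QRat.const_reverse hm, mul_one,
      PowerSeries.constantCoeff_C]
    exact inv_ne_zero hb
  have h1 := h H (le_trans (le_max_left _ _) hH) F e he
    (PowerSeries.C b * (m.reverse : PowerSeries F))⁻¹ (M.reverse : PowerSeries F)
    (s.reverse : PowerSeries F) (k : F) (2 * k - 2 * m.natDegree - 1) hK
    (by rw [QRat.const_reverse hM]; exact one_ne_zero)
    (by rw [QRat.const_reverse hs]; exact one_ne_zero)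
    ⟨k - m.natDegree - 1, by omega⟩ (by omega) (by rw [mul_assoc]; omega)
  refine le_of_eq_of_le (congrArg _ (Fintype.expect_bijective _ (QRat.rf_bij hH0) _ _
    fun γ => ?_)) h1
  have hγ := QRat.le_of_LT hH0 γ
  have hlt : (M * γ.1).degree < s.degree := by
    refine degree_lt_degree (natDegree_mul_le.trans_lt ?_)
    omega
  have hdeg : (s + M * γ.1).natDegree = k := by
    rw [← hk]
    exact natDegree_eq_of_degree_eq (degree_add_eq_left_of_degree_lt hlt)
  have e1 : reflect H γ.1 = X * reflect (H - 1) γ.1 := by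
    have := reflect_mul (1 : F[X]) γ.1 (F := 1) (by simp) hγ
    rwa [show 1 + (H - 1) = H by omega, one_mul, reflect_one, pow_one] at this
  have e2 : (s + M * γ.1).reverse = s.reverse + M.reverse * X * reflect (H - 1) γ.1 := by
    rw [reverse, hdeg, reflect_add, reverse, hk, ← hMk, reflect_mul _ _ le_rfl (by omega), e1,
      reverse, mul_assoc]
  rw [phi_eq_coeff hb hm (hs.add_of_left hlt) hdeg (by omega), e2, Polynomial.coe_add,
    Polynomial.coe_mul, Polynomial.coe_mul, coe_X]
  rfl

end Pool.Agent.MP_f37147_nt
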