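import Mathlib
import Pool.Agent.MP_f37147_nt.QDefs

/- A norm computation modulo eight. -/

set_option autoImplicit false

namespace Pool.Agent.MP_f37147_nt

open Polynomial Finset Pool.Agent.MP_4fffd4_nt Pool.Agent.MP_c853c5_nt
open scoped BigOperators

namespace QSwanA

variable {R : Type*} [CommRing R]

theorem res_add (a a' b : R[X]) : resR (a + a') b = resR a b + resR a' b := by
  rw [resR, add_modByMonic, coeff_add]; rfl

theorem res_sub (a a' b : R[X]) : resR (a - a') b = resR a b - resR a' b := by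
  rw [resR, sub_modByMonic, coeff_sub]; rfl

theorem res_C (c : R) (a b : R[X]) : resR (C c * a) b = c * resR a b := by
  rw [resR, resR, C_mul', smul_modByMonic, coeff_smul, smul_eq_mul]

theorem res_sum {ι : Type*} (s : Finset ι) (f : ι → R[X]) (b : R[X]) :
    resR (∑ i ∈ s, f i) b = ∑ i ∈ s, resR (f i) b := by
  classical
  induction s using Finset.induction_on with
  | empty => simp [resR]
  | insert i s hi ih => rw [sum_insert hi, sum_insert hi, res_add, ih]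

theorem res_congr {a a' b : R[X]} (hb : b.Monic) (h : b ∣ a - a') : resR a b = resR a' b := by
  rw [resR, resR, modByMonic_eq_of_dvd_sub hb h]

/-- `p` has degree at most `d` and the coefficient `c` in degree `d`. -/
structure Top (p : R[X]) (d : ℕ) (c : R) : Prop where
  le : p.natDegree ≤ d
  eq : p.coeff d = c

theorem Top.mul {p q : R[X]} {d e : ℕ} {c c' : R} (hp : Top p d c) (hq : Top q e c') :
    Top (p * q) (d + e) (c * c') :=
  ⟨natDegree_mul_le.trans (add_le_add hp.le hq.le), by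
    rw [coeff_mul_add_eq_of_natDegree_le hp.le hq.le, hp.eq, hq.eq]⟩

theorem Top.pow {p : R[X]} {d : ℕ} {c : R} (hp : Top p d c) (j : ℕ) :
    Top (p ^ j) (j * d) (c ^ j) := by
  induction j with
  | zero => exact ⟨by simp, by simp⟩
  | succ j ih => rw [pow_succ, pow_succ, Nat.succ_mul]; exact ih.mul hp

theorem Top.lift {p : R[X]} {d e : ℕ} {c : R} (hp : Top p d c) (h : d < e) : Top p e 0 :=
  ⟨hp.le.trans h.le, coeff_eq_zero_of_natDegree_lt (hp.le.trans_lt h)⟩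

theorem Top.monic {p : R[X]} (hp : p.Monic) {d : ℕ} (h : p.natDegree = d) : Top p d 1 :=
  ⟨h.le, h ▸ hp.coeff_natDegree⟩

theorem top_C (c : R) : Top (C c) 0 c := ⟨(natDegree_C c).le, coeff_C_zero⟩

theorem top_X : Top (X : R[X]) 1 1 := ⟨natDegree_X_le, coeff_X_one⟩

theorem Top.deriv {p : R[X]} {d : ℕ} (hp : Top p (d + 1) 1) : Top (derivative p) d (d + 1) :=
  ⟨(natDegree_derivative_le p).trans (by have := hp.le; omega), by
    rw [coeff_derivative, hp.eq, one_mul]⟩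

theorem prod_one_add (h8 : (8 : R) = 0) {ι : Type*} (s : Finset ι) (t : ι → R) :
    ∏ i ∈ s, (1 + 2 * t i) =
      1 + 2 * ∑ i ∈ s, t i + 2 * (∑ i ∈ s, t i) ^ 2 - 2 * ∑ i ∈ s, t i ^ 2 := by
  classical
  induction s using Finset.induction_on with
  | empty => simp
  | insert i s hi ih =>
    rw [prod_insert hi, sum_insert hi, sum_insert hi, ih]
    have h : ∃ e, (∑ i ∈ s, t i) ^ 2 - ∑ i ∈ s, t i ^ 2 = 2 * e := by
      clear ih hi
      induction s using Finset.induction_on with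
      | empty => exact ⟨0, by simp⟩
      | insert j s hj ih =>
        obtain ⟨e, he⟩ := ih
        exact ⟨e + t j * ∑ i ∈ s, t i, by
          rw [sum_insert hj, sum_insert hj]; linear_combination he⟩
    obtain ⟨e, he⟩ := h
    linear_combination 4 * t i * he + t i * e * h8

variable [Nontrivial R]

theorem res_of_lt {a b : R[X]} (hb : b.Monic) (h : a.degree < b.degree) :
    resR a b = a.coeff (b.natDegree - 1) := by
  rw [resR, (modByMonic_eq_self_iff hb).2 h]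

theorem res_mul (a : R[X]) {b g : R[X]} (hb : b.Monic) (hg : g.Monic) :
    resR (a * g) (b * g) = resR a b := by
  have h1 := degree_modByMonic_lt a hb
  rw [res_congr (a' := a %ₘ b * g) (hb.mul hg) ⟨a /ₘ b, by
    linear_combination -g * modByMonic_add_div a b⟩, res_of_lt (hb.mul hg) (by
      rw [hg.degree_mul, hg.degree_mul]
      exact WithBot.add_lt_add_right (degree_ne_bot.2 hg.ne_zero) h1), resR]
  by_cases h0 : b.natDegree = 0
  · have : a %ₘ b = 0 := by rw [eq_one_of_monic_natDegree_zero hb h0, modByMonic_one]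
    simp [this]
  rw [hb.natDegree_mul hg, show b.natDegree + g.natDegree - 1 = b.natDegree - 1 + g.natDegree by
    omega, coeff_mul_add_eq_of_natDegree_le _ le_rfl, hg.coeff_natDegree, mul_one]
  by_cases h2 : a %ₘ b = 0
  · simp [h2]
  have := natDegree_lt_natDegree h2 h1
  omega

theorem Top.res {a b : R[X]} {d : ℕ} {c : R} (h : Top a d c) (hb : b.Monic)
    (hd : b.natDegree = d + 1) : resR a b = c := by
  rw [res_of_lt hb (degree_lt_degree (by have := h.le; omega)), hd, Nat.add_sub_cancel, h.eq]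

theorem res_log {n : ℕ} (α : Fin n → R) (y : R[X]) :
    resR (y * derivative (∏ i, (X - C (α i)))) (∏ i, (X - C (α i))) = ∑ i, y.eval (α i) := by
  rw [derivative_prod_finset, mul_sum, res_sum]
  refine sum_congr rfl fun i _ => ?_
  rw [← mul_prod_erase _ _ (mem_univ i), derivative_X_sub_C, mul_one,
    res_mul _ (monic_X_sub_C _) (monic_prod_of_monic _ _ fun j _ => monic_X_sub_C _), resR,
    modByMonic_X_sub_C_eq_C_eval, natDegree_X_sub_C, coeff_C_zero]

theorem one (h8 : (8 : R) = 0) {b b' : R} (hb : b * b' = 1) {m U μ₁ s y l : R[X]} {k n : ℕ}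
    (hm : m.Monic) (hs : s.Monic) (hk : s.natDegree = k + 1) (hmk : m.natDegree ≤ k)
    (hU : U = m ^ 2 + 2 * μ₁) (hμ : μ₁.degree < (2 * m.natDegree : ℕ))
    (hl : l = X * m * derivative m - μ₁) (α : Fin n → R)
    (hα : s ^ 2 + C (b ^ 2) * X * m ^ 2 = ∏ i, (X - C (α i)))
    (hy : derivative (s ^ 2 + C (b ^ 2) * X * m ^ 2) = U * C (b ^ 2) * (1 + 2 * y)) :
    ∏ i, (1 + 2 * y.eval (α i)) =
      1 + 2 * (k + 1) ^ 2 + 2 * (k + 1) - 2 * (k + 1) ^ 2 + 4 * (k + 1) * l.coeff (2 * m.natDegree)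
        - 4 * (k + 1) ^ 3 + 12 * (k + 1) ^ 2 * l.coeff (2 * m.natDegree)
        - 12 * (k + 1) * l.coeff (2 * m.natDegree) ^ 2
        + 2 * b' ^ 2 * resR (derivative s ^ 2) U
        - b' ^ 4 * resR (C 4 * (s * derivative s ^ 3)) (U ^ 2)
        - 3 * b' ^ 2 * resR (C 4 * (derivative s ^ 2 * l)) (U ^ 2)
        + 4 * resR (C (b' ^ 2) * X * derivative s ^ 3) (m ^ 2 * s) := by
  have h8' : (8 : R[X]) = 0 := by rw [← map_ofNat C 8, h8, map_zero]
  have hB : C b * C b' = (1 : R[X]) := by rw [← map_mul, hb, map_one]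
  have hB2 : C b ^ 2 * C b' ^ 2 = (1 : R[X]) := by rw [← mul_pow, hB, one_pow]
  have hb2 : b ^ 2 * b' ^ 2 = 1 := by rw [← mul_pow, hb, one_pow]
  have c2 : C (2 : R) = 2 := map_ofNat C 2
  have c3 : C (3 : R) = 3 := map_ofNat C 3
  have c4 : C (4 : R) = 4 := map_ofNat C 4
  have p1 := res_log α y
  have p2 := res_log α (y ^ 2)
  rw [← hα, hy] at p1 p2
  simp only [eval_pow] at p2
  rw [prod_one_add h8, ← p1, ← p2]
  clear p1 p2 hα
  set μ := m.natDegree with hμd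
  have tm : Top m μ 1 := Top.monic hm rfl
  have ts : Top s (k + 1) 1 := Top.monic hs hk
  have td : Top (derivative s) k (k + 1) := ts.deriv
  have tβ := ((top_C (b ^ 2)).mul top_X).mul (tm.pow 2)
  have hμ' : μ₁.natDegree ≤ 2 * μ := natDegree_le_iff_degree_le.2 hμ.le
  have tl : Top l (2 * μ) (l.coeff (2 * μ)) := by
    refine ⟨?_, rfl⟩
    rw [hl]
    refine (natDegree_sub_le _ _).trans (max_le ?_ hμ')
    rcases Nat.eq_zero_or_pos μ with h0 | h0
    · rw [eq_one_of_monic_natDegree_zero hm h0]; simp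
    · have h1 := natDegree_derivative_le m
      have h2 := natDegree_mul_le (p := X * m) (q := derivative m)
      have h3 := (top_X.mul tm).le
      omega
  have hd2 : (2 * μ₁).degree < (m ^ 2).degree := by
    rw [← c2, C_mul', degree_eq_natDegree (hm.pow 2).ne_zero, hm.natDegree_pow]
    exact (degree_smul_le _ _).trans_lt hμ
  have hUm : U.Monic := hU ▸ (hm.pow 2).add_of_left hd2
  have hUd : U.natDegree = 2 * μ := by
    rw [hU, natDegree_add_eq_left_of_degree_lt hd2, hm.natDegree_pow]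
  have hs2 : (s ^ 2).natDegree = 2 * (k + 1) := by rw [hs.natDegree_pow, hk]
  have hβ : (C (b ^ 2) * X * m ^ 2).natDegree < (s ^ 2).natDegree := by
    have := tβ.le; omega
  have hGm : (s ^ 2 + C (b ^ 2) * X * m ^ 2).Monic := (hs.pow 2).add_of_left (degree_lt_degree hβ)
  have hGd : (s ^ 2 + C (b ^ 2) * X * m ^ 2).natDegree = 2 * (k + 1) := by
    rw [natDegree_add_eq_left_of_natDegree_lt hβ, hs2]
  have hH : 2 * (U * y) = 2 * (C (b' ^ 2) * (s * derivative s) + l) := by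
    simp only [derivative_add, derivative_mul, derivative_sq, derivative_C, derivative_X, map_pow,
      c2] at hy
    rw [hl, map_pow]
    linear_combination (-(C b' ^ 2)) * hy - hU -
      (U * (1 + 2 * y) - m ^ 2 - 2 * X * m * derivative m) * hB2
  have h4 : 4 * (C (b ^ 2) * X * m ^ 2) * m ^ 2 = 4 * C b ^ 2 * X * U ^ 2 := by
    rw [hU, map_pow]
    linear_combination (-(2 * C b ^ 2 * X * (m ^ 2 * μ₁ + μ₁ ^ 2))) * h8'
  generalize l.coeff (2 * μ) = l₀ at tl ⊢
  generalize hβd : C (b ^ 2) * X * m ^ 2 = β at tβ hGm hGd h4 ⊢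
  generalize derivative s = d at td hH ⊢
  generalize hGe : s ^ 2 + β = G at hGm hGd ⊢
  generalize hHe : C (b' ^ 2) * (s * d) + l = H at hH
  have hU2 := hUm.pow 2
  have hU2d : (U ^ 2).natDegree = 4 * μ := by rw [hUm.natDegree_pow, hUd]; ring
  have d1 : (U * G).natDegree = 2 * μ + 2 * (k + 1) := by rw [hUm.natDegree_mul hGm, hUd, hGd]
  have d2 : (U ^ 2 * G).natDegree = 4 * μ + 2 * (k + 1) := by
    rw [hU2.natDegree_mul hGm, hU2d, hGd]
  have d3 : (U ^ 2 * s * G).natDegree = 4 * μ + (k + 1) + 2 * (k + 1) := by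
    rw [(hU2.mul hs).natDegree_mul hGm, hU2.natDegree_mul hs, hU2d, hGd, hk]
  have r0 : resR H G = b' ^ 2 * (k + 1) := by
    rw [← hHe, res_add, res_C, (ts.mul td).res hGm (by omega),
      (tl.lift (e := 2 * k + 1) (by omega)).res hGm (by omega)]
    ring
  have r1 : 2 * resR (y * (U * C (b ^ 2) * (1 + 2 * y))) G =
      2 * b ^ 2 * resR H G + 4 * b ^ 2 * resR (H * y) G := by
    rw [← res_C, ← res_C, ← res_C, ← res_add]
    congr 1
    simp only [map_mul, map_pow, c2, c4]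
    linear_combination (C b ^ 2 * (1 + 2 * y)) * hH
  have r2 : 2 * resR (y * (U * C (b ^ 2) * (1 + 2 * y))) G -
      2 * resR (y ^ 2 * (U * C (b ^ 2) * (1 + 2 * y))) G =
      2 * b ^ 2 * resR H G + 2 * b ^ 2 * resR (H ^ 2) (U * G) -
        4 * b ^ 2 * resR (H ^ 3) (U ^ 2 * G) := by
    rw [← res_mul _ hGm hU2, ← res_mul (y ^ 2 * _) hGm hU2, ← res_mul H hGm hU2,
      ← res_mul (H ^ 2) (hUm.mul hGm) hUm, show U * G * U = G * U ^ 2 by ring,
      mul_comm (U ^ 2) G, ← res_C, ← res_C, ← res_C, ← res_C, ← res_C, ← res_sub, ← res_add,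
      ← res_sub]
    congr 1
    simp only [map_mul, map_pow, c2, c4]
    linear_combination (C b ^ 2 * (U ^ 2 + U * (U * y + H) -
      2 * ((U * y) ^ 2 + U * y * H + H ^ 2))) * hH
  have r4 : resR (H ^ 2) (U * G) =
      b' ^ 4 * (resR (d ^ 2) U - b ^ 2 * (k + 1) ^ 2) + 2 * b' ^ 2 * ((k + 1) * l₀) := by
    have e : H ^ 2 = C (b' ^ 4) * (d ^ 2 * G - β * d ^ 2) + C (2 * b' ^ 2) * (s * d * l) +
        l ^ 2 := by
      rw [← hHe, ← hGe]; simp only [map_mul, map_pow, c2]; ring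
    rw [e, res_add, res_add, res_C, res_C, res_sub, res_mul _ hUm hGm,
      (tβ.mul (td.pow 2)).res (hUm.mul hGm) (by omega),
      ((ts.mul td).mul tl).res (hUm.mul hGm) (by omega),
      ((tl.pow 2).lift (e := 2 * μ + 2 * k + 1) (by omega)).res (hUm.mul hGm) (by omega)]
    ring
  have r6 : resR (β * s * d ^ 3) (U ^ 2 * G) =
      resR (β * d ^ 3) (U ^ 2 * s) - b ^ 4 * (k + 1) ^ 3 := by
    rw [← res_mul _ (hU2.mul hGm) hs, show U ^ 2 * G * s = U ^ 2 * s * G by ring,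
      show β * s * d ^ 3 * s = β * d ^ 3 * G - β ^ 2 * d ^ 3 by rw [← hGe]; ring, res_sub,
      res_mul _ (hU2.mul hs) hGm,
      ((tβ.pow 2).mul (td.pow 3)).res ((hU2.mul hs).mul hGm) (by omega)]
    ring
  have r5 : resR (H ^ 3) (U ^ 2 * G) =
      b' ^ 6 * (resR (s * d ^ 3) (U ^ 2) - resR (β * s * d ^ 3) (U ^ 2 * G)) +
        3 * b' ^ 4 * (resR (d ^ 2 * l) (U ^ 2) - b ^ 2 * (k + 1) ^ 2 * l₀) +
        3 * b' ^ 2 * ((k + 1) * l₀ ^ 2) := by
    have e : H ^ 3 = C (b' ^ 6) * (s * d ^ 3 * G - β * s * d ^ 3) +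
        C (3 * b' ^ 4) * (d ^ 2 * l * G - β * d ^ 2 * l) + C (3 * b' ^ 2) * (s * d * l ^ 2) +
        l ^ 3 := by
      rw [← hHe, ← hGe]; simp only [map_mul, map_pow, c3]; ring
    rw [e, res_add, res_add, res_add, res_C, res_C, res_C, res_sub, res_sub, res_mul _ hU2 hGm,
      res_mul _ hU2 hGm, ((tβ.mul (td.pow 2)).mul tl).res (hU2.mul hGm) (by omega),
      ((ts.mul td).mul (tl.pow 2)).res (hU2.mul hGm) (by omega),
      ((tl.pow 3).lift (e := 4 * μ + 2 * k + 1) (by omega)).res (hU2.mul hGm) (by omega)]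
    ring
  have r7 : 4 * b' ^ 4 * resR (β * d ^ 3) (U ^ 2 * s) =
      4 * resR (C (b' ^ 2) * X * d ^ 3) (m ^ 2 * s) := by
    rw [← res_mul _ (hU2.mul hs) (hm.pow 2), ← res_mul _ ((hm.pow 2).mul hs) hU2,
      show m ^ 2 * s * U ^ 2 = U ^ 2 * s * m ^ 2 by ring, ← res_C, ← res_C]
    congr 1
    simp only [map_mul, map_pow, c4]
    linear_combination (C b' ^ 4 * d ^ 3) * h4 + (4 * C b' ^ 2 * X * d ^ 3 * U ^ 2) * hB2
  rw [res_C 4, res_C 4]
  rw [r0] at r1 r2
  rw [r6] at r5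
  rw [r4, r5] at r2
  generalize resR (y * (U * C (b ^ 2) * (1 + 2 * y))) G = P₁ at r1 r2 ⊢
  have q1 : 2 * P₁ = 2 * (k + 1) + 4 * (b ^ 2 * resR (H * y) G) := by
    linear_combination r1 + 2 * (k + 1) * hb2
  have q2 : 2 * P₁ ^ 2 = 2 * (k + 1) ^ 2 := by
    linear_combination (P₁ + (k + 1) + 2 * (b ^ 2 * resR (H * y) G)) * q1 +
      ((k + 1) * (b ^ 2 * resR (H * y) G) + (b ^ 2 * resR (H * y) G) ^ 2) * h8
  linear_combination r2 + q2 + r7 + (2 * (k + 1) + 2 * b' ^ 2 * resR (d ^ 2) U +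
    4 * (k + 1) * l₀ - 4 * b' ^ 4 * resR (s * d ^ 3) (U ^ 2) +
    4 * b' ^ 4 * resR (β * d ^ 3) (U ^ 2 * s) - 12 * b' ^ 2 * resR (d ^ 2 * l) (U ^ 2) -
    12 * (k + 1) * l₀ ^ 2 + (b ^ 2 * b' ^ 2 + 1) * (-2 * (k + 1) ^ 2 + 12 * (k + 1) ^ 2 * l₀) -
    4 * ((b ^ 2 * b' ^ 2) ^ 2 + b ^ 2 * b' ^ 2 + 1) * (k + 1) ^ 3) * hb2

end QSwanA

open QSwanA in
theorem prod_cmp {R : Type*} [CommRing R] [Nontrivial R] (h8 : (8 : R) = 0) {b b' : R}
    (hb : b * b' = 1) {m U μ₁ g s₁ s₂ y₁ y₂ : R[X]} {k n : ℕ} (hm : m.Monic) (hs₁ : s₁.Monic)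
    (hs₂ : s₂.Monic) (hk₁ : s₁.natDegree = k) (hk₂ : s₂.natDegree = k) (hmk : m.natDegree < k)
    (hU : U = m ^ 2 + 2 * μ₁) (hμ : μ₁.degree < (2 * m.natDegree : ℕ)) (hg : s₁ = s₂ + U ^ 2 * g)
    (α₁ α₂ : Fin n → R) (hα₁ : s₁ ^ 2 + C (b ^ 2) * X * m ^ 2 = ∏ i, (X - C (α₁ i)))
    (hα₂ : s₂ ^ 2 + C (b ^ 2) * X * m ^ 2 = ∏ i, (X - C (α₂ i)))
    (hy₁ : derivative (s₁ ^ 2 + C (b ^ 2) * X * m ^ 2) = U * C (b ^ 2) * (1 + 2 * y₁))
    (hy₂ : derivative (s₂ ^ 2 + C (b ^ 2) * X * m ^ 2) = U * C (b ^ 2) * (1 + 2 * y₂)) :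
    ∏ i, (1 + 2 * y₁.eval (α₁ i)) - ∏ i, (1 + 2 * y₂.eval (α₂ i)) =
      4 * (resR (C (b' ^ 2) * X * derivative s₁ ^ 3) (m ^ 2 * s₁) -
        resR (C (b' ^ 2) * X * derivative s₂ ^ 3) (m ^ 2 * s₂)) := by
  obtain ⟨k, rfl⟩ : ∃ j, k = j + 1 := ⟨k - 1, by omega⟩
  have h8' : (8 : R[X]) = 0 := by rw [← map_ofNat C 8, h8, map_zero]
  have c2 : C (2 : R) = 2 := map_ofNat C 2
  have c4 : C (4 : R) = 4 := map_ofNat C 4
  have hd2 : (2 * μ₁).degree < (m ^ 2).degree := by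
    rw [← c2, C_mul', degree_eq_natDegree (hm.pow 2).ne_zero, hm.natDegree_pow]
    exact (degree_smul_le _ _).trans_lt hμ
  have hUm : U.Monic := hU ▸ (hm.pow 2).add_of_left hd2
  rw [one h8 hb hm hs₁ hk₁ (by omega) hU hμ rfl α₁ hα₁ hy₁,
    one h8 hb hm hs₂ hk₂ (by omega) hU hμ rfl α₂ hα₂ hy₂]
  have hd : derivative s₁ = derivative s₂ + 2 * (U * derivative U * g) + U ^ 2 * derivative g := by
    rw [hg, derivative_add, derivative_mul, derivative_sq, c2]; ring
  generalize X * m * derivative m - μ₁ = l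
  have e1 : resR (derivative s₁ ^ 2) U = resR (derivative s₂ ^ 2) U :=
    res_congr hUm ⟨(2 * derivative U * g + U * derivative g) * (derivative s₁ + derivative s₂), by
      linear_combination (derivative s₁ + derivative s₂) * hd⟩
  generalize U * derivative U * g = w at hd
  have e2 : resR (C 4 * (s₁ * derivative s₁ ^ 3)) (U ^ 2) =
      resR (C 4 * (s₂ * derivative s₂ ^ 3)) (U ^ 2) := by
    refine res_congr (hUm.pow 2) ⟨4 * (g * derivative s₁ ^ 3 + s₂ * derivative g *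
      (derivative s₁ ^ 2 + derivative s₁ * (derivative s₂ + 2 * w) +
        (derivative s₂ + 2 * w) ^ 2)), ?_⟩
    rw [c4]
    linear_combination (4 * derivative s₁ ^ 3) * hg + (4 * s₂ * (derivative s₁ ^ 2 +
      derivative s₁ * (derivative s₂ + 2 * w) + (derivative s₂ + 2 * w) ^ 2)) * hd +
      (s₂ * w * (3 * derivative s₂ ^ 2 + 6 * derivative s₂ * w + 4 * w ^ 2)) * h8'
  have e3 : resR (C 4 * (derivative s₁ ^ 2 * l)) (U ^ 2) =
      resR (C 4 * (derivative s₂ ^ 2 * l)) (U ^ 2) := by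
    refine res_congr (hUm.pow 2)
      ⟨4 * l * derivative g * (derivative s₁ + (derivative s₂ + 2 * w)), ?_⟩
    rw [c4]
    linear_combination (4 * l * (derivative s₁ + (derivative s₂ + 2 * w))) * hd +
      (2 * l * (derivative s₂ * w + w ^ 2)) * h8'
  rw [e1, e2, e3]
  ring

end Pool.Agent.MP_f37147_nt
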