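import Mathlib
import Pool.Agent.MP_f37147_nt.QSwanA

/- The Liouville function of `s ^ 2 + X * w ^ 2` when `s` has the larger degree. -/

set_option autoImplicit false

namespace Pool.Agent.MP_f37147_nt

open Polynomial Finset Pool.Agent.MP_4fffd4_nt Pool.Agent.MP_c853c5_nt
open scoped BigOperators

namespace QSwanB

theorem map_resR {R S : Type*} [CommRing R] [CommRing S] [Nontrivial S] (f : R →+* S) (a : R[X])
    {b : R[X]} (hb : b.Monic) : f (resR a b) = resR (a.map f) (b.map f) := by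
  unfold resR
  rw [← map_modByMonic f hb, coeff_map, hb.natDegree_map]

theorem even_monic {R : Type*} [CommRing R] [Nontrivial R] (c : R) {s m : R[X]} (hs : s.Monic)
    (hm : m.Monic) (h : m.natDegree < s.natDegree) :
    (s ^ 2 + C c * X * m ^ 2).Monic ∧ (s ^ 2 + C c * X * m ^ 2).natDegree = 2 * s.natDegree := by
  have h1 : (C c * X * m ^ 2).natDegree < (s ^ 2).natDegree := by
    rw [mul_assoc]
    refine (natDegree_C_mul_le _ _).trans_lt ?_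
    rw [monic_X.natDegree_mul (hm.pow 2), natDegree_X, hm.natDegree_pow, hs.natDegree_pow]
    omega
  exact ⟨(hs.pow 2).add_of_left (degree_lt_degree h1),
    by rw [natDegree_add_eq_left_of_natDegree_lt h1, hs.natDegree_pow]⟩

theorem ring_cmp {R K : Type*} [CommRing R] [Field K] (ν : R →+* K)
    (hν : ∀ x, ν x = 0 → ((2 : ℕ) : R) ∣ x) (h8 : (8 : R) = 0) {b b' : R} (hb : b * b' = 1)
    {m U Z g s₁ s₂ : R[X]} {k n : ℕ} (hm : m.Monic) (hs₁ : s₁.Monic) (hs₂ : s₂.Monic)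
    (hk₁ : s₁.natDegree = k) (hk₂ : s₂.natDegree = k) (hmk : m.natDegree < k) (hU : U.Monic)
    (hUm : U.map ν = (m ^ 2).map ν) (hZ : Z.map ν = (C (b ^ 2)).map ν) (hg : s₁ = s₂ + U ^ 2 * g)
    (α₁ α₂ : Fin n → R) (hα₁ : s₁ ^ 2 + C (b ^ 2) * X * m ^ 2 = ∏ i, (X - C (α₁ i)))
    (hα₂ : s₂ ^ 2 + C (b ^ 2) * X * m ^ 2 = ∏ i, (X - C (α₂ i)))
    (hd : derivative (s₂ ^ 2 + C (b ^ 2) * X * m ^ 2) = U * Z) :
    (∏ i, (derivative (s₁ ^ 2 + C (b ^ 2) * X * m ^ 2)).eval (α₁ i)) *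
        (1 + 4 * resR (C (b' ^ 2) * X * derivative s₂ ^ 3) (m ^ 2 * s₂)) =
      (∏ i, (derivative (s₂ ^ 2 + C (b ^ 2) * X * m ^ 2)).eval (α₂ i)) *
        (1 + 4 * resR (C (b' ^ 2) * X * derivative s₁ ^ 3) (m ^ 2 * s₁)) := by
  have : Nontrivial R := ν.domain_nontrivial
  obtain ⟨μ₀, hμ₀⟩ := dvd_of_map_eq_zero ν hν (G := U - m ^ 2)
    (by rw [Polynomial.map_sub, hUm, sub_self])
  obtain ⟨y₀, hy₀⟩ := dvd_of_map_eq_zero ν hν (G := Z - C (b ^ 2))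
    (by rw [Polynomial.map_sub, hZ, sub_self])
  push_cast at hμ₀ hy₀
  have hUd : U.natDegree = 2 * m.natDegree := by
    rw [← hU.natDegree_map ν, hUm, (hm.pow 2).natDegree_map, hm.natDegree_pow]
  have hX : (X ^ (2 * m.natDegree) : R[X]).Monic := monic_X_pow _
  have hlt : (U - m ^ 2).degree < (X ^ (2 * m.natDegree) : R[X]).degree := by
    rw [degree_X_pow, ← hUd, ← degree_eq_natDegree hU.ne_zero]
    refine degree_sub_lt_left ?_ hU.ne_zero (by rw [hU.leadingCoeff, (hm.pow 2).leadingCoeff])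
    rw [degree_eq_natDegree hU.ne_zero, degree_eq_natDegree (hm.pow 2).ne_zero, hUd,
      hm.natDegree_pow]
  have hU' : U = m ^ 2 + 2 * (μ₀ %ₘ X ^ (2 * m.natDegree)) := by
    have h1 := (modByMonic_eq_self_iff hX).2 hlt
    rw [two_mul, ← add_modByMonic, ← two_mul, ← hμ₀, h1]
    ring
  have hbb : (C (b ^ 2) : R[X]) * C (b' ^ 2) = 1 := by
    rw [← map_mul, ← mul_pow, hb, one_pow, map_one]
  have hy₂ : derivative (s₂ ^ 2 + C (b ^ 2) * X * m ^ 2) =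
      U * C (b ^ 2) * (1 + 2 * (C (b' ^ 2) * y₀)) := by
    rw [hd]
    linear_combination U * hy₀ - 2 * U * y₀ * hbb
  obtain ⟨T, hT⟩ : ∃ T, derivative (s₁ ^ 2 + C (b ^ 2) * X * m ^ 2) =
      derivative (s₂ ^ 2 + C (b ^ 2) * X * m ^ 2) + 2 * U * T := by
    refine ⟨U * g * derivative s₂ + (s₂ + U ^ 2 * g) * (2 * derivative U * g + U * derivative g), ?_⟩
    rw [hg]
    simp only [derivative_add, derivative_mul, derivative_sq, map_ofNat]
    ring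
  have hy₁ : derivative (s₁ ^ 2 + C (b ^ 2) * X * m ^ 2) =
      U * C (b ^ 2) * (1 + 2 * (C (b' ^ 2) * (y₀ + T))) := by
    rw [hT, hy₂]
    linear_combination (-2 * U * T) * hbb
  have key := prod_cmp h8 hb hm hs₁ hs₂ hk₁ hk₂ hmk hU'
    (by rw [← degree_X_pow (R := R)]; exact degree_modByMonic_lt _ hX) hg α₁ α₂ hα₁ hα₂ hy₁ hy₂
  have hUU := prod_eval_eq_of_dvd α₁ α₂ U hU (by
    rw [← hα₁, ← hα₂, hg]
    exact ⟨U * g * (2 * s₂ + U ^ 2 * g), by ring⟩)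
  have odd : ∀ (y : R[X]) (α : Fin n → R), ∃ w, ∏ i, (1 + 2 * y.eval (α i)) = 1 + 2 * w := by
    intro y α
    obtain ⟨w, hw⟩ := dvd_prod_sub_prod (2 : R) univ (fun i => 1 + 2 * y.eval (α i)) (fun _ => 1)
      fun i => ⟨y.eval (α i), by ring⟩
    exact ⟨w, by rw [← hw, Finset.prod_const_one]; ring⟩
  rw [hy₁, hy₂]
  generalize C (b' ^ 2) * (y₀ + T) = y₁ at key ⊢
  generalize C (b' ^ 2) * y₀ = y₂ at key ⊢
  simp only [eval_mul, eval_add, eval_one, eval_ofNat, eval_C, Finset.prod_mul_distrib, hUU]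
  obtain ⟨w₁, h₁⟩ := odd y₁ α₁
  obtain ⟨w₂, h₂⟩ := odd y₂ α₂
  rw [h₁, h₂] at key ⊢
  generalize resR (C (b' ^ 2) * X * derivative s₁ ^ 3) (m ^ 2 * s₁) = Φ₁ at key ⊢
  generalize resR (C (b' ^ 2) * X * derivative s₂ ^ 3) (m ^ 2 * s₂) = Φ₂ at key ⊢
  generalize (∏ i, U.eval (α₂ i)) * ∏ _i : Fin n, b ^ 2 = W
  linear_combination W * key + W * (w₁ * Φ₂ - w₂ * Φ₁) * h8

variable {F K A O : Type*} [Field F] [Fintype F] [CharP F 2] [Field K]
  [Algebra F K] [CharP K 2] [IsAlgClosed K] [CommRing A] [CommRing O] [IsDomain O]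
  (L : LiftData 2 F K A O)

omit [CharP F 2] in
theorem finish {e : K → ℝ} (he : IsChar F e) {δ₁ δ₂ y₁ y₂ : O} {ε₁ ε₂ : ℤ}
    (e₁ : ε₁ = 1 ∨ ε₁ = -1) (e₂ : ε₂ = 1 ∨ ε₂ = -1) (u₁ : L.π δ₁ ≠ 0)
    (f₁ : L.φ δ₁ = (ε₁ : O) * δ₁) (f₂ : L.φ δ₂ = (ε₂ : O) * δ₂)
    (h : ((2 : ℕ) : O) ^ 3 ∣ δ₁ ^ 2 * (1 + 4 * y₂) - δ₂ ^ 2 * (1 + 4 * y₁)) {c : F}
    (hc : L.π y₁ + L.π y₂ = algebraMap F K c) : (ε₁ : ℝ) * ε₂ = e (algebraMap F K c) := by
  have h2K : (2 : K) = 0 := by exact_mod_cast CharP.cast_eq_zero K 2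
  obtain ⟨z, hz⟩ : ∃ z : K, z ^ 2 + z = algebraMap F K c := by
    obtain ⟨z, hz⟩ := IsAlgClosed.exists_root (X ^ 2 + X - C (algebraMap F K c)) (by
      have : (X ^ 2 + X - C (algebraMap F K c)).degree = 2 := by compute_degree!
      rw [this]; decide)
    exact ⟨z, by simpa [sub_eq_zero] using hz⟩
  have hzq : ∃ η : ℤ, (η = 1 ∨ η = -1) ∧ e (z ^ 2 + z) = η ∧
      ∀ Z' : O, L.π Z' = z → (4 : O) ∣ (1 + 2 * L.φ Z') - η * (1 + 2 * Z') := by
    have h1 : (z ^ Fintype.card F) ^ 2 + z ^ Fintype.card F = z ^ 2 + z := by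
      have := congrArg (FiniteField.frobeniusAlgHom F K) hz
      rw [map_add, map_pow, AlgHom.commutes, ← hz] at this
      exact this
    have h3 : (z ^ Fintype.card F - z) * (z ^ Fintype.card F - (z + 1)) = 0 := by
      linear_combination h1 + (z ^ 2 + z - z * z ^ Fintype.card F - z ^ Fintype.card F) * h2K
    rcases mul_eq_zero.1 h3 with h | h
    · refine ⟨1, Or.inl rfl, by rw [he.pos z (sub_eq_zero.1 h)]; simp, fun Z' hZ' => ?_⟩
      obtain ⟨r, hr⟩ := (L.ker_π (L.φ Z' - Z')).1 (by rw [map_sub, L.πφ, hZ', h])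
      refine ⟨r, ?_⟩
      push_cast at hr ⊢
      linear_combination 2 * hr
    · refine ⟨-1, Or.inr rfl, by rw [he.neg z (sub_eq_zero.1 h)]; simp, fun Z' hZ' => ?_⟩
      obtain ⟨r, hr⟩ := (L.ker_π (1 + L.φ Z' + Z')).1 (by
        rw [map_add, map_add, map_one, L.πφ, hZ']
        linear_combination h + (1 + z) * h2K)
      refine ⟨r, ?_⟩
      push_cast at hr ⊢
      linear_combination 2 * hr
  obtain ⟨η, hη, hηe, hη'⟩ := hzq
  obtain ⟨Z', hZ'⟩ := L.π_surj z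
  obtain ⟨r', hr'⟩ := hη' Z' hZ'
  obtain ⟨r, hr⟩ : ((2 : ℕ) : O) ∣ Z' ^ 2 + Z' - (y₁ + y₂) := by
    rw [← L.ker_π]
    simp only [map_sub, map_add, map_pow, hZ', hz, hc, sub_self]
  obtain ⟨t, ht⟩ := h
  have := L.sign_detect (κ := 3) (by norm_num) (fun _ => rfl) δ₁ (δ₂ * (1 + 2 * Z')) u₁
    (by
      refine ⟨(1 + 4 * y₂) * t - δ₁ ^ 2 * (y₂ + 2 * y₂ ^ 2) + δ₂ ^ 2 * (2 * y₁ * y₂ - r), ?_⟩
      push_cast at ht hr ⊢
      linear_combination (1 + 4 * y₂) * ht - 4 * δ₂ ^ 2 * hr)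
    e₁ (ε₂ := η * ε₂)
    (by rcases e₂ with h | h <;> rcases hη with h' | h' <;> rw [h, h'] <;> simp)
    (by rw [f₁, sub_self]; exact dvd_zero _)
    (by
      refine ⟨L.φ δ₂ * r', ?_⟩
      rw [map_mul, map_add, map_one, map_mul, map_ofNat, Int.cast_mul]
      push_cast
      linear_combination L.φ δ₂ * hr' + (η * (1 + 2 * Z')) * f₂)
  rw [← hz, hηe, this]
  rcases e₂ with h | h <;> simp [h]

include L in
theorem cmp_inf {e : K → ℝ} (he : IsChar F e) {b : F} (hb : b ≠ 0) {m s₁ s₂ : F[X]} {k : ℕ}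
    (hm : m.Monic) (hs₁ : s₁.Monic) (hs₂ : s₂.Monic) (hk₁ : s₁.natDegree = k)
    (hk₂ : s₂.natDegree = k) (hmk : m.natDegree < k) (hc : IsCoprime s₁ m)
    (hd : m ^ 4 ∣ s₁ - s₂) :
    (liou (s₁ ^ 2 + X * (C b * m) ^ 2) : ℝ) * liou (s₂ ^ 2 + X * (C b * m) ^ 2) =
      e (algebraMap F K (phi b m s₁ + phi b m s₂)) := by
  have : Nontrivial A := L.ρ.domain_nontrivial
  obtain ⟨g, hg⟩ := hd
  have hc₂ : IsCoprime s₂ m := by
    rw [show s₂ = s₁ + m * (-(m ^ 3 * g)) by linear_combination -hg]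
    exact hc.add_mul_left_left _
  obtain ⟨B, hB⟩ := L.ρ_surj b
  obtain ⟨B', hB'⟩ := (L.unit_A B (hB ▸ hb)).exists_right_inv
  have hB'' : L.ρ B' = b⁻¹ := by
    have := congrArg L.ρ hB'
    rw [map_mul, map_one, hB] at this
    exact eq_inv_of_mul_eq_one_right this
  obtain ⟨M, hM, hMm, hMd⟩ := L.lift_monic hm
  obtain ⟨S₂, hS₂, hS₂s, hS₂d⟩ := L.lift_monic hs₂
  have red : ∀ {S : A[X]} {s : F[X]}, S.map L.ρ = s →
      (S ^ 2 + C (B ^ 2) * X * M ^ 2).map L.ρ = s ^ 2 + X * (C b * m) ^ 2 := fun h => by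
    simp only [Polynomial.map_add, Polynomial.map_mul, Polynomial.map_pow, map_X, map_C, map_pow,
      h, hMm, hB]
    ring
  have sep : ∀ {s : F[X]}, IsCoprime s m → (s ^ 2 + X * (C b * m) ^ 2).Separable := fun h => by
    rw [Polynomial.separable_def, derivative_odd]
    exact (((isCoprime_mul_unit_left_right (isUnit_C.2 hb.isUnit) _ _).2 h).pow
      (m := 2) (n := 2)).add_mul_right_left X
  obtain ⟨U, Z, hU, hUu, hZb, hZ⟩ := hensel_factor L.ρ L.ρ_surj (fun x => (L.ker_ρ x).1)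
    (CharP.cast_eq_zero F 2) (W := derivative (S₂ ^ 2 + C (B ^ 2) * X * M ^ 2)) (b := C (b ^ 2))
    (hm.pow 2) ⟨0, C (b⁻¹ ^ 2), by rw [zero_mul, zero_add, ← map_mul, ← mul_pow,
      inv_mul_cancel₀ hb, one_pow, map_one]⟩
    (by rw [← derivative_map, red hS₂s, derivative_odd, map_pow]; ring) 2
  obtain ⟨H, hH, hHd⟩ := exists_degree_eq_of_mem_lifts
    (Polynomial.map_surjective L.ρ L.ρ_surj g)
  have hlt : (U ^ 2 * H).degree < S₂.degree := by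
    rw [mul_comm, (hU.pow 2).degree_mul, hHd, ← (hU.pow 2).degree_map L.ρ, Polynomial.map_pow, hUu,
      ← ((hm.pow 2).pow 2).degree_mul, ← pow_mul, mul_comm g, ← hg, ← hS₂.degree_map L.ρ, hS₂s,
      ← neg_sub, degree_neg]
    refine degree_sub_lt_left ?_ hs₂.ne_zero (by rw [hs₁.leadingCoeff, hs₂.leadingCoeff])
    rw [degree_eq_natDegree hs₁.ne_zero, degree_eq_natDegree hs₂.ne_zero, hk₁, hk₂]
  obtain ⟨S₁, hS₁e⟩ : ∃ S₁, S₁ = S₂ + U ^ 2 * H := ⟨_, rfl⟩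
  have hS₁ : S₁.Monic := hS₁e ▸ hS₂.add_of_left hlt
  have hS₁s : S₁.map L.ρ = s₁ := by
    rw [hS₁e, Polynomial.map_add, Polynomial.map_mul, Polynomial.map_pow, hS₂s, hH, hUu]
    linear_combination -hg
  have hS₁d : S₁.natDegree = k := by rw [← hS₁.natDegree_map L.ρ, hS₁s, hk₁]
  rw [hk₂] at hS₂d
  obtain ⟨m₁, n₁⟩ := even_monic (B ^ 2) hS₁ hM (by omega)
  obtain ⟨m₂, n₂⟩ := even_monic (B ^ 2) hS₂ hM (by omega)
  obtain ⟨α₁, δ₁, g₁, u₁, f₁, d₁⟩ := L.stick m₁ (red hS₁s ▸ sep hc) (n := 2 * k) (by rw [n₁, hS₁d])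
  obtain ⟨α₂, δ₂, g₂, -, f₂, d₂⟩ := L.stick m₂ (red hS₂s ▸ sep hc₂) (n := 2 * k)
    (by rw [n₂, hS₂d])
  rw [red hS₁s, pow_mul, neg_one_sq, one_pow, one_mul] at f₁
  rw [red hS₂s, pow_mul, neg_one_sq, one_pow, one_mul] at f₂
  obtain ⟨ν, hνμ, hν, hμ⟩ := L.quot_data (κ := 3) (by norm_num)
  have ker : ∀ x : O, Ideal.Quotient.mk (Ideal.span {((2 : ℕ) : O) ^ 3}) x = 0 →
      ((2 : ℕ) : O) ^ 3 ∣ x := fun x hx =>
    Ideal.mem_span_singleton.1 (Ideal.Quotient.eq_zero_iff_mem.1 hx)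
  generalize Ideal.Quotient.mk (Ideal.span {((2 : ℕ) : O) ^ 3}) = μ at hνμ ker
  have h8 : (8 : O ⧸ Ideal.span {((2 : ℕ) : O) ^ 3}) = 0 := by exact_mod_cast hμ
  have := ν.domain_nontrivial
  have phi_eq : ∀ {S : A[X]} {s : F[X]}, S.Monic → S.map L.ρ = s →
      L.π (L.ι (resR (C (B' ^ 2) * X * derivative S ^ 3) (M ^ 2 * S))) =
        algebraMap F K (phi b m s) := fun hS h => by
    rw [L.πι, map_resR _ _ ((hM.pow 2).mul hS)]
    simp only [Polynomial.map_mul, Polynomial.map_pow, map_X, map_C, map_pow, ← derivative_map,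
      h, hMm, hB'', phi, resR_eq]
  refine finish L he (liou_cases _) (liou_cases _) u₁ f₁ f₂ (ker _ ?_)
    ((congrArg₂ (· + ·) (phi_eq hS₁ hS₁s) (phi_eq hS₂ hS₂s)).trans (map_add _ _ _).symm)
  have mp : ∀ S : A[X], (S ^ 2 + C (B ^ 2) * X * M ^ 2).map (μ.comp L.ι) =
      S.map (μ.comp L.ι) ^ 2 + C ((μ.comp L.ι) B ^ 2) * X * M.map (μ.comp L.ι) ^ 2 := fun S => by
    simp only [Polynomial.map_add, Polynomial.map_mul, Polynomial.map_pow, map_X, map_C, map_pow]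
  have rt : ∀ {G : A[X]} {α : Fin (2 * k) → O} {δ : O}, G.map L.ι = ∏ i, (X - C (α i)) →
      ∏ i, (derivative (G.map L.ι)).eval (α i) = (sgn (2 * k) : O) * δ ^ 2 →
      G.map (μ.comp L.ι) = ∏ i, (X - C (μ (α i))) ∧
        ∏ i, (derivative (G.map (μ.comp L.ι))).eval (μ (α i)) = sgn (2 * k) * μ δ ^ 2 := by
    intro G α δ h1 h2
    refine ⟨by rw [← Polynomial.map_map, h1, Polynomial.map_prod]; simp, ?_⟩
    have h3 := congrArg μ h2
    rw [map_prod, map_mul, map_pow, map_intCast] at h3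
    rw [← h3]
    refine Finset.prod_congr rfl fun i _ => ?_
    rw [← Polynomial.map_map, derivative_map (G.map L.ι) μ, eval_map μ, eval₂_hom]
  obtain ⟨a₁, b₁⟩ := rt g₁ d₁
  obtain ⟨a₂, b₂⟩ := rt g₂ d₂
  rw [mp] at a₁ a₂ b₁ b₂
  have key := ring_cmp ν hν h8 (b := (μ.comp L.ι) B) (b' := (μ.comp L.ι) B')
    (by rw [← map_mul, hB', map_one]) (Z := Z.map (μ.comp L.ι)) (g := H.map (μ.comp L.ι))
    (hM.map _) (hS₁.map _) (hS₂.map _) ((hS₁.natDegree_map _).trans hS₁d)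
    ((hS₂.natDegree_map _).trans hS₂d)
    (by rw [hM.natDegree_map]; omega) (hU.map (μ.comp L.ι))
    (by rw [← Polynomial.map_pow, L.map_map μ ν hνμ, L.map_map μ ν hνμ, hUu, Polynomial.map_pow L.ρ,
      hMm])
    (by rw [← map_pow, ← map_C, L.map_map μ ν hνμ, L.map_map μ ν hνμ, hZb, map_C L.ρ, map_pow L.ρ,
      hB])
    (by rw [hS₁e, Polynomial.map_add, Polynomial.map_mul, Polynomial.map_pow]) _ _ a₁ a₂
    (by
      have := Polynomial.map_dvd (μ.comp L.ι) hZ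
      rw [Polynomial.map_pow, Polynomial.map_natCast, ← map_natCast C, ← map_pow,
        show ((2 : ℕ) : O ⧸ Ideal.span {((2 : ℕ) : O) ^ 3}) ^ (2 + 1) = 0 by rw [← h8]; norm_num,
        map_zero, zero_dvd_iff, Polynomial.map_sub, Polynomial.map_mul, sub_eq_zero,
        ← derivative_map, mp] at this
      exact this)
  have rs : ∀ {S : A[X]}, S.Monic → resR (C ((μ.comp L.ι) B' ^ 2) * X *
      derivative (S.map (μ.comp L.ι)) ^ 3) (M.map (μ.comp L.ι) ^ 2 * S.map (μ.comp L.ι)) =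
      μ (L.ι (resR (C (B' ^ 2) * X * derivative S ^ 3) (M ^ 2 * S))) := fun hS => by
    rw [← RingHom.comp_apply μ, map_resR _ _ ((hM.pow 2).mul hS)]
    simp only [Polynomial.map_mul, Polynomial.map_pow, map_X, map_C, map_pow, ← derivative_map]
  rw [b₁, b₂, rs hS₁, rs hS₂] at key
  have hs : (sgn (2 * k) : O ⧸ Ideal.span {((2 : ℕ) : O) ^ 3}) * sgn (2 * k) = 1 := by
    rw [← Int.cast_mul, sgn_sq, Int.cast_one]
  simp only [map_sub, map_mul, map_add, map_pow μ, map_one, map_ofNat]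
  generalize μ (L.ι (resR (C (B' ^ 2) * X * derivative S₁ ^ 3) (M ^ 2 * S₁))) = T₁ at key ⊢
  generalize μ (L.ι (resR (C (B' ^ 2) * X * derivative S₂ ^ 3) (M ^ 2 * S₂))) = T₂ at key ⊢
  linear_combination sgn (2 * k) * key -
    (μ δ₁ ^ 2 * (1 + 4 * T₂) - μ δ₂ ^ 2 * (1 + 4 * T₁)) * hs

end QSwanB

variable {F : Type*} [Field F] [Fintype F] [CharP F 2]

theorem swan_inf {e : F → ℝ} (he : Chr e) {b : F} (hb : b ≠ 0) {m s₁ s₂ : F[X]} {k : ℕ}
    (hm : m.Monic) (hs₁ : s₁.Monic) (hs₂ : s₂.Monic) (hk₁ : s₁.natDegree = k)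
    (hk₂ : s₂.natDegree = k) (hmk : m.natDegree < k) (hc : IsCoprime s₁ m)
    (hd : m ^ 4 ∣ s₁ - s₂) :
    (liou (s₁ ^ 2 + X * (C b * m) ^ 2) : ℝ) * liou (s₂ ^ 2 + X * (C b * m) ^ 2) =
      e (phi b m s₁) * e (phi b m s₂) := by
  have : CharP (AlgebraicClosure F) 2 :=
    charP_of_injective_algebraMap (algebraMap F (AlgebraicClosure F)).injective 2
  obtain ⟨L⟩ := nonempty_liftData 2 F (AlgebraicClosure F)
  obtain ⟨ε, hε⟩ := exists_isChar F (AlgebraicClosure F)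
  rw [QSwanB.cmp_inf L hε hb hm hs₁ hs₂ hk₁ hk₂ hmk hc hd, ← chr_of_isChar hε he, he.add]

end Pool.Agent.MP_f37147_nt
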