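import Mathlib
import Pool.Agent.MP_f37147_nt.QSwanB
import Pool.Agent.MP_f37147_nt.QRat
import Pool.Agent.MP_c853c5_nt.SDiv
import Pool.Agent.MP_c853c5_nt.SPsi

/- Divisors of large degree. -/

set_option autoImplicit false

namespace Pool.Agent.MP_f37147_nt

open Polynomial Finset Pool.Agent.MP_4fffd4_nt Pool.Agent.MP_c853c5_nt
open scoped BigOperators

universe u

namespace QFar

variable {F : Type*} [Field F] [Fintype F] [CharP F 2]

theorem sqf_of {b : F} (hb : b ≠ 0) {m A D₁ D₂ s : F[X]} (h : A * D₁ = s ^ 2 + X * (C b * m) ^ 2)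
    (hd : m ^ 2 ∣ D₁ - D₂) (h₂ : Squarefree D₂) : Squarefree D₁ := by
  intro x hx
  rw [← sq] at hx
  have h1 : x ∣ od (A * D₁) := dvd_od (hx.mul_left A)
  rw [od_eq (η := C b * m) (by rw [h, derivative_odd]),
    (isUnit_C.2 (IsUnit.mk0 b hb)).dvd_mul_left] at h1
  have h3 := dvd_sub hx ((pow_dvd_pow_of_dvd h1 2).trans hd)
  rw [sub_sub_cancel, sq] at h3
  exact h₂ x h3

omit [Fintype F] [CharP F 2] in
theorem monic_shift {s M : F[X]} {k H : ℕ} (hs : s.Monic) (hk : s.natDegree = k)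
    (hM : M.natDegree + H = k) (γ : degreeLT F H) :
    (s + M * γ.1).Monic ∧ (s + M * γ.1).natDegree = k := by
  have h1 : (M * γ.1).degree < s.degree := by
    rw [degree_eq_natDegree hs.ne_zero, hk]
    exact mem_degreeLT.1 (mul_mem_degreeLT hM.le γ)
  exact ⟨hs.add_of_left h1, by rw [natDegree_add_eq_left_of_degree_lt h1, hk]⟩

/-- The Liouville function along a line. -/
theorem liou_line {e : F → ℝ} (he : Chr e) {b : F} (hb : b ≠ 0) {m s T : F[X]} {k H : ℕ} {ε : ℝ}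
    (hm : m.Monic) (hs : s.Monic) (hT : T.Monic) (hk : s.natDegree = k)
    (hH : T.natDegree + 4 * m.natDegree + H = k) (hmk : m.natDegree < k)
    (hε : ∀ (m' s' M : F[X]) (k' : ℕ), m'.Monic → s'.Monic → M.Monic → s'.natDegree = k' →
      M.natDegree + H = k' → m'.natDegree ≤ m.natDegree → k' ≤ k → k ≤ k' + m.natDegree →
      |𝔼 γ : degreeLT F H, e (phi b m' (s' + M * γ.1))| ≤ ε) :
    |𝔼 γ : degreeLT F H, (liou ((s + T * m ^ 4 * γ.1) ^ 2 + X * (C b * m) ^ 2) : ℝ)| ≤ ε := by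
  classical
  obtain ⟨s', m', e1, e2, hu⟩ := extract_gcd s m
  have hdl : (gcd s m).Monic := by
    rw [← _root_.normalize_gcd]
    exact monic_normalize (gcd_ne_zero_of_left hs.ne_zero)
  generalize gcd s m = dl at e1 e2 hdl
  have hs' : s'.Monic := hdl.of_mul_monic_left (e1 ▸ hs)
  have hm' : m'.Monic := hdl.of_mul_monic_left (e2 ▸ hm)
  have d1 : k = dl.natDegree + s'.natDegree := by rw [← hk, e1, hdl.natDegree_mul hs']
  have d2 : m.natDegree = dl.natDegree + m'.natDegree := by rw [e2, hdl.natDegree_mul hm']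
  have hc : IsCoprime s' m' := (gcd_isUnit_iff _ _).1 hu
  have hM : (T * m ^ 3 * m').Monic := (hT.mul (hm.pow 3)).mul hm'
  have d3 : (T * m ^ 3 * m').natDegree + H = s'.natDegree := by
    rw [(hT.mul (hm.pow 3)).natDegree_mul hm', hT.natDegree_mul (hm.pow 3), hm.natDegree_pow]
    omega
  have h0 := hε m' s' _ _ hm' hs' hM rfl d3 (by omega) (by omega) (by omega)
  have key : ∀ γ : degreeLT F H, (liou ((s + T * m ^ 4 * γ.1) ^ 2 + X * (C b * m) ^ 2) : ℝ) =
      (liou (s' ^ 2 + X * (C b * m') ^ 2) * e (phi b m' s')) *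
        e (phi b m' (s' + T * m ^ 3 * m' * γ.1)) := by
    intro γ
    obtain ⟨g1, g2⟩ := monic_shift hs' rfl d3 γ
    have h1 := swan_inf he hb hm' g1 hs' g2 rfl (by omega)
      (by
        rw [show T * m ^ 3 * m' * γ.1 = m' * (T * m ^ 3 * γ.1) by ring]
        exact hc.add_mul_left_left _)
      ⟨T * dl ^ 3 * γ.1, by rw [e2]; ring⟩
    have h2 : (s' + T * m ^ 3 * m' * γ.1) ^ 2 + X * (C b * m') ^ 2 ≠ 0 := fun h => by
      have := congrArg derivative h
      rw [derivative_odd, derivative_zero] at this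
      exact pow_ne_zero 2 (mul_ne_zero (C_ne_zero.2 hb) hm'.ne_zero) this
    have h3 : (s + T * m ^ 4 * γ.1) ^ 2 + X * (C b * m) ^ 2 =
        dl ^ 2 * ((s' + T * m ^ 3 * m' * γ.1) ^ 2 + X * (C b * m') ^ 2) := by
      have h4 : s + T * m ^ 4 * γ.1 = dl * (s' + T * m ^ 3 * m' * γ.1) := by
        linear_combination e1 + T * m ^ 3 * γ.1 * e2
      rw [h4]
      linear_combination X * C b ^ 2 * (m + dl * m') * e2
    rw [h3, liou_sq_mul hdl.ne_zero h2]
    rcases liou_cases (s' ^ 2 + X * (C b * m') ^ 2) with h | h <;> rw [h] at h1 ⊢ <;>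
      push_cast at h1 ⊢ <;> linarith
  simp only [key]
  rw [← Finset.mul_expect, abs_mul, abs_mul, he.toSgn.abs_eq, mul_one]
  rcases liou_cases (s' ^ 2 + X * (C b * m') ^ 2) with h | h <;> simpa [h] using h0

/-- The average along a line, for a fixed complementary divisor. -/
theorem local_line {b : F} (hb : b ≠ 0) {a c κ m f E T : F[X]} {H : ℕ} {ε : ℝ} (hε0 : 0 ≤ ε)
    (ha : a ≠ 0) (hE : E.Monic) (hac : a * c = κ ^ 2 + X * (C b * m) ^ 2)
    (hε : |𝔼 γ : degreeLT F H,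
      (liou ((a * f + κ + a * (T * E) * m ^ 4 * γ.1) ^ 2 + X * (C b * m) ^ 2) : ℝ)| ≤ ε) :
    |𝔼 γ : degreeLT F H, ind (E ∣ a * (f + T * E * m ^ 4 * γ.1) ^ 2 + c) *
      mu ((a * (f + T * E * m ^ 4 * γ.1) ^ 2 + c) /ₘ E)| ≤ ind (E ∣ a * f ^ 2 + c) * ε := by
  have e1 : ∀ γ : F[X], a * (f + T * E * m ^ 4 * γ) ^ 2 + c =
      a * f ^ 2 + c + E * (m ^ 2 * (a * T ^ 2 * E * m ^ 6 * γ ^ 2)) := fun γ => by
    rw [CharTwo.add_sq]; ring
  by_cases hd : E ∣ a * f ^ 2 + c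
  swap
  · have : ∀ γ : F[X], ind (E ∣ a * (f + T * E * m ^ 4 * γ) ^ 2 + c) = 0 := fun γ =>
      ind_neg fun h => hd (by rwa [e1, dvd_add_left (dvd_mul_right _ _)] at h)
    simp [this, ind_neg hd]
  rw [ind_pos hd, one_mul]
  obtain ⟨D, hD⟩ := hd
  have e2 : ∀ γ : F[X], a * (f + T * E * m ^ 4 * γ) ^ 2 + c =
      E * (D + m ^ 2 * (a * T ^ 2 * E * m ^ 6 * γ ^ 2)) := fun γ => by rw [e1, hD, ← mul_add]
  have e3 : ∀ γ : F[X], a * E * (D + m ^ 2 * (a * T ^ 2 * E * m ^ 6 * γ ^ 2)) =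
      (a * f + κ + a * (T * E) * m ^ 4 * γ) ^ 2 + X * (C b * m) ^ 2 := fun γ => by
    rw [mul_assoc, ← e2, CharTwo.add_sq, CharTwo.add_sq, CharTwo.add_sq]
    linear_combination hac
  simp only [e2, mul_divByMonic_cancel_left _ hE, ind_pos (dvd_mul_right E _), one_mul]
  by_cases hs : Squarefree D
  swap
  · have : ∀ γ : F[X], mu (D + m ^ 2 * (a * T ^ 2 * E * m ^ 6 * γ ^ 2)) = 0 := fun γ => by
      refine if_neg fun h => hs (sqf_of hb (m := m) (A := a * E) (s := a * f + κ) ?_ ?_ h)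
      · simpa using e3 0
      · rw [sub_add_cancel_left, dvd_neg]
        exact dvd_mul_right _ _
    simpa [this] using hε0
  have key : ∀ γ : F[X], mu (D + m ^ 2 * (a * T ^ 2 * E * m ^ 6 * γ ^ 2)) = liou (a * E) *
      (liou ((a * f + κ + a * (T * E) * m ^ 4 * γ) ^ 2 + X * (C b * m) ^ 2) : ℝ) := fun γ => by
    have h1 := sqf_of hb (e3 γ) (by rw [add_sub_cancel_left]; exact dvd_mul_right _ _) hs
    rw [mu, if_pos h1, ← e3, liou_mul (mul_ne_zero ha hE.ne_zero) h1.ne_zero]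
    rcases liou_cases (a * E) with h | h <;> simp [h]
  simp only [key]
  rw [← Finset.mul_expect, abs_mul]
  rcases liou_cases (a * E) with h | h <;> simpa [h] using hε

theorem exists_data {g : F[X]} (hg : derivative g ≠ 0) : ∃ (b : F) (m κ : F[X]), b ≠ 0 ∧ m.Monic ∧
    g = κ ^ 2 + X * (C b * m) ^ 2 ∧ 2 * m.natDegree ≤ g.natDegree ∧
    2 * κ.natDegree ≤ g.natDegree + 1 := by
  obtain ⟨κ, hκ⟩ := exists_od g
  have h0 : od g ≠ 0 := fun h => hg (by rw [← od_sq, h, zero_pow two_ne_zero])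
  have hb := leadingCoeff_ne_zero.2 h0
  have h1 : C (od g).leadingCoeff * (od g * C (od g).leadingCoeff⁻¹) = od g := by
    rw [mul_left_comm, ← C_mul, mul_inv_cancel₀ hb, C_1, mul_one]
  have h2 : 2 * (od g).natDegree ≤ g.natDegree := by
    rw [← natDegree_pow, od_sq]
    exact (natDegree_derivative_le g).trans (Nat.sub_le _ _)
  refine ⟨_, _, κ, hb, monic_mul_leadingCoeff_inv h0, by rwa [h1], by
    rwa [natDegree_mul_leadingCoeff_inv _ h0], ?_⟩
  rw [← natDegree_pow, show κ ^ 2 = g - X * od g ^ 2 by linear_combination -hκ]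
  refine (natDegree_sub_le _ _).trans (max_le (Nat.le_succ _) (natDegree_mul_le.trans ?_))
  rw [natDegree_X, natDegree_pow]
  omega

omit [Fintype F] [CharP F 2] in
theorem monic_N {a c f : F[X]} {n : ℕ} (ha : a.Monic) (hf : f.Monic) (hn : f.natDegree = n)
    {j : ℕ} (hc : c.natDegree < j * n + a.natDegree) :
    (a * f ^ j + c).Monic ∧ (a * f ^ j + c).natDegree = j * n + a.natDegree := by
  have h1 : (a * f ^ j).natDegree = j * n + a.natDegree := by
    rw [ha.natDegree_mul (hf.pow j), hf.natDegree_pow, hn, add_comm]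
  have h2 : c.degree < (a * f ^ j).degree := degree_lt_degree (h1 ▸ hc)
  exact ⟨(ha.mul (hf.pow j)).add_of_left h2, by rw [natDegree_add_eq_left_of_degree_lt h2, h1]⟩

omit [CharP F 2] in
theorem sum_avg {n H : ℕ} {Q : F[X]} (hQ : Q.natDegree + H ≤ n) (G B : F[X] → ℝ)
    (h : ∀ f ∈ monF F n, |𝔼 γ : degreeLT F H, G (f + Q * γ.1)| ≤ B f) :
    |∑ f ∈ monF F n, G f| ≤ ∑ f ∈ monF F n, B f := by
  rw [sum_monF, sum_monF, ← Fintype.card_mul_expect, ← Fintype.card_mul_expect, abs_mul,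
    Nat.abs_cast, expect_avg _ fun γ : degreeLT F H => ⟨Q * γ.1, mul_mem_degreeLT hQ γ⟩]
  refine mul_le_mul_of_nonneg_left ((Finset.abs_expect_le _ _).trans
    (Finset.expect_le_expect fun y _ => ?_)) (Nat.cast_nonneg _)
  have := h _ (mem_monF.2 (monic_add_LT y))
  simpa only [Submodule.coe_add, add_assoc] using this

omit [CharP F 2] in
theorem sum_ind_le {g : F[X]} (hg : g ≠ 0) (j : ℕ) :
    ∑ E ∈ monF F j, ind (E ∣ g) ≤ (divs g).card := by
  classical
  have := SPsi.sum_ind_mul (monF F j) (· ∣ g) fun _ => (1 : ℝ)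
  simp only [mul_one, Finset.sum_const, nsmul_eq_mul] at this
  rw [this]
  exact_mod_cast Finset.card_le_card fun E hE =>
    (mem_divs hg).2 ⟨(mem_monF.1 (mem_filter.1 hE).1).1, (mem_filter.1 hE).2⟩

end QFar

open QFar

theorem far_bound (R : ℕ) (hR : 1 ≤ R) : ∃ C : ℕ, 0 < C ∧
    ∀ (F : Type u) [Field F] [Fintype F] [CharP F 2], ∃ n₀ : ℕ, ∀ n, n₀ ≤ n → ∀ a c : F[X],
      a.Monic → derivative (a * c) ≠ 0 → a.natDegree ≤ n / C → c.natDegree ≤ n / C →
      ∀ i, n + n / R < i → i ≤ 2 * n + a.natDegree →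
      |RR a c n i| ≤ (Fintype.card F : ℝ) ^ n / (Fintype.card F : ℝ) ^ (n / C) := by
  obtain ⟨C₁, hC₁, H₀, hinf⟩ := inf_bound.{u} (64 * R)
  refine ⟨16 * R * C₁ * 2, by positivity, fun F _ _ _ => ?_⟩
  obtain ⟨n₁, hdiv⟩ := divs_bound (F := F) (3 * (16 * R * C₁ * 2)) (by positivity)
  obtain ⟨e, he⟩ := exists_chr (F := F)
  refine ⟨16 * R * (H₀ + 1) + n₁, fun n hn a c ha hac hda hdc i hi1 hi2 => ?_⟩
  obtain ⟨b, m, κ, hb, hm, e0, dm, dκ⟩ := exists_data hac
  have dac : (a * c).natDegree ≤ a.natDegree + c.natDegree := natDegree_mul_le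
  have hq := card_pos' (F := F)
  set H := n / (16 * R) with hH
  set z := n / (16 * R * C₁ * 2) with hz
  have hR' : 0 < 16 * R := by omega
  have z1 : 2 * z ≤ H / C₁ := by
    rw [hz, hH, Nat.div_div_eq_div_mul, ← Nat.div_div_eq_div_mul n _ 2]
    exact Nat.mul_div_le _ _
  have z2 : H / C₁ ≤ H := Nat.div_le_self _ _
  have z3 : 16 * H ≤ n / R := by
    rw [hH, mul_comm 16 R, ← Nat.div_div_eq_div_mul]
    exact Nat.mul_div_le _ _
  have z4 : n / R ≤ n := Nat.div_le_self _ _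
  have z5 : H₀ + 1 ≤ H := (Nat.le_div_iff_mul_le hR').2 (by rw [mul_comm]; omega)
  have z6 : 2 * n ≤ 64 * R * H := by
    have h1 : n < 16 * R * (H + 1) := Nat.lt_mul_div_succ n hR'
    have h2 : 16 * R * (H + 1) ≤ 16 * R * (2 * H) := Nat.mul_le_mul_left _ (by omega)
    have h3 : 64 * R * H = 2 * (16 * R * (2 * H)) := by ring
    omega
  have hN : ∀ f ∈ monF F n, (a * f ^ 2 + c).Monic ∧
      (a * f ^ 2 + c).natDegree = 2 * n + a.natDegree := fun f hf =>
    monic_N ha (mem_monF.1 hf).1 (mem_monF.1 hf).2 (by omega)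
  have e1 : RR a c n i = ∑ E ∈ monF F (2 * n + a.natDegree - i), ∑ f ∈ monF F n,
      ind (E ∣ a * f ^ 2 + c) * mu ((a * f ^ 2 + c) /ₘ E) := by
    unfold RR cnt
    simp only [Finset.mul_sum]
    rw [Finset.sum_comm, Finset.sum_comm (s := monF F (2 * n + a.natDegree - i))]
    refine Finset.sum_congr rfl fun f hf => ?_
    rw [← (hN f hf).2, ← SPsi.sum_swap (hN f hf).1 ((hN f hf).2 ▸ hi2) fun d _ => mu d]
    exact Finset.sum_congr rfl fun d _ => mul_comm _ _
  have h1 : ∀ E ∈ monF F (2 * n + a.natDegree - i), |∑ f ∈ monF F n,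
      ind (E ∣ a * f ^ 2 + c) * mu ((a * f ^ 2 + c) /ₘ E)| ≤
      ∑ f ∈ monF F n, ind (E ∣ a * f ^ 2 + c) * (1 / (Fintype.card F : ℝ) ^ (H / C₁)) := by
    intro E hE
    obtain ⟨hE1, hE2⟩ := mem_monF.1 hE
    obtain ⟨t, ht⟩ : ∃ t, t + E.natDegree + 4 * m.natDegree + H = n :=
      ⟨n - (E.natDegree + 4 * m.natDegree + H), by omega⟩
    have hT : (X ^ t * E).Monic := (monic_X_pow t).mul hE1
    have dT : (X ^ t * E).natDegree = t + E.natDegree := by
      rw [(monic_X_pow t).natDegree_mul hE1, natDegree_X_pow]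
    refine sum_avg (H := H) (Q := X ^ t * E * m ^ 4) ?_
      (fun f => ind (E ∣ a * f ^ 2 + c) * mu ((a * f ^ 2 + c) /ₘ E)) _ fun f hf => ?_
    · rw [hT.natDegree_mul (hm.pow 4), dT, hm.natDegree_pow, ht]
    obtain ⟨s1, s2⟩ := monic_N (c := κ) ha (mem_monF.1 hf).1 (mem_monF.1 hf).2 (j := 1) (by omega)
    rw [pow_one] at s1 s2
    refine local_line hb (by positivity) ha.ne_zero hE1 e0
      (liou_line he hb hm s1 (ha.mul hT) s2 ?_ (by omega) fun m' s' M k' g1 g2 g3 g4 g5 g6 g7 g8 =>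
        hinf H (by omega) F e he b m' s' M k' hb g1 g2 g3 g4 g5 (by omega) (by omega) (by omega))
    rw [ha.natDegree_mul hT, dT]
    omega
  rw [e1]
  refine (Finset.abs_sum_le_sum_abs _ _).trans ((Finset.sum_le_sum h1).trans ?_)
  rw [Finset.sum_comm]
  have h2 : ∀ f ∈ monF F n, ∑ E ∈ monF F (2 * n + a.natDegree - i),
      ind (E ∣ a * f ^ 2 + c) * (1 / (Fintype.card F : ℝ) ^ (H / C₁)) ≤
      1 / (Fintype.card F : ℝ) ^ z := by
    intro f hf
    have h3 := hdiv (3 * n) (by omega) _ (hN f hf).1.ne_zero (by rw [(hN f hf).2]; omega)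
    rw [Nat.mul_div_mul_left _ _ (by norm_num), ← hz] at h3
    rw [← Finset.sum_mul]
    calc _ ≤ (Fintype.card F : ℝ) ^ z * (1 / (Fintype.card F : ℝ) ^ (H / C₁)) :=
          mul_le_mul_of_nonneg_right ((sum_ind_le (hN f hf).1.ne_zero _).trans h3) (by positivity)
      _ ≤ _ := by
          rw [mul_one_div, div_le_div_iff₀ (by positivity) (by positivity), one_mul, ← pow_add]
          exact pow_le_pow_right₀ (one_le_two.trans two_le_card) (by omega)
  refine (Finset.sum_le_sum h2).trans_eq ?_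
  rw [Finset.sum_const, card_monF, nsmul_eq_mul, Nat.cast_pow, mul_one_div]

end Pool.Agent.MP_f37147_nt
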