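import Mathlib
import Pool.Agent.MP_f37147_nt.QDefs

/- The sifted set in residue classes. -/

set_option autoImplicit false

namespace Pool.Agent.MP_f37147_nt

open Polynomial Finset Pool.Agent.MP_4fffd4_nt Pool.Agent.MP_c853c5_nt
open scoped BigOperators

variable {F : Type*} [Field F] [Fintype F] [CharP F 2]

namespace QPairA

omit [Fintype F] in
theorem dsq (f g : F[X]) : derivative (f ^ 2 * g) = f ^ 2 * derivative g := by
  have h2F : (2 : F[X]) = 0 := by exact_mod_cast CharP.cast_eq_zero F[X] 2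
  rw [derivative_mul, derivative_sq, map_ofNat, h2F]
  ring

omit [Fintype F] [CharP F 2] in
theorem normal {a : F[X]} (ha : a ≠ 0) : ∃ l : F, l ≠ 0 ∧ ∃ a₁ : F[X], a₁.Monic ∧ a = C l * a₁ := by
  have h := leadingCoeff_ne_zero.2 ha
  refine ⟨a.leadingCoeff, h, a * C a.leadingCoeff⁻¹, monic_mul_leadingCoeff_inv ha, ?_⟩
  rw [mul_comm, mul_assoc, ← C_mul, inv_mul_cancel₀ h, C_1, mul_one]

omit [Fintype F] [CharP F 2] in
theorem crt {d e : F[X]} (hd : d.Monic) (he : e.Monic) (h : IsCoprime d e) (x₀ : F[X]) :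
    ∃ x : F[X], x.degree < (d * e).degree ∧ d ∣ x - x₀ ∧ e ∣ x := by
  obtain ⟨u, v, huv⟩ := h
  have h1 := modByMonic_add_div (x₀ * v * e) (d * e)
  refine ⟨(x₀ * v * e) %ₘ (d * e), degree_modByMonic_lt _ (hd.mul he),
    ⟨-(x₀ * u) - e * (x₀ * v * e /ₘ (d * e)), ?_⟩, ⟨x₀ * v - d * (x₀ * v * e /ₘ (d * e)), ?_⟩⟩
  · linear_combination h1 + x₀ * huv
  · linear_combination h1

omit [Fintype F] [CharP F 2] in
theorem monic_iff {m x h : F[X]} (hm : m.Monic) (hx : x.degree < m.degree) (h0 : h ≠ 0) :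
    (x + m * h).leadingCoeff = h.leadingCoeff ∧
      (x + m * h).natDegree = h.natDegree + m.natDegree := by
  have h1 : x.degree < (m * h).degree := hx.trans_le (degree_le_mul_left m h0)
  refine ⟨?_, ?_⟩
  · rw [leadingCoeff_add_of_degree_lt h1, leadingCoeff_monic_mul hm]
  · rw [natDegree_add_eq_right_of_degree_lt h1, hm.natDegree_mul' h0, add_comm]

omit [CharP F 2] in
open Classical in
/-- counting in a residue class -/
theorem card_class {m x : F[X]} (hm : m.Monic) (hx : x.degree < m.degree) (n : ℕ)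
    (p : F[X] → Prop) :
    (((monF F (n + m.natDegree)).filter fun P => m ∣ P - x ∧ p P).card : ℝ) =
      ∑ h ∈ monF F n, ind (p (x + m * h)) := by
  have h1 : ((monF F n).filter fun h => p (x + m * h)).card =
      ((monF F (n + m.natDegree)).filter fun P => m ∣ P - x ∧ p P).card := by
    refine Finset.card_bij (fun h _ => x + m * h) (fun h hh => ?_) (fun h _ h' _ e => ?_)
      fun P hP => ?_
    · obtain ⟨h2, h3⟩ := mem_filter.1 hh
      obtain ⟨h4, h5⟩ := mem_monF.1 h2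
      obtain ⟨h6, h7⟩ := monic_iff hm hx h4.ne_zero
      exact mem_filter.2 ⟨mem_monF.2 ⟨h6.trans h4, by rw [h7, h5]⟩,
        ⟨h, add_sub_cancel_left _ _⟩, h3⟩
    · exact mul_left_cancel₀ hm.ne_zero (add_left_cancel e)
    · obtain ⟨h2, ⟨h, hh⟩, h3⟩ := mem_filter.1 hP
      obtain ⟨h4, h5⟩ := mem_monF.1 h2
      obtain rfl : P = x + m * h := by rw [← hh]; ring
      have h0 : h ≠ 0 := by
        rintro rfl
        rw [mul_zero, add_zero] at h4 h5
        have := natDegree_lt_natDegree h4.ne_zero hx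
        omega
      obtain ⟨h6, h7⟩ := monic_iff hm hx h0
      exact ⟨h, mem_filter.2 ⟨mem_monF.2 ⟨h6.symm.trans h4, by omega⟩, h3⟩, rfl⟩
  rw [← h1, Finset.card_filter]
  push_cast
  exact Finset.sum_congr rfl fun h _ => by unfold ind; congr

omit [CharP F 2] in
theorem sing_eq {a d b : F[X]} (ha : a ≠ 0) (hd : d ≠ 0) (hb : b ≠ 0) (S : Finset F[X])
    (hS : ∀ R ∈ S, R.Monic ∧ Irreducible R ∧ ¬ R ∣ d)
    (h : ∀ P : F[X], P.Monic → Irreducible P → (P ∣ b ↔ P ∣ a * d ∨ P ∈ S)) :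
    sing b = (Fintype.card F : ℝ) ^ (∑ R ∈ S, R.natDegree) * sing (a * d) * ∏ R ∈ S, gl a R := by
  classical
  have had := mul_ne_zero ha hd
  have h1 : pf b = pf (a * d) ∪ S \ pf (a * d) := by
    rw [Finset.union_sdiff_self_eq_union]
    ext P
    rw [mem_union, mem_pf hb, mem_pf had]
    constructor
    · rintro ⟨h2, h3, h4⟩
      exact ((h P h2 h3).1 h4).imp_left fun h5 => ⟨h2, h3, h5⟩
    · rintro (⟨h2, h3, h4⟩ | h2)
      · exact ⟨h2, h3, (h P h2 h3).2 (Or.inl h4)⟩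
      · obtain ⟨h3, h4, -⟩ := hS P h2
        exact ⟨h3, h4, (h P h3 h4).2 (Or.inr h2)⟩
  rw [mul_right_comm, ← Finset.prod_pow_eq_pow_sum, ← Finset.prod_mul_distrib, mul_comm]
  unfold sing
  rw [h1, Finset.prod_union Finset.disjoint_sdiff, Finset.sdiff_eq_filter, Finset.prod_filter]
  congr 1
  refine Finset.prod_congr rfl fun R hR => ?_
  obtain ⟨h2, h3, h4⟩ := hS R hR
  have h5 : (2 : ℝ) ≤ (Fintype.card F : ℝ) ^ R.natDegree :=
    two_le_card.trans (le_self_pow₀ (one_le_two.trans two_le_card) h3.natDegree_pos.ne')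
  have h6 : R ∈ pf (a * d) ↔ R ∣ a := by
    rw [mem_pf had]
    exact ⟨fun h7 => (h3.prime.dvd_or_dvd h7.2.2).resolve_right h4,
      fun h7 => ⟨h2, h3, h7.mul_right d⟩⟩
  unfold gl
  generalize (Fintype.card F : ℝ) ^ R.natDegree = y at h5
  have h8 : y ≠ 0 := by linarith
  have h9 : y - 1 ≠ 0 := by linarith
  by_cases h7 : R ∣ a
  · rw [if_neg (not_not.2 (h6.2 h7)), if_pos h7]
    field_simp
  · rw [if_pos (mt h6.1 h7), if_neg h7]
    field_simp

end QPairA

open Classical in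
theorem count_class {C n₀ : ℕ} (hcore : CoreSt F C n₀) {a c d x₀ y₀ : F[X]} (hd : d ≠ 0)
    (hsq : ¬ IsSquare (a * c)) (hcop : IsCoprime (x₀ * y₀) (a * d))
    (heq : a * x₀ ^ 2 + c = d * y₀) (S : Finset F[X])
    (hS : ∀ R ∈ S, R.Monic ∧ Irreducible R ∧ ¬ R ∣ c * d) {n n' : ℕ}
    (hn : n = n' + d.natDegree + ∑ R ∈ S, R.natDegree) (hn₀ : n₀ ≤ n')
    (h1 : a.natDegree + d.natDegree + 2 * ∑ R ∈ S, R.natDegree ≤ n' / C)
    (h2 : c.natDegree ≤ n' / C) :
    |(2 * n + a.natDegree - d.natDegree : ℝ) *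
        ((om a c d x₀ n).filter fun P => ∀ R ∈ S, R ∣ P).card -
      (Fintype.card F : ℝ) ^ (n - d.natDegree) * sing (a * d) * ∏ R ∈ S, gl a R| ≤
      (Fintype.card F : ℝ) ^ n' / (Fintype.card F : ℝ) ^ (n' / C) := by
  have h2F : (2 : F[X]) = 0 := by exact_mod_cast CharP.cast_eq_zero F[X] 2
  have ha : a ≠ 0 := by
    rintro rfl
    exact hsq ⟨0, by simp⟩
  obtain ⟨l, hl, a₁, ha₁, ea⟩ := QPairA.normal ha
  obtain ⟨k, hk, d₁, hd₁, ed⟩ := QPairA.normal hd
  obtain ⟨e, he⟩ : ∃ e, e = ∏ R ∈ S, R := ⟨_, rfl⟩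
  have hem : e.Monic := he ▸ monic_prod_of_monic _ _ fun R hR => (hS R hR).1
  have hed : e.natDegree = ∑ R ∈ S, R.natDegree :=
    he ▸ natDegree_prod_of_monic _ _ fun R hR => (hS R hR).1
  have hecd : IsCoprime e (c * d) := he ▸ IsCoprime.prod_left fun R hR =>
    (hS R hR).2.1.coprime_iff_not_dvd.2 (hS R hR).2.2
  have hdvd : ∀ P : F[X], (∀ R ∈ S, R ∣ P) ↔ e ∣ P := fun P => by
    rw [he]
    refine ⟨fun h => Finset.prod_dvd_of_coprime (fun R hR R' hR' hne => ?_) h,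
      fun h R hR => (Finset.dvd_prod_of_mem (fun R => R) hR).trans h⟩
    obtain ⟨b1, b2, -⟩ := hS R hR
    obtain ⟨b3, b4, -⟩ := hS R' hR'
    exact b2.coprime_iff_not_dvd.2 fun h' =>
      hne (eq_of_monic_of_associated b1 b3 (b2.associated_of_dvd b4 h'))
  have hd₁d : d₁ ∣ d := ⟨Polynomial.C k, by rw [ed, mul_comm]⟩
  have ha₁a : a₁ ∣ a := ⟨Polynomial.C l, by rw [ea, mul_comm]⟩
  have hk' : Polynomial.C k * Polynomial.C k⁻¹ = 1 := by rw [← C_mul, mul_inv_cancel₀ hk, C_1]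
  have hl' : Polynomial.C l * Polynomial.C l⁻¹ = 1 := by rw [← C_mul, mul_inv_cancel₀ hl, C_1]
  have hdd₁ : d ∣ d₁ := ⟨Polynomial.C k⁻¹, by rw [ed]; linear_combination -d₁ * hk'⟩
  have hde : IsCoprime d₁ e := (hecd.of_mul_right_right.of_isCoprime_of_dvd_right hd₁d).symm
  obtain ⟨x, hx, hx1, hx2⟩ := QPairA.crt hd₁ hem hde x₀
  obtain ⟨t, ht⟩ := hdd₁.trans hx1
  obtain ⟨y, hy⟩ : ∃ y, y = y₀ + a * d * t ^ 2 := ⟨_, rfl⟩
  have hxy : a * x ^ 2 + c = d * y := by
    rw [hy, show x = x₀ + d * t by rw [← ht]; ring]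
    linear_combination heq + a * x₀ * d * t * h2F
  have hda : a₁.natDegree = a.natDegree := by rw [ea, natDegree_C_mul hl]
  have hdd : d₁.natDegree = d.natDegree := by rw [ed, natDegree_C_mul hk]
  have hm := hd₁.mul hem
  have hmd : (d₁ * e).natDegree = d.natDegree + ∑ R ∈ S, R.natDegree := by
    rw [hd₁.natDegree_mul hem, hdd, hed]
  obtain ⟨a₂, ha₂⟩ : ∃ a₂, a₂ = a₁ * d₁ * e ^ 2 := ⟨_, rfl⟩
  obtain ⟨c₂, hc₂⟩ : ∃ c₂, c₂ = Polynomial.C k * Polynomial.C l⁻¹ * y := ⟨_, rfl⟩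
  have hm₂ : a₂.Monic := ha₂ ▸ (ha₁.mul hd₁).mul (hem.pow 2)
  have hd₂ : a₂.natDegree = a.natDegree + d.natDegree + 2 * ∑ R ∈ S, R.natDegree := by
    rw [ha₂, (ha₁.mul hd₁).natDegree_mul (hem.pow 2), ha₁.natDegree_mul hd₁, hem.natDegree_pow,
      hda, hdd, hed]
  have hy1 : IsCoprime (a * d) y := by
    rw [hy]
    exact hcop.of_mul_left_right.symm.add_mul_left_right _
  have hy2 : IsCoprime e y := by
    obtain ⟨z, hz⟩ := hx2
    have b1 : IsCoprime e (d * y) := by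
      rw [← hxy, hz, show a * (e * z) ^ 2 + c = c + e * (a * e * z ^ 2) by ring]
      exact hecd.of_mul_right_left.add_mul_left_right _
    exact b1.of_mul_right_right
  have hcop₂ : IsCoprime a₂ c₂ := by
    have b1 : IsCoprime a₂ y :=
      ha₂ ▸ (hy1.of_isCoprime_of_dvd_left (mul_dvd_mul ha₁a hd₁d)).mul_left hy2.pow_left
    refine b1.of_isCoprime_of_dvd_right ⟨Polynomial.C l * Polynomial.C k⁻¹, ?_⟩
    rw [hc₂]
    linear_combination (-y) * hk' - y * Polynomial.C k * Polynomial.C k⁻¹ * hl'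
  have hder : derivative (a₂ * c₂) ≠ 0 := by
    intro h0
    have b1 : Polynomial.C l ^ 2 * (a₂ * c₂) = e ^ 2 * ((a * x) ^ 2 * 1 + a * c) := by
      have b2 : a * d * y = Polynomial.C l * a₁ * (Polynomial.C k * d₁) * y := by rw [← ea, ← ed]
      rw [ha₂, hc₂]
      linear_combination (-(e ^ 2 * a)) * hxy - e ^ 2 * b2 +
        Polynomial.C l * a₁ * Polynomial.C k * d₁ * y * e ^ 2 * hl'
    have b3 := congrArg derivative b1
    rw [QPairA.dsq, QPairA.dsq, derivative_add, QPairA.dsq, h0, derivative_one, mul_zero,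
      mul_zero, zero_add] at b3
    exact mul_ne_zero (pow_ne_zero 2 hem.ne_zero) (derivative_ne_zero_iff.2 hsq) b3.symm
  have hdc : c₂.natDegree ≤ n' / C := by
    have b1 : c₂.natDegree ≤ y.natDegree := by
      rw [hc₂, ← C_mul]
      exact natDegree_C_mul_le _ _
    refine b1.trans ?_
    rcases eq_or_ne y 0 with h0 | h0
    · rw [h0, natDegree_zero]
      exact Nat.zero_le _
    have b2 := natDegree_mul hd h0
    have b3 : x.natDegree ≤ (d₁ * e).natDegree := natDegree_le_natDegree hx.le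
    have b4 := natDegree_add_le (a * x ^ 2) c
    have b5 : (a * x ^ 2).natDegree ≤ a.natDegree + 2 * x.natDegree :=
      natDegree_mul_le.trans (Nat.add_le_add_left natDegree_pow_le _)
    rw [hxy, b2] at b4
    rcases le_max_iff.1 b4 with b6 | b6 <;> omega
  have H := hcore n' hn₀ a₂ c₂ hm₂ hcop₂ hder (hd₂ ▸ h1) hdc
  have hcard : (((om a c d x₀ n).filter fun P => ∀ R ∈ S, R ∣ P).card : ℝ) = npr a₂ c₂ n' := by
    have b1 : ((om a c d x₀ n).filter fun P => ∀ R ∈ S, R ∣ P) =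
        (monF F (n' + (d₁ * e).natDegree)).filter fun P => d₁ * e ∣ P - x ∧
          ∃ Q, Irreducible Q ∧ a * P ^ 2 + c = d * Q := by
      ext P
      simp only [om, mem_filter, hdvd]
      rw [hmd, hn, add_assoc]
      constructor
      · rintro ⟨⟨b2, b3, b4⟩, b5⟩
        refine ⟨b2, hde.mul_dvd ?_ (dvd_sub b5 hx2), b4⟩
        have := dvd_sub (hd₁d.trans b3) hx1
        rwa [sub_sub_sub_cancel_right] at this
      · rintro ⟨b2, b3, b4⟩
        refine ⟨⟨b2, hdd₁.trans ?_, b4⟩, ?_⟩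
        · have := dvd_add ((dvd_mul_right d₁ e).trans b3) hx1
          rwa [sub_add_sub_cancel] at this
        · have := dvd_add ((dvd_mul_left e d₁).trans b3) hx2
          rwa [sub_add_cancel] at this
    have b2 := QPairA.card_class hm hx n' fun P => ∃ Q, Irreducible Q ∧ a * P ^ 2 + c = d * Q
    rw [b1]
    refine Eq.trans (by congr) (b2.trans ?_)
    unfold npr
    refine Finset.sum_congr rfl fun h _ => congrArg ind (propext ?_)
    have b3 : a * (x + d₁ * e * h) ^ 2 + c =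
        d * (Polynomial.C (l * k⁻¹) * (a₂ * h ^ 2 + c₂)) := by
      have b4 : a * d₁ = d * (Polynomial.C l * Polynomial.C k⁻¹ * a₁) := by
        rw [ea, ed]
        linear_combination (-(Polynomial.C l * a₁ * d₁)) * hk'
      rw [ha₂, hc₂, C_mul]
      linear_combination hxy + d₁ * e ^ 2 * h ^ 2 * b4 + a * x * d₁ * e * h * h2F -
        d * y * hk' - d * y * Polynomial.C k * Polynomial.C k⁻¹ * hl'
    have b5 : IsUnit (Polynomial.C (l * k⁻¹)) :=
      isUnit_C.2 (mul_ne_zero hl (inv_ne_zero hk)).isUnit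
    rw [b3, ← irreducible_isUnit_mul b5]
    exact ⟨fun ⟨Q, b6, b7⟩ => mul_left_cancel₀ hd b7 ▸ b6, fun b6 => ⟨_, b6, rfl⟩⟩
  have hsing := QPairA.sing_eq ha hd hm₂.ne_zero S
    (fun R hR => ⟨(hS R hR).1, (hS R hR).2.1, fun h => (hS R hR).2.2 (h.mul_left c)⟩)
    fun P p1 p2 => by
      have b1 : P ∣ e ↔ P ∈ S := by
        refine ⟨fun h => ?_, fun h => (hdvd e).2 dvd_rfl P h⟩
        obtain ⟨R, hR, h'⟩ := (p2.prime.dvd_finsetProd_iff fun R => R).1 (he ▸ h)
        rwa [eq_of_monic_of_associated p1 (hS R hR).1 (p2.associated_of_dvd (hS R hR).2.1 h')]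
      have b2 : a * d ∣ a₁ * d₁ :=
        mul_dvd_mul ⟨Polynomial.C l⁻¹, by rw [ea]; linear_combination -a₁ * hl'⟩ hdd₁
      rw [ha₂, p2.prime.dvd_mul (b := e ^ 2), p2.prime.dvd_pow_iff_dvd two_ne_zero, b1]
      exact or_congr_left ⟨fun h => h.trans (mul_dvd_mul ha₁a hd₁d), fun h => h.trans b2⟩
  rw [hsing, hd₂, ← hcard] at H
  rw [show n - d.natDegree = n' + ∑ R ∈ S, R.natDegree by omega, pow_add]
  convert H using 3
  · rw [hn]
    push_cast
    ring
  · ring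

end Pool.Agent.MP_f37147_nt
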