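import Mathlib
import Pool.Agent.MP_f37147_nt.QPairA
import Pool.Agent.MP_c853c5_nt.SLine

/- Divisors of degree at most `n`. -/

set_option autoImplicit false

namespace Pool.Agent.MP_f37147_nt

open Polynomial Finset Pool.Agent.MP_4fffd4_nt Pool.Agent.MP_c853c5_nt
open scoped BigOperators

namespace QMainTerm

theorem step {y B s s' : ℝ} {d : ℕ} {m m' : ℕ → ℝ} (hy : 0 < y) (hy' : y ≤ 3 / 4) (hd : 1 ≤ d)
    (h1 : ∀ i, i < d → m' i = m i) (h2 : ∀ i, m' (d + i) = m (d + i) + y ^ (2 * d) * m' i)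
    (hs : s' = s + y ^ (2 * d) * s') (hs' : |s'| ≤ 4 * B)
    (h : ∀ n, |∑ i ∈ range (n + 1), m i| ≤ B * y ^ n ∧
      |s + ∑ i ∈ range (n + 1), i * m i| ≤ (n + 1) * B * y ^ n) (n : ℕ) :
    |∑ i ∈ range (n + 1), m' i| ≤ 4 * B * y ^ n ∧
      |s' + ∑ i ∈ range (n + 1), i * m' i| ≤ (n + 1) * (4 * B) * y ^ n := by
  have hB : 0 ≤ B := by linarith [abs_nonneg s']
  have hyd : y ^ d ≤ 3 / 4 := (pow_le_of_le_one hy.le (by linarith) (by omega)).trans hy'
  induction n using Nat.strong_induction_on with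
  | _ n IH =>
  obtain ⟨a1, a2⟩ := h n
  have hn : 0 < y ^ n := by positivity
  have hBn : 0 ≤ B * y ^ n := by positivity
  have hn0 : (0 : ℝ) ≤ n := Nat.cast_nonneg n
  by_cases hlt : n < d
  · have e : ∀ i ∈ range (n + 1), m' i = m i := fun i hi => h1 i (by have := mem_range.1 hi; omega)
    rw [Finset.sum_congr rfl e, Finset.sum_congr (f := fun i : ℕ => i * m' i)
      (g := fun i : ℕ => i * m i) rfl fun i hi => by rw [e i hi]]
    refine ⟨by linarith, ?_⟩
    have b1 : y ^ (2 * d) ≤ 3 / 4 * y ^ n := by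
      rw [two_mul, pow_add]
      exact mul_le_mul hyd (pow_le_pow_of_le_one hy.le (by linarith) hlt.le) (by positivity)
        (by norm_num)
    have b2 : |y ^ (2 * d) * s'| ≤ 3 / 4 * y ^ n * (4 * B) := by
      rw [abs_mul, abs_of_pos (by positivity)]
      exact mul_le_mul b1 hs' (abs_nonneg _) (by positivity)
    rw [hs, add_right_comm]
    refine (abs_add_le _ _).trans ?_
    nlinarith [mul_nonneg hn0 hBn]
  · obtain ⟨k, rfl⟩ : ∃ k, n = d + k := ⟨n - d, by omega⟩
    obtain ⟨c1, c2⟩ := IH k (by omega)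
    have e1 : ∑ i ∈ range (d + k + 1), m' i =
        ∑ i ∈ range (d + k + 1), m i + y ^ (2 * d) * ∑ i ∈ range (k + 1), m' i := by
      rw [add_assoc, Finset.sum_range_add, Finset.sum_range_add m, Finset.mul_sum, add_assoc,
        ← Finset.sum_add_distrib, Finset.sum_congr rfl fun i hi => h1 i (mem_range.1 hi)]
      simp only [h2]
    have e2 : ∑ i ∈ range (d + k + 1), i * m' i = ∑ i ∈ range (d + k + 1), i * m i +
        y ^ (2 * d) * (∑ i ∈ range (k + 1), i * m' i + d * ∑ i ∈ range (k + 1), m' i) := by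
      rw [add_assoc, Finset.sum_range_add, Finset.sum_range_add fun i : ℕ => i * m i,
        Finset.mul_sum, ← Finset.sum_add_distrib, Finset.mul_sum, add_assoc,
        ← Finset.sum_add_distrib, Finset.sum_congr (g := fun i : ℕ => i * m i) rfl
          fun i hi => by rw [h1 i (mem_range.1 hi)]]
      congr 1
      refine Finset.sum_congr rfl fun i _ => ?_
      rw [h2]; push_cast; ring
    have b0 : y ^ (2 * d) * y ^ k ≤ 3 / 4 * y ^ (d + k) := by
      rw [two_mul, pow_add, mul_assoc, ← pow_add]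
      exact mul_le_mul_of_nonneg_right hyd hn.le
    have hp : 0 < y ^ (2 * d) := by positivity
    have b1 : |y ^ (2 * d) * ∑ i ∈ range (k + 1), m' i| ≤ 4 * B * (3 / 4 * y ^ (d + k)) := by
      rw [abs_mul, abs_of_pos hp]
      calc _ ≤ y ^ (2 * d) * (4 * B * y ^ k) := by gcongr
        _ = 4 * B * (y ^ (2 * d) * y ^ k) := by ring
        _ ≤ _ := by gcongr
    have b2 : |y ^ (2 * d) * (s' + ∑ i ∈ range (k + 1), i * m' i)| ≤
        (k + 1) * (4 * B) * (3 / 4 * y ^ (d + k)) := by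
      rw [abs_mul, abs_of_pos hp]
      calc _ ≤ y ^ (2 * d) * ((k + 1) * (4 * B) * y ^ k) := by gcongr
        _ = (k + 1) * (4 * B) * (y ^ (2 * d) * y ^ k) := by ring
        _ ≤ _ := by gcongr
    refine ⟨by rw [e1]; exact (abs_add_le _ _).trans (by linarith), ?_⟩
    rw [e2, show s' + (∑ i ∈ range (d + k + 1), i * m i + y ^ (2 * d) *
      (∑ i ∈ range (k + 1), i * m' i + d * ∑ i ∈ range (k + 1), m' i)) =
      s + ∑ i ∈ range (d + k + 1), i * m i + y ^ (2 * d) * (s' + ∑ i ∈ range (k + 1), i * m' i) +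
      d * (y ^ (2 * d) * ∑ i ∈ range (k + 1), m' i) by linear_combination hs]
    refine (abs_add_le _ _).trans ((add_le_add (abs_add_le _ _) le_rfl).trans ?_)
    rw [abs_mul (d : ℝ), Nat.abs_cast]
    have b3 := mul_le_mul_of_nonneg_left b1 (Nat.cast_nonneg (α := ℝ) d)
    push_cast at a2 ⊢
    linarith

variable {F : Type*} [Field F] [Fintype F]

/-- The Moebius sum over polynomials prime to `S`. -/
noncomputable def MS (S : Finset F[X]) (i : ℕ) : ℝ :=
  ∑ D ∈ monF F i, mu D * ind (∀ P ∈ S, ¬ P ∣ D)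

theorem MS_lt [DecidableEq F] {S : Finset F[X]} {P : F[X]} {i : ℕ} (h : i < P.natDegree) :
    MS (insert P S) i = MS S i := by
  refine Finset.sum_congr rfl fun D hD => ?_
  obtain ⟨h1, h2⟩ := mem_monF.1 hD
  have : ¬ P ∣ D := fun e => by have := natDegree_le_of_dvd e h1.ne_zero; omega
  simp only [mem_insert, forall_eq_or_imp, this, not_false_eq_true, true_and]

theorem MS_add [DecidableEq F] {S : Finset F[X]} {P : F[X]} (hP : P.Monic) (hi : Irreducible P)
    (hS : ∀ R ∈ S, R.Monic ∧ Irreducible R) (hPS : P ∉ S) (i : ℕ) :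
    MS (insert P S) (P.natDegree + i) = MS S (P.natDegree + i) + MS (insert P S) i := by
  classical
  have h1 : ∑ D ∈ monF F (P.natDegree + i) with P ∣ D, mu D * ind (∀ R ∈ S, ¬ R ∣ D) =
      -MS (insert P S) i := by
    rw [MS, ← Finset.sum_neg_distrib]
    symm
    refine Finset.sum_bij (fun D _ => P * D) (fun D hD => ?_)
      (fun _ _ _ _ e => mul_left_cancel₀ hP.ne_zero e) (fun g hg => ?_) fun D hD => ?_
    · obtain ⟨h4, h5⟩ := mem_monF.1 hD
      rw [mem_filter, mem_monF, hP.natDegree_mul h4, h5]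
      exact ⟨⟨hP.mul h4, rfl⟩, dvd_mul_right _ _⟩
    · rw [mem_filter, mem_monF] at hg
      obtain ⟨⟨h4, h5⟩, e, rfl⟩ := hg
      have h6 := hP.of_mul_monic_left h4
      rw [hP.natDegree_mul h6] at h5
      exact ⟨e, mem_monF.2 ⟨h6, by omega⟩, rfl⟩
    · have h4 : ∀ R ∈ S, (R ∣ P * D ↔ R ∣ D) := fun R hR => ⟨fun h =>
        ((hS R hR).2.prime.dvd_or_dvd h).resolve_left fun e => hPS (eq_of_monic_of_associated
          (hS R hR).1 hP ((hS R hR).2.associated_of_dvd hi e) ▸ hR), fun h => h.mul_left _⟩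
      rw [SConv.mu_mul hi (mem_monF.1 hD).1.ne_zero,
        show (∀ R ∈ S, ¬ R ∣ P * D) = ∀ R ∈ S, ¬ R ∣ D from
          propext (forall₂_congr fun R hR => not_congr (h4 R hR))]
      split_ifs with h
      · rw [ind_neg fun e => e P (mem_insert_self _ _) h]; simp
      · simp only [mem_insert, forall_eq_or_imp, h, not_false_eq_true, true_and, neg_mul]
  rw [MS, MS, ← Finset.sum_filter_add_sum_filter_not _ (P ∣ ·),
    ← Finset.sum_filter_add_sum_filter_not (monF F (P.natDegree + i)) (P ∣ ·)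
      fun D => mu D * ind (∀ R ∈ S, ¬ R ∣ D), h1,
    Finset.sum_eq_zero fun D hD => by
      rw [ind_neg fun e => e P (mem_insert_self _ _) (mem_filter.1 hD).2, mul_zero],
    Finset.sum_congr (g := fun D => mu D * ind (∀ R ∈ S, ¬ R ∣ D)) rfl fun D hD => by
      simp only [mem_insert, forall_eq_or_imp, (mem_filter.1 hD).2, not_false_eq_true, true_and]]
  ring

theorem bound {y : ℝ} (hy : 0 < y) (hq : y ^ 2 * Fintype.card F = 1) (S : Finset F[X])
    (hS : ∀ R ∈ S, R.Monic ∧ Irreducible R) :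
    |∏ P ∈ S, (1 - y ^ (2 * P.natDegree))⁻¹| ≤ 4 ^ S.card ∧ ∀ n,
      |∑ i ∈ range (n + 1), y ^ (2 * i) * MS S i| ≤ 4 ^ S.card * y ^ n ∧
      |∏ P ∈ S, (1 - y ^ (2 * P.natDegree))⁻¹ + ∑ i ∈ range (n + 1), i * (y ^ (2 * i) * MS S i)| ≤
        (n + 1) * 4 ^ S.card * y ^ n := by
  classical
  have hq2 := two_le_card (F := F)
  have hy2 : y ^ 2 ≤ 1 / 2 := by nlinarith [sq_nonneg y]
  have hy' : y ≤ 3 / 4 := by nlinarith
  induction S using Finset.induction with
  | empty =>
    have e : ∀ i, MS (∅ : Finset F[X]) i =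
        if i = 0 then 1 else if i = 1 then -(Fintype.card F : ℝ) else 0 := fun i => by
      rw [← sum_mu_monF, MS]
      exact Finset.sum_congr rfl fun D _ => by rw [ind_pos (by simp), mul_one]
    refine ⟨by simp, fun n => ?_⟩
    rcases n with _ | n
    · simp [e]
    · simp only [Finset.sum_range_succ', e]
      simp [hq]
      constructor <;> positivity
  | insert P S hPS IH =>
    obtain ⟨h1, h2⟩ := IH fun R hR => hS R (mem_insert_of_mem hR)
    obtain ⟨hP, hi⟩ := hS P (mem_insert_self _ _)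
    have hd := hi.natDegree_pos
    have h3 : y ^ (2 * P.natDegree) ≤ 1 / 2 := by
      rw [pow_mul]
      exact (pow_le_of_le_one (by positivity) (by linarith) hd.ne').trans hy2
    have h4 : |∏ R ∈ insert P S, (1 - y ^ (2 * R.natDegree))⁻¹| ≤ 4 * 4 ^ S.card := by
      rw [Finset.prod_insert hPS, abs_mul]
      refine mul_le_mul ?_ h1 (abs_nonneg _) (by norm_num)
      rw [abs_of_pos (inv_pos.2 (by linarith)), inv_le_comm₀ (by linarith) (by norm_num)]
      linarith
    rw [card_insert_of_notMem hPS, pow_succ']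
    refine ⟨h4, step hy hy' hd (fun i hi => by rw [MS_lt hi]) (fun i => ?_) ?_ h4 h2⟩
    · rw [MS_add hP hi (fun R hR => hS R (mem_insert_of_mem hR)) hPS]
      ring
    · rw [Finset.prod_insert hPS]
      have : 1 - y ^ (2 * P.natDegree) ≠ 0 := by linarith
      field_simp
      ring

theorem cnt_eq [CharP F 2] {a c D : F[X]} (ha : a.Monic) (hac : IsCoprime a c) (hD : D.Monic)
    (hs : Squarefree D) (k : ℕ) :
    cnt a c (k + D.natDegree) D = (Fintype.card F : ℝ) ^ k * ind (∀ P ∈ pf a, ¬ P ∣ D) := by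
  classical
  by_cases h : IsCoprime D a
  · rw [ind_pos fun P hP e => ((mem_pf ha.ne_zero).1 hP).2.1.not_isUnit
      (h.isUnit_of_dvd' e ((mem_pf ha.ne_zero).1 hP).2.2), mul_one]
    obtain ⟨f, hf⟩ := sol_exists c hs h
    have h1 := QPairA.card_class hD (degree_modByMonic_lt f hD) k fun _ => True
    simp only [and_true, ind_pos trivial, Finset.sum_const, card_monF, nsmul_eq_mul, mul_one,
      Finset.card_filter] at h1
    push_cast at h1
    rw [← h1, cnt]
    refine Finset.sum_congr rfl fun g _ => ?_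
    have h2 : D ∣ f - f %ₘ D := ⟨f /ₘ D, by linear_combination -modByMonic_add_div f D⟩
    have h3 : D ∣ a * g ^ 2 + c ↔ D ∣ g - f %ₘ D := ⟨fun e => by
      simpa using dvd_add (sol_unique hs h e hf) h2, fun e => by
      have := dvd_add hf (((dvd_sub e h2).mul_left (g + f)).mul_left a)
      rwa [show a * f ^ 2 + c + a * ((g + f) * (g - f %ₘ D - (f - f %ₘ D))) = a * g ^ 2 + c by
        ring] at this⟩
    rw [h3]
    unfold ind
    congr
  · rw [ind_neg fun e => h (isCoprime_of_monic ha.ne_zero fun P h1 h2 h3 h4 =>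
      e P ((mem_pf ha.ne_zero).2 ⟨h1, h2, h4⟩) h3), mul_zero]
    exact Finset.sum_eq_zero fun g _ => ind_neg fun e => h (coprime_of_sol hac e)

end QMainTerm

variable {F : Type*} [Field F] [Fintype F] [CharP F 2]

open QMainTerm in
theorem main_term {a c : F[X]} (ha : a.Monic) (hac : IsCoprime a c) (n : ℕ) :
    |-∑ i ∈ range (n + 1), (i : ℝ) * RR a c n i - (Fintype.card F : ℝ) ^ n * sing a| ≤
      8 * (n + 1) * 4 ^ a.natDegree * (Fintype.card F : ℝ) ^ n /
        (Fintype.card F : ℝ) ^ (n / 2) := by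
  have hq := card_pos' (F := F)
  have hq2 := two_le_card (F := F)
  obtain ⟨y, hy, hy2⟩ : ∃ y : ℝ, 0 < y ∧ y ^ 2 * Fintype.card F = 1 :=
    ⟨(√(Fintype.card F))⁻¹, by positivity, by
      rw [inv_pow, Real.sq_sqrt hq.le, inv_mul_cancel₀ hq.ne']⟩
  have hy3 : ∀ i, y ^ (2 * i) = 1 / (Fintype.card F : ℝ) ^ i := fun i => by
    rw [pow_mul, eq_div_iff (by positivity), ← mul_pow, hy2, one_pow]
  have h1 := ((bound hy hy2 (pf a) fun R hR =>
    ⟨((mem_pf ha.ne_zero).1 hR).1, ((mem_pf ha.ne_zero).1 hR).2.1⟩).2 n).2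
  have h2 : ∀ i ∈ range (n + 1), (i : ℝ) * RR a c n i =
      (Fintype.card F : ℝ) ^ n * (i * (y ^ (2 * i) * MS (pf a) i)) := fun i hi => by
    obtain ⟨k, rfl⟩ : ∃ k, n = k + i := ⟨n - i, by have := mem_range.1 hi; omega⟩
    have : RR a c (k + i) i = (Fintype.card F : ℝ) ^ k * MS (pf a) i := by
      rw [RR, MS, Finset.mul_sum]
      refine Finset.sum_congr rfl fun D hD => ?_
      obtain ⟨h3, rfl⟩ := mem_monF.1 hD
      by_cases hs : Squarefree D
      · rw [cnt_eq ha hac h3 hs]; ring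
      · simp [mu, hs]
    rw [this, hy3]
    field_simp
    ring
  have h3 : (4 : ℝ) ^ (pf a).card ≤ 4 ^ a.natDegree := pow_le_pow_right₀ (by norm_num)
    (SLine.card_le_natDegree ha.ne_zero _ fun P hP => (mem_pf ha.ne_zero).1 hP)
  have h4 : y ^ n ≤ 1 / (Fintype.card F : ℝ) ^ (n / 2) := by
    rw [← hy3]
    exact pow_le_pow_of_le_one hy.le (by nlinarith [sq_nonneg y, sq_nonneg (y - 1)]) (by omega)
  simp only [hy3] at h1 h2
  rw [Finset.sum_congr rfl h2, ← Finset.mul_sum, ← neg_add', abs_neg, ← mul_add, abs_mul,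
    abs_of_pos (by positivity), add_comm]
  refine (mul_le_mul_of_nonneg_left h1 (by positivity)).trans ?_
  calc _ ≤ (Fintype.card F : ℝ) ^ n * (8 * (n + 1) * 4 ^ a.natDegree *
        (1 / (Fintype.card F : ℝ) ^ (n / 2))) := by
        gcongr
        have : (0 : ℝ) ≤ n := Nat.cast_nonneg n
        linarith
    _ = _ := by ring

end Pool.Agent.MP_f37147_nt
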