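import Mathlib
import Pool.Agent.MP_f37147_nt.QDefs
import Pool.Agent.MP_c853c5_nt.SKey

/- Cancellation along a line, twisted by a character of an inverse. -/

set_option autoImplicit false

namespace Pool.Agent.MP_f37147_nt

open Polynomial Finset Pool.Agent.MP_4fffd4_nt Pool.Agent.MP_c853c5_nt
open scoped BigOperators

namespace QKey

section Field

variable {k : Type*} [Field k] [Fintype k] [CharP k 2] {ψ : k → ℝ}
  (hadd : ∀ a b, ψ (a + b) = ψ a * ψ b)
  (hle : ∀ a, |ψ a| ≤ 1) (hsq : ∀ a, ψ (a ^ 2) = ψ a) (hν : ∃ ν, ψ ν = -1)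

include hadd hle hsq hν in
theorem local_bound2 {V H W ι I : Type*} [AddCommGroup V] [Fintype V] [AddCommGroup H] [Fintype H]
    [AddCommGroup W] [Fintype W] [Fintype ι] [DecidableEq ι] (Θ Θ' : V →+ k)
    (hΘ : Function.Surjective Θ) (θ : ι → H →+ V)
    (hθ : ∀ j, Function.Surjective (Θ.comp (θ j))) (ϑ : W →+ V) (hϑ : ∀ r, Θ (ϑ r) = 0)
    (hϑ' : Function.Surjective (Θ'.comp ϑ)) (T : Finset I) (g κ : I → k → k) (a b c : I → k)
    (ha : ∀ i ∈ T, a i ≠ 0) {i₀ : I} (hi₀ : i₀ ∈ T) (hb : b i₀ ≠ 0) {z₀ : k}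
    (h₀ : a i₀ * z₀ + c i₀ = 0) (h₁ : ∀ i ∈ T, i ≠ i₀ → a i * z₀ + c i ≠ 0) {η : ℝ} (hη : 0 ≤ η)
    (hη' : 4 / Fintype.card k ≤ η ^ 2) :
    𝔼 y : ι → H, |𝔼 x, ψ (cube univ (fun j => θ j (y j)) (fun x => ∑ i ∈ T,
      ((g i (Θ x) + a i ^ 2 * Θ' x ^ 2) ^ 3 / (b i * (a i * Θ x + c i) ^ 2) + κ i (Θ x))) x)| ≤
      4 * (2 ^ Fintype.card ι * T.card) / Fintype.card k + η := by
  classical
  set J : Finset (Finset ι × I) := (univ : Finset ι).powerset ×ˢ T with hJ
  have hJc : (J.card : ℝ) = 2 ^ Fintype.card ι * T.card := by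
    rw [hJ, card_product, card_powerset, card_univ]; push_cast; rfl
  have key : ∀ h : ι → V, |𝔼 x, ψ (cube univ h (fun x => ∑ i ∈ T,
      ((g i (Θ x) + a i ^ 2 * Θ' x ^ 2) ^ 3 / (b i * (a i * Θ x + c i) ^ 2) + κ i (Θ x))) x)| ≤
      ∑ j ∈ J, ind (j.1 ≠ ∅ ∧ a j.2 * (z₀ + Θ (∑ l ∈ j.1, h l)) + c j.2 = 0) +
        (3 * J.card / Fintype.card k + η) := by
    intro h
    by_cases hbad : ∃ j ∈ J, j.1 ≠ ∅ ∧ a j.2 * (z₀ + Θ (∑ l ∈ j.1, h l)) + c j.2 = 0
    · refine le_trans ?_ (add_le_add ((ind_pos trivial).symm.le.trans (ind_le_sum fun _ => hbad))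
        (show 0 ≤ _ by positivity))
      rw [add_zero]
      exact (Finset.abs_expect_le _ _).trans (Finset.expect_le univ_nonempty fun Y _ => hle _)
    refine le_trans ?_ (le_add_of_nonneg_left (Finset.sum_nonneg fun _ _ => ind_nonneg _))
    rw [expect_avg _ ϑ]
    refine (Finset.abs_expect_le _ _).trans ?_
    have hpole := expect_pole_le J (fun j => a j.2 ^ 6 / b j.2) (fun j => a j.2)
      (fun j => a j.2 * Θ (∑ l ∈ j.1, h l) + c j.2) (fun j hj => ha _ (mem_product.1 hj).2)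
      (j₀ := (∅, i₀)) (by simp [hJ, hi₀]) (div_ne_zero (pow_ne_zero _ (ha _ hi₀)) hb) (z₀ := z₀)
      (by simpa using h₀) (by
        rintro ⟨ω, i⟩ hj hne h0
        by_cases hω : ω = ∅
        · subst hω
          refine h₁ i (mem_product.1 hj).2 (fun e => hne (by rw [e])) (by simpa using h0)
        · exact hbad ⟨(ω, i), hj, hω, by linear_combination h0⟩)
    rw [← expect_surj Θ hΘ] at hpole
    refine le_trans (Finset.expect_le_expect (g := fun x => ind (∑ j ∈ J, a j.2 ^ 6 / b j.2 /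
      (a j.2 * Θ x + (a j.2 * Θ (∑ l ∈ j.1, h l) + c j.2)) ^ 2 = 0) + η) fun x _ => ?_) (by
      rw [Finset.expect_add_distrib, Fintype.expect_const]
      gcongr)
    by_cases hz : ∑ j ∈ J, a j.2 ^ 6 / b j.2 /
      (a j.2 * Θ x + (a j.2 * Θ (∑ l ∈ j.1, h l) + c j.2)) ^ 2 = 0
    · rw [ind_pos hz]
      refine le_trans ?_ (le_add_of_nonneg_right hη)
      exact (Finset.abs_expect_le _ _).trans (Finset.expect_le univ_nonempty fun Y _ => hle _)
    rw [ind_neg hz, zero_add]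
    set G : Finset ι × I → k := fun j => g j.2 (Θ (x + ∑ l ∈ j.1, h l)) +
      a j.2 ^ 2 * Θ' (x + ∑ l ∈ j.1, h l) ^ 2 with hG
    set D : Finset ι × I → k := fun j =>
      b j.2 * (a j.2 * Θ x + (a j.2 * Θ (∑ l ∈ j.1, h l) + c j.2)) ^ 2 with hD
    refine le_trans (le_of_eq ?_) (expect_cubic_le hadd hle hsq hν hz
      (∑ j ∈ J, 3 * G j * a j.2 ^ 4 / D j) (∑ j ∈ J, 3 * G j ^ 2 * a j.2 ^ 2 / D j)
      (∑ j ∈ J, (G j ^ 3 / D j + κ j.2 (Θ (x + ∑ l ∈ j.1, h l)))) hη hη')
    rw [← expect_surj _ hϑ']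
    congr 1
    refine Finset.expect_congr rfl fun r _ => ?_
    congr 1
    simp only [cube, Finset.sum_mul, ← Finset.sum_add_distrib]
    rw [hJ, Finset.sum_product]
    refine Finset.sum_congr rfl fun ω _ => Finset.sum_congr rfl fun i _ => ?_
    have e1 : Θ (x + ϑ r + ∑ l ∈ ω, h l) = Θ (x + ∑ l ∈ ω, h l) := by
      rw [add_right_comm, map_add, hϑ, add_zero]
    have e2 : Θ' (x + ϑ r + ∑ l ∈ ω, h l) ^ 2 = Θ' (x + ∑ l ∈ ω, h l) ^ 2 + Θ' (ϑ r) ^ 2 := by
      rw [add_right_comm, map_add, CharTwo.add_sq]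
    rw [e1, e2]
    simp only [hG, hD, AddMonoidHom.comp_apply, div_div]
    rw [map_add Θ x]
    ring
  refine (Finset.expect_le_expect fun y _ => key _).trans ?_
  rw [Finset.expect_add_distrib, Fintype.expect_const, Finset.expect_sum_comm, ← hJc]
  have : ∀ j ∈ J, 𝔼 y : ι → H, ind (j.1 ≠ ∅ ∧ a j.2 * (z₀ + Θ (∑ l ∈ j.1, θ l (y l))) +
      c j.2 = 0) ≤ 1 / Fintype.card k := by
    rintro ⟨ω, i⟩ hj
    by_cases hω : ω = ∅
    · simp only [hω, ne_eq, not_true, false_and, ind_neg, not_false_iff, expect_const_zero]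
      positivity
    obtain ⟨l₀, hl₀⟩ := Finset.nonempty_iff_ne_empty.2 hω
    have hs : Function.Surjective (∑ l ∈ ω, (Θ.comp (θ l)).comp (Pi.evalAddMonoidHom _ l) :
        (ι → H) →+ k) := by
      intro z
      obtain ⟨u, hu⟩ := hθ l₀ z
      refine ⟨Pi.single l₀ u, ?_⟩
      rw [AddMonoidHom.finsetSum_apply, Finset.sum_eq_single_of_mem l₀ hl₀]
      · simpa using hu
      · intro l _ hl
        simp [Pi.single_eq_of_ne hl]
    have := expect_surj _ hs fun z => ind (ω ≠ ∅ ∧ a i * (z₀ + z) + c i = 0)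
    simp only [AddMonoidHom.finsetSum_apply, AddMonoidHom.comp_apply,
      Pi.evalAddMonoidHom_apply, ← map_sum] at this
    rw [this]
    refine (expect_ind_le {-c i / a i - z₀} fun z hz => ?_).trans (by simp)
    have hai := ha i (mem_product.1 hj).2
    rw [mem_singleton]
    field_simp
    linear_combination hz.2
  refine (add_le_add (Finset.sum_le_card_nsmul _ _ _ this) le_rfl).trans_eq ?_
  rw [nsmul_eq_mul]
  ring

end Field

variable {F : Type*} [Field F] [Fintype F] {K : Type*} [Field K] [Algebra F K] [IsAlgClosed K]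

theorem res_eq_sum {v : F[X]} (hv : v.Monic) (hsep : v.Separable) (g : F[X]) :
    algebraMap F K (SFour.res g v) = ∑ z ∈ rts K v, aeval z g / aeval z (derivative v) := by
  classical
  obtain ⟨t, ht, hvt⟩ := exists_roots (K := K) hv hsep rfl
  have h1 := Lagrange.coeff_eq_sum (s := univ) (v := t) ht.injOn
    (P := (g %ₘ v).map (algebraMap F K)) (by
      rw [degree_map, card_univ, Fintype.card_fin, ← degree_eq_natDegree hv.ne_zero]
      exact degree_modByMonic_lt g hv)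
  rw [card_univ, Fintype.card_fin, coeff_map] at h1
  rw [← sum_rts hv.ne_zero t ht hvt, SFour.res, h1]
  refine Finset.sum_congr rfl fun i _ => ?_
  have h0 : aeval (t i) v = 0 := by
    rw [← eval_map_algebraMap, hvt, eval_prod]
    exact Finset.prod_eq_zero (mem_univ i) (by simp)
  congr 1
  · rw [eval_map_algebraMap, aeval_modByMonic_eq_self_of_root h0]
  · rw [← eval_map_algebraMap, ← derivative_map, hvt, ← Lagrange.nodal_eq,
      Lagrange.eval_nodal_derivative_eval_node_eq (mem_univ i), Lagrange.eval_nodal]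

theorem sum_rts_eq_trace2 {P : F[X]} [Fact (Irreducible P)] (s w a b : F[X]) :
    ∑ z ∈ rts K P, (ph s w z + aeval z a / aeval z b) =
      algebraMap F K (Algebra.trace F (AdjoinRoot P) (ph s w (AdjoinRoot.root P) +
        aeval (AdjoinRoot.root P) a / aeval (AdjoinRoot.root P) b)) := by
  have hP : Irreducible P := Fact.out
  have : FiniteDimensional F (AdjoinRoot P) := (AdjoinRoot.powerBasis hP.ne_zero).finite
  rw [trace_eq_sum_embeddings K]
  symm
  refine Finset.sum_bij (fun σ _ => σ (AdjoinRoot.root P)) (fun σ _ => ?_)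
    (fun _ _ _ _ h => AdjoinRoot.algHom_ext h) (fun z hz => ?_) fun σ _ => ?_
  · rw [mem_rts hP.ne_zero, aeval_algHom_apply, AdjoinRoot.aeval_eq, AdjoinRoot.mk_self, map_zero]
  · exact ⟨AdjoinRoot.liftAlgHom P (Algebra.ofId F K) z ((mem_rts hP.ne_zero).1 hz), mem_univ _,
      AdjoinRoot.liftAlgHom_root _ _ _ _⟩
  · rw [map_add, map_ph, map_div₀, aeval_algHom_apply, aeval_algHom_apply]

theorem cube_add {V M ι : Type*} [AddCommGroup V] [AddCommMonoid M] (s : Finset ι) (h : ι → V)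
    (φ φ' : V → M) (x : V) :
    cube s h (fun x => φ x + φ' x) x = cube s h φ x + cube s h φ' x :=
  Finset.sum_add_distrib

variable [CharP F 2] [CharP K 2] {e : K → ℝ} (he : IsChar F e)

include he in
theorem phase2 {J : Type*} [Fintype J] (α σ w v Γ γ δ : F[X])
    (hv : v ≠ 0) {P : F[X]} (hP : P.Monic) (hPi : Irreducible P)
    (hi₀ : P ∣ v) (hw : ¬ P ∣ derivative w) (hα : ¬ P ∣ α) (Q : J → F[X])
    (hQ : ∀ j, ¬ P ∣ Q j) {ρ n : ℕ} (hQn : ∀ j, (Q j).natDegree + ρ ≤ n)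
    (hρ : P.natDegree ≤ ρ) (hn : P.natDegree + ρ ≤ n)
    (hcov : ∀ t : K, aeval t v = 0 → aeval t P ≠ 0 → ∃ j, aeval t (Q j) = 0)
    {η : ℝ} (hη : 0 ≤ η) (hη' : 4 / (Fintype.card F : ℝ) ^ P.natDegree ≤ η ^ 2) :
    |𝔼 x : degreeLT F n, e (∑ z ∈ rts K v,
      (ph (α * x.1 + σ) w z + aeval z Γ / aeval z (γ * x.1 + δ)))| ^ 2 ^ (Fintype.card J * 3) ≤
      4 * 2 ^ (Fintype.card J * 3) / (Fintype.card F : ℝ) ^ P.natDegree + η := by
  classical
  have : Fact (Irreducible P) := ⟨hPi⟩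
  have : FiniteDimensional F (AdjoinRoot P) := (AdjoinRoot.powerBasis hP.ne_zero).finite
  have : Finite (AdjoinRoot P) := Module.finite_of_finite F
  let : Fintype (AdjoinRoot P) := Fintype.ofFinite _
  have : CharP (AdjoinRoot P) 2 :=
    charP_of_injective_algebraMap (algebraMap F (AdjoinRoot P)).injective 2
  have hcard : (Fintype.card F : ℝ) ^ P.natDegree ≤ Fintype.card (AdjoinRoot P) := by
    rw [Module.card_eq_pow_finrank (K := F) (V := AdjoinRoot P),
      (AdjoinRoot.powerBasis hP.ne_zero).finrank,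
      AdjoinRoot.powerBasis_dim]
    exact_mod_cast le_rfl
  have hq := card_pos' (F := F)
  set τ := AdjoinRoot.root P with hτ
  have hev : ∀ g : F[X], aeval τ g = 0 ↔ P ∣ g := fun g => by
    rw [hτ, AdjoinRoot.aeval_eq, AdjoinRoot.mk_eq_zero]
  set θ : J × Fin 3 → degreeLT F ρ →+ degreeLT F n := fun j => mulLT (Q j.1) (hQn j.1) with hθ
  set ψ : AdjoinRoot P → ℝ := fun z => e (algebraMap F K (Algebra.trace F (AdjoinRoot P) z))
    with hψ
  have h1 := vdc e he.add θ (fun x : degreeLT F n => ∑ z ∈ rts K v,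
    (ph (α * x.1 + σ) w z + aeval z Γ / aeval z (γ * x.1 + δ))) univ
  rw [card_univ, Fintype.card_prod, Fintype.card_fin] at h1
  have hα₀ : aeval τ α ≠ 0 := fun h => hα ((hev _).1 h)
  have h2 := local_bound2 (ψ := ψ) (fun a b => by simp only [hψ, map_add, he.add])
    (fun a => he.abs_le _)
    (fun a => by
      simp only [hψ]
      rw [← he.sq_algebraMap (Algebra.trace F _ a), map_pow (algebraMap F K),
        trace_eq_sum_embeddings K, trace_eq_sum_embeddings K, CharTwo.sum_sq]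
      simp only [map_pow])
    (by
      obtain ⟨ν, hν⟩ := he.exists_neg
      obtain ⟨z, rfl⟩ := Algebra.trace_surjective F (AdjoinRoot P) ν
      exact ⟨z, hν⟩)
    (evLT n τ) (dvLT n τ)
    (fun z => by
      obtain ⟨y, hy⟩ := exists_rep hP (ρ := n) (by omega) one_ne_zero z
      exact ⟨y, by rw [evLT_apply, ← hy, one_mul]⟩)
    θ (fun j z => by
      obtain ⟨y, hy⟩ := exists_rep hP hρ (c := aeval τ (Q j.1)) (fun h => hQ _ ((hev _).1 h)) z
      exact ⟨y, by rw [AddMonoidHom.comp_apply, evLT_apply, hθ, mulLT_apply, map_mul, hy]⟩)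
    (mulLT P hn) (fun r => by rw [evLT_apply, mulLT_apply, hev]; exact dvd_mul_right _ _)
    (fun z => by
      obtain ⟨y, hy⟩ := exists_rep hP hρ (c := aeval τ (derivative P)) (fun h => hPi.not_isUnit
        (IsCoprime.isUnit_of_dvd (PerfectField.separable_of_irreducible hPi) ((hev _).1 h))) z
      refine ⟨y, ?_⟩
      rw [AddMonoidHom.comp_apply, dvLT_apply, mulLT_apply, derivative_mul, map_add, map_mul,
        map_mul, (hev P).2 dvd_rfl, zero_mul, add_zero, hy])
    (univ : Finset Unit) (fun _ z => (aeval τ (derivative α) * z + aeval τ (derivative σ)) ^ 2 +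
      τ * aeval τ (derivative w) ^ 2) (fun _ z => aeval τ Γ / (aeval τ γ * z + aeval τ δ))
    (fun _ => aeval τ α) (fun _ => aeval τ (derivative w) ^ 4) (fun _ => aeval τ σ)
    (fun _ _ => hα₀) (i₀ := ()) (mem_univ _)
    (pow_ne_zero _ fun h => hw ((hev _).1 h)) (z₀ := -aeval τ σ / aeval τ α)
    (by field_simp; ring) (fun i _ hne => absurd rfl hne) hη (le_trans (by gcongr) hη')
  refine h1.trans (le_trans (le_of_eq ?_) (h2.trans ?_))
  · refine Finset.expect_congr rfl fun y _ => ?_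
    congr 1
    refine Finset.expect_congr rfl fun x _ => ?_
    simp only [hψ]
    congr 1
    have e1 : ∀ (s : Finset (J × Fin 3)) (φ : K → degreeLT F n → K),
        cube s (fun j => θ j (y j)) (fun x => ∑ z ∈ rts K v, φ z x) x =
        ∑ z ∈ rts K v, cube s (fun j => θ j (y j)) (φ z) x := by
      intro s φ
      unfold cube
      rw [Finset.sum_comm]
    rw [e1 univ fun z x => ph (α * x.1 + σ) w z + aeval z Γ / aeval z (γ * x.1 + δ)]
    have kill : ∀ z ∈ rts K v, aeval z P ≠ 0 → cube univ (fun j => θ j (y j))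
        (fun x : degreeLT F n => ph (α * x.1 + σ) w z + aeval z Γ / aeval z (γ * x.1 + δ)) x =
        0 := by
      intro z hz hzP
      obtain ⟨j, hj⟩ := hcov z ((mem_rts hv).1 hz) hzP
      have hz0 : ∀ l, evLT n z (θ (j, l) (y (j, l))) = 0 := fun l => by
        rw [evLT_apply, hθ, mulLT_apply, map_mul, hj, zero_mul]
      rw [cube_add, cube_eq_zero (subset_univ {(j, 0), (j, 1), (j, 2)}) _ _ (fun x => ?_) x,
        cube_eq_zero (subset_univ {(j, 0)}) _ _ (fun x => ?_) x, add_zero]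
      · have h0 : aeval z (θ (j, 0) (y (j, 0))).1 = 0 := hz0 0
        rw [← insert_empty_eq, cube_insert (notMem_empty _), cube_empty, cube_empty]
        simp only [Submodule.coe_add, map_add, map_mul, h0, add_zero]
        exact CharTwo.add_self_eq_zero _
      · simp only [ph_eq]
        exact cube_three (evLT n z) (dvLT n z) (fun j => θ j (y j)) (i := (j, 0)) (j := (j, 1))
          (l := (j, 2)) (by simp) (by simp) (by simp) (hz0 0) (hz0 1)
          (hz0 2) (fun a => (aeval z (derivative α) * a + aeval z (derivative σ)) ^ 2 +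
            z * aeval z (derivative w) ^ 2)
          (fun a => aeval z (derivative w) ^ 4 * (aeval z α * a + aeval z σ) ^ 2) _ x
    rw [← Finset.sum_subset (s₁ := rts K P) (fun z hz => ?_) fun z hz hz' =>
      kill z hz fun h0 => hz' ((mem_rts hP.ne_zero).2 h0)]
    · unfold cube
      rw [Finset.sum_comm, map_sum, map_sum]
      refine Finset.sum_congr rfl fun ω _ => ?_
      beta_reduce
      rw [sum_rts_eq_trace2, ph_eq, Fintype.sum_unique, map_add (aeval _), map_mul (aeval _)]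
      rfl
    · obtain ⟨c, hc⟩ := hi₀
      rw [mem_rts hv, hc, map_mul, (mem_rts hP.ne_zero).1 hz, zero_mul]
  · rw [Fintype.card_prod, Fintype.card_fin, card_univ, Fintype.card_unit, Nat.cast_one, mul_one]
    gcongr

end QKey

variable {F : Type*} [Field F] [Fintype F] [CharP F 2]

theorem key_tw2 {e : F → ℝ} (he : Chr e) {J : Type*} [Fintype J] [Nonempty J] {α σ u v Γ : F[X]}
    (hu : u.Monic) (hv : v.Monic) (hsep : v.Separable) (huv : IsCoprime u v)
    (huα : u ^ 2 ∣ α) {P : F[X]} (hP : P.Monic) (hPi : Irreducible P)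
    (hi₀ : P ∣ v) (hα : ¬ P ∣ α) (Q : J → F[X])
    (hQ : ∀ j, ¬ P ∣ Q j) {ρ n : ℕ} (hQn : ∀ j, (Q j).natDegree + ρ ≤ n)
    (hρ : P.natDegree ≤ ρ) (hn : P.natDegree + ρ ≤ n)
    (hcov : ∀ R, Irreducible R → R ∣ v → R ∣ P ∨ ∃ j, R ∣ Q j)
    (hd : ∀ x : degreeLT F n, (α * x.1 + σ).natDegree ≤ (u * v).natDegree)
    {η B : ℝ} (hη : 0 ≤ η) (hη' : 4 / (Fintype.card F : ℝ) ^ P.natDegree ≤ η ^ 2) (hB : 0 ≤ B)
    (hB' : 4 * 2 ^ (Fintype.card J * 3) / (Fintype.card F : ℝ) ^ P.natDegree + η ≤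
      B ^ 2 ^ (Fintype.card J * 3)) (Z : degreeLT F n → F[X])
    (hZ : ∀ x : degreeLT F n, IsCoprime (α * x.1 + σ) v → v ∣ (α * x.1 + σ) * Z x - Γ) :
    |𝔼 x : degreeLT F n, (liou ((α * x.1 + σ) ^ 2 + X * (u * v) ^ 2) : ℝ) *
        e (SFour.res (Z x) v)| ≤
      2 * 𝔼 x : degreeLT F n, ind (¬ IsCoprime (α * x.1 + σ) v) + B := by
  obtain ⟨ε, hε⟩ := exists_isChar F (AlgebraicClosure F)
  obtain ⟨δ, α', σ', u', h₁, h₂, h₃, h₄⟩ := cmp_three hε (σ := σ) hu hv hsep huv huα
  have h5 := QKey.phase2 hε α' σ' (u' * v) v Γ (derivative v * α) (derivative v * σ)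
    hv.ne_zero hP hPi hi₀
    (fun h => by
      rw [derivative_mul, dvd_add_right (hi₀.mul_left _)] at h
      rcases hPi.prime.dvd_or_dvd h with h | h
      · exact hPi.not_isUnit (huv.isUnit_of_dvd' (h₃ ▸ h.mul_left _) hi₀)
      · exact hPi.not_isUnit (IsCoprime.isUnit_of_dvd' hsep hi₀ h))
    (fun h => hα (h₁ ▸ h.mul_left _)) Q hQ hQn hρ hn
    (fun t ht htP => by
      have hint : IsIntegral F t := ⟨v, hv, ht⟩
      rcases hcov _ (minpoly.irreducible hint) (minpoly.dvd F t ht) with h | ⟨j, h⟩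
      · exact absurd (minpoly.dvd_iff.1 h) htP
      · exact ⟨j, minpoly.dvd_iff.1 h⟩)
    hη hη'
  have h6 : ∀ x : degreeLT F n, IsCoprime (α * x.1 + σ) v → e (SFour.res (Z x) v) =
      ε (∑ z ∈ rts _ v, aeval z Γ / aeval z (derivative v * α * x.1 + derivative v * σ)) := by
    intro x hx
    rw [chr_of_isChar hε he, QKey.res_eq_sum hv hsep]
    congr 1
    refine Finset.sum_congr rfl fun z hz => ?_
    have h0 := (mem_rts hv.ne_zero).1 hz
    obtain ⟨c, hc⟩ := hZ x hx
    have h7 := congrArg (aeval z) hc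
    rw [map_mul _ v, h0, zero_mul, map_sub, map_mul, sub_eq_zero] at h7
    have h8 : aeval z (α * x.1 + σ) ≠ 0 := fun h => by
      obtain ⟨a, b, hab⟩ := hx
      have := congrArg (aeval z) hab
      rw [map_add, map_mul, map_mul, h, h0, map_one, mul_zero, mul_zero, add_zero] at this
      exact zero_ne_one this
    rw [mul_assoc, ← mul_add, map_mul, ← h7, mul_comm (aeval z (derivative v)),
      mul_div_mul_left _ _ h8]
  refine (abs_expect_le_of_good _ (fun x : degreeLT F n => ε (∑ z ∈ rts _ v,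
    (ph (α' * x.1 + σ') (u' * v) z +
      aeval z Γ / aeval z (derivative v * α * x.1 + derivative v * σ)))) _ (fun x => ?_)
    (fun x => hε.sign _) (fun x y hx hy => ?_)).trans (add_le_add le_rfl ?_)
  · rcases liou_cases ((α * x.1 + σ) ^ 2 + X * (u * v) ^ 2) with h | h <;>
      rcases he.sign (SFour.res (Z x) v) with h' | h' <;> simp [h, h']
  · push Not at hx hy
    rw [Finset.sum_add_distrib, Finset.sum_add_distrib, hε.add, hε.add, ← h6 x hx, ← h6 y hy]
    linear_combination (e (SFour.res (Z x) v) * e (SFour.res (Z y) v)) *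
      h₄ x y (hd x) (hd y) hx hy
  · exact (pow_le_pow_iff_left₀ (abs_nonneg _) hB (by positivity)).1 (h5.trans hB')

end Pool.Agent.MP_f37147_nt
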