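import Mathlib
import Pool.Agent.MP_f37147_nt.QKey
import Pool.Agent.MP_c853c5_nt.SLine

/- The twisted Moebius function along lines. -/

set_option autoImplicit false

namespace Pool.Agent.MP_f37147_nt

open Polynomial Finset Pool.Agent.MP_4fffd4_nt Pool.Agent.MP_c853c5_nt
open scoped BigOperators

variable {F : Type*} [Field F] [Fintype F] [CharP F 2]

namespace QLine

open SLine SFour

omit [Fintype F] [CharP F 2] in
theorem cancel {D a s v φ W T : F[X]} (hD : Squarefree D) (hDa : IsCoprime D a)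
    (h : D * T = a * s * (v * φ + s * W)) (hφ : ∀ δ, δ ∣ D → δ ∣ s → δ ∣ φ) : a * s ∣ T := by
  classical
  obtain ⟨D', s', h1, h2, h3⟩ := extract_gcd D s
  obtain ⟨φ', h4⟩ := hφ _ (gcd_dvd_left D s) (gcd_dvd_right D s)
  generalize gcd D s = δ at h1 h2 h4
  have h0 : δ ≠ 0 := fun e => hD.ne_zero (by rw [h1, e, zero_mul])
  have h5 : IsCoprime D' (a * s) := by
    refine (IsCoprime.of_mul_left_right (h1 ▸ hDa)).mul_right ?_
    rw [h2]
    rw [h1] at hD
    exact (squarefree_mul_iff.1 hD).1.isCoprime.symm.mul_right ((gcd_isUnit_iff _ _).1 h3)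
  refine h5.symm.dvd_of_dvd_mul_left ⟨v * φ' + s' * W, mul_left_cancel₀ h0 ?_⟩
  linear_combination h - T * h1 + a * s * v * h4 + a * s * W * h2

theorem md_eq {e : F → ℝ} {i j : ℕ} {A D a c h y w κ : F[X]} (hD : D.Monic)
    (hi : D.natDegree = i) (hs : Squarefree D) (hDa : IsCoprime D a) (ha : a.Monic) (hw : w.Monic)
    (hy : D * A = y ^ 2 + X * w ^ 2) (hκ : a * c = κ ^ 2 + X * od (a * c) ^ 2)
    (hyw : y.natDegree ≤ w.natDegree) (hh : h.degree < j)
    (hj : j + a.natDegree + c.natDegree + 1 ≤ i) :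
    ∃ f Z, D ∣ a * f ^ 2 + c ∧ a * w * f = y * od (a * c) + κ * w + D * Z ∧
      md e a c h i D = liou D * e (res (h * Z) (a * w)) := by
  have h2 : (2 : F[X]) = 0 := by exact_mod_cast CharP.cast_eq_zero F[X] 2
  obtain ⟨f₀, hf₀⟩ := sol_exists c hs hDa
  have hd : D.degree = i := by rw [degree_eq_natDegree hD.ne_zero, hi]
  have hf : D ∣ a * (f₀ %ₘ D) ^ 2 + c := by
    have := modByMonic_add_div f₀ D
    obtain ⟨z, hz⟩ := hf₀
    exact ⟨z - a * (f₀ /ₘ D) * (f₀ + f₀ %ₘ D), by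
      linear_combination hz + a * (f₀ + f₀ %ₘ D) * this⟩
  have hlt : (f₀ %ₘ D).degree < i := hd ▸ degree_modByMonic_lt f₀ hD
  generalize f₀ %ₘ D = f at hf hlt
  have hm : 2 * (od (a * c)).natDegree ≤ (a * c).natDegree - 1 := by
    rw [← natDegree_pow, od_sq]; exact natDegree_derivative_le _
  set m := od (a * c)
  obtain ⟨Z, hZ⟩ : D ∣ a * w * f - (y * m + κ * w) := by
    refine (hs.dvd_pow_iff_dvd two_ne_zero).1 ?_
    obtain ⟨z, hz⟩ := hf
    refine ⟨a * w ^ 2 * z + A * m ^ 2, ?_⟩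
    linear_combination a * w ^ 2 * hz - m ^ 2 * hy - w ^ 2 * hκ +
      (y * m * κ * w - a * w * f * (y * m + κ * w) - X * w ^ 2 * m ^ 2) * h2
  refine ⟨f, Z, hf, by linear_combination hZ, ?_⟩
  have hk : 2 * κ.natDegree ≤ (a * c).natDegree + 1 := by
    have h3 := natDegree_sub_le (a * c) (X * m ^ 2)
    have h4 : (X * m ^ 2).natDegree ≤ _ := natDegree_mul_le
    rw [natDegree_X, natDegree_pow] at h4
    rw [show a * c - X * m ^ 2 = κ ^ 2 by linear_combination hκ, natDegree_pow] at h3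
    omega
  have hac : (a * c).natDegree ≤ _ := natDegree_mul_le
  have h3 : (y * m + κ * w).degree < (w.natDegree + a.natDegree + c.natDegree + 1 : ℕ) := by
    have h4 := natDegree_add_le (y * m) (κ * w)
    have h5 : (y * m).natDegree ≤ _ := natDegree_mul_le
    have h6 : (κ * w).natDegree ≤ _ := natDegree_mul_le
    exact degree_le_natDegree.trans_lt (Nat.cast_lt.2 (by omega))
  rw [md, mu, if_pos hs, Finset.sum_eq_single_of_mem f (mem_ltF.2 hlt) fun g hg hne => ?_,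
    ind_pos hf, one_mul, ← res_mul _ hD (ha.mul hw), show h * f * (a * w) =
      h * (y * m + κ * w) + h * Z * D by linear_combination h * hZ, res_add,
    res_eq_zero (hD.mul (ha.mul hw)) ((degree_mul_lt hh h3).trans_le ?_), zero_add,
    mul_comm D, res_mul _ (ha.mul hw) hD]
  · rw [hD.natDegree_mul (ha.mul hw), ha.natDegree_mul hw, hi]
    exact Nat.cast_le.2 (by omega)
  · rw [ind_neg fun h' => hne (sub_eq_zero.1 (eq_zero_of_dvd_of_degree_lt
      (sol_unique hs hDa h' hf) ?_)), zero_mul]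
    rw [hd]
    exact (degree_sub_le _ _).trans_lt (max_lt (mem_ltF.1 hg) hlt)

omit [CharP F 2] in
theorem md_eq_zero {e : F → ℝ} {i : ℕ} {D a c h : F[X]} (hac : IsCoprime a c)
    (hD : ¬ (Squarefree D ∧ IsCoprime D a)) : md e a c h i D = 0 := by
  by_cases hs : Squarefree D
  · rw [md, Finset.sum_eq_zero fun f _ => ?_, mul_zero]
    rw [ind_neg fun h' => hD ⟨hs, coprime_of_sol hac h'⟩, zero_mul]
  · rw [md, mu, if_neg hs, zero_mul]

theorem local_line {e : F → ℝ} (he : Chr e) {d u r b i j₀ : ℕ} {A G v s a c h : F[X]} (hu : 1 ≤ u) (hr : r < d) (hA : A.Monic)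
    (hG : G.Monic) (hi : G.natDegree = i) (hv : v ∈ goodV F d u) (hs : s ∈ monF F r)
    (hN : i + A.natDegree = 2 * (v.natDegree + r) + 1) (hW : v * s = od (G * A))
    (hl : A.natDegree + 4 * r + 2 * a.natDegree + 4 * (d + u) ≤ i)
    (hb : 2 * b * 8 ^ u + 3 * u + 4 ≤ d) (ha : a.Monic) (hac : IsCoprime a c)
    (had : a.natDegree < d) (hh : h.degree < j₀) (hj : j₀ + a.natDegree + c.natDegree + 1 ≤ i) :
    |𝔼 x : degreeLT F (2 * (d + u)), md e a c h i (G + (s ^ 2 * a * x.1) ^ 2 * A)| ≤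
      4 * 𝔼 x : degreeLT F (2 * (d + u)), ind (Bad d u ((G + (s ^ 2 * a * x.1) ^ 2 * A) * A)) +
        1 / (Fintype.card F : ℝ) ^ b := by
  have hq := card_pos' (F := F)
  have hq2 := two_le_card (F := F)
  have hq1 : (1 : ℝ) ≤ Fintype.card F := one_le_two.trans hq2
  obtain ⟨hvm, -, -⟩ := goodV_spec hv
  obtain ⟨P, hP, hPv⟩ := mem_goodV.1 hv
  obtain ⟨hs1, hs2⟩ := mem_monF.1 hs
  obtain ⟨σ, hσ⟩ := exists_od (G * A)
  rw [← hW] at hσ
  have e1 : ∀ x : F[X], (G + (s ^ 2 * a * x) ^ 2 * A) * A =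
      (s ^ 2 * (a * A) * x + σ) ^ 2 + X * (s * v) ^ 2 := fun x => by
    rw [add_mul, hσ, CharTwo.add_sq]; ring
  have hPd : ∀ j, P j ∣ v := fun j => hPv ▸ Finset.dvd_prod_of_mem _ (mem_univ j)
  have hbad : ∀ (x : F[X]) j, P j ∣ s ^ 2 * (a * A) * x + σ →
      Bad d u ((G + (s ^ 2 * a * x) ^ 2 * A) * A) := fun x j h =>
    ⟨P j, (hP j).1, (hP j).2.2, by rw [(hP j).2.1]; omega, by rw [(hP j).2.1]; omega, by
      rw [e1]
      exact dvd_add (pow_dvd_pow_of_dvd h 2)
        ((pow_dvd_pow_of_dvd ((hPd j).mul_left s) 2).mul_left _)⟩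
  have hmon : ∀ x : degreeLT F (2 * (d + u)), (G + (s ^ 2 * a * x.1) ^ 2 * A).Monic ∧
      (G + (s ^ 2 * a * x.1) ^ 2 * A).natDegree = i := fun x => by
    have : ((s ^ 2 * a * x.1) ^ 2 * A).degree < G.degree := by
      by_cases hx : x.1 = 0
      · rw [hx, mul_zero, zero_pow two_ne_zero, zero_mul, degree_zero]
        exact bot_lt_iff_ne_bot.2 (degree_ne_bot.2 hG.ne_zero)
      have h1 := (natDegree_lt_iff_degree_lt hx).2 (mem_degreeLT.1 x.2)
      refine degree_lt_degree ?_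
      rw [mul_comm _ A, hA.natDegree_mul' (pow_ne_zero _
        (mul_ne_zero ((hs1.pow 2).mul ha).ne_zero hx)), natDegree_pow,
        ((hs1.pow 2).mul ha).natDegree_mul' hx, (hs1.pow 2).natDegree_mul ha, natDegree_pow]
      omega
    exact ⟨hG.add_of_left this, by rw [natDegree_add_eq_left_of_degree_lt this, hi]⟩
  have hle : ∀ x : degreeLT F (2 * (d + u)), |md e a c h i (G + (s ^ 2 * a * x.1) ^ 2 * A)| ≤ 1 :=
    fun x => abs_md_le he hac h (hmon x).2
  by_cases h0 : P 0 ∣ A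
  · have : ∀ x : degreeLT F (2 * (d + u)),
        ind (Bad d u ((G + (s ^ 2 * a * x.1) ^ 2 * A) * A)) = 1 := fun x => by
      refine ind_pos (hbad x.1 0 ((hP 0).2.2.prime.dvd_of_dvd_pow (n := 2) ?_))
      have h1 : P 0 ∣ (G + (s ^ 2 * a * x.1) ^ 2 * A) * A := h0.mul_left _
      rw [e1] at h1
      exact (dvd_add_left ((dvd_pow ((hPd 0).mul_left s) two_ne_zero).mul_left _)).1 h1
    simp only [this, Fintype.expect_const]
    refine ((Finset.abs_expect_le _ _).trans (Finset.expect_le univ_nonempty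
      fun x _ => hle x)).trans ?_
    have : 0 ≤ 1 / (Fintype.card F : ℝ) ^ b := by positivity
    linarith
  have hns : ∀ j, ¬ P j ∣ s := fun j h => by
    have := natDegree_le_of_dvd h hs1.ne_zero
    rw [(hP j).2.1] at this
    omega
  have hne : ∀ j j', P j ∣ P j' → j = j' := fun j j' h => by
    have := eq_of_monic_of_associated (hP j).1 (hP j').1
      ((hP j).2.2.associated_of_dvd (hP j').2.2 h)
    have := congrArg natDegree this
    rw [(hP j).2.1, (hP j').2.1] at this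
    exact Fin.ext (by omega)
  have hna : ∀ j, ¬ P j ∣ a := fun j h => by
    have := natDegree_le_of_dvd h ha.ne_zero
    rw [(hP j).2.1] at this
    omega
  have hsv : IsCoprime s v :=
    hPv ▸ IsCoprime.prod_right fun j _ => ((hP j).2.2.coprime_iff_not_dvd.2 (hns j)).symm
  have hav : IsCoprime a v :=
    hPv ▸ IsCoprime.prod_right fun j _ => ((hP j).2.2.coprime_iff_not_dvd.2 (hna j)).symm
  obtain ⟨E₂, E₁, hE⟩ := hav.mul_left hsv
  obtain ⟨κ, hκ⟩ := exists_od (a * c)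
  have h2F : (2 : F[X]) = 0 := by exact_mod_cast CharP.cast_eq_zero F[X] 2
  have hZe : ∀ x : degreeLT F (2 * (d + u)), ∃ z, IsCoprime (s ^ 2 * (a * A) * x.1 + σ) v →
      v ∣ (s ^ 2 * (a * A) * x.1 + σ) * z - h * E₂ * od (a * c) * A := fun x => by
    by_cases hx : IsCoprime (s ^ 2 * (a * A) * x.1 + σ) v
    · obtain ⟨p, q, hpq⟩ := hx
      exact ⟨p * (h * E₂ * od (a * c) * A), fun _ => ⟨-q * (h * E₂ * od (a * c) * A), by
        linear_combination (h * E₂ * od (a * c) * A) * hpq⟩⟩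
    · exact ⟨0, fun h => (hx h).elim⟩
  choose Z hZ using hZe
  have hdeg : ∀ x : degreeLT F (2 * (d + u)),
      (s ^ 2 * (a * A) * x.1 + σ).natDegree ≤ (s * v).natDegree := fun x => by
    have h1 : (s ^ 2 * (a * A) * x.1 + σ) ^ 2 =
        (G + (s ^ 2 * a * x.1) ^ 2 * A) * A - X * (s * v) ^ 2 := by rw [e1]; ring
    have h2 := natDegree_sub_le ((G + (s ^ 2 * a * x.1) ^ 2 * A) * A) (X * (s * v) ^ 2)
    rw [← h1, natDegree_pow, (hmon x).1.natDegree_mul hA, (hmon x).2,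
      monic_X.natDegree_mul ((hs1.mul hvm).pow 2), natDegree_X, natDegree_pow,
      hs1.natDegree_mul hvm] at h2
    rw [hs1.natDegree_mul hvm]
    omega
  have h8 : 2 ^ (Fintype.card (Fin u) * 3) = 8 ^ u := by
    rw [Fintype.card_fin, mul_comm, pow_mul]; norm_num
  have : Nonempty (Fin u) := ⟨⟨0, hu⟩⟩
  have hk := key_tw2 he (J := Fin u) (α := s ^ 2 * (a * A)) (σ := σ) hs1 hvm
    (hPv ▸ separable_prod (fun j j' h => (hP j).2.2.coprime_iff_not_dvd.2 fun e => h (hne _ _ e))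
      fun j => PerfectField.separable_of_irreducible (hP j).2.2)
    hsv (dvd_mul_right _ _) (hP 0).1 (hP 0).2.2 (hPd 0)
    (fun h => ((hP 0).2.2.prime.dvd_or_dvd h).elim
      (fun h => hns 0 ((hP 0).2.2.prime.dvd_of_dvd_pow h))
      fun h => ((hP 0).2.2.prime.dvd_or_dvd h).elim (hna 0) h0)
    (fun j => P j.succ) (fun j h => Fin.succ_ne_zero j (hne _ _ h).symm) (ρ := d + u)
    (n := 2 * (d + u)) (fun j => by rw [(hP _).2.1]; have := j.succ.2; omega)
    (by rw [(hP 0).2.1]; simp) (by rw [(hP 0).2.1]; simp; omega)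
    (fun R hR h => by
      rw [← hPv, Fin.prod_univ_succ] at h
      refine (hR.prime.dvd_or_dvd h).imp_right fun h => ?_
      obtain ⟨j, -, hj⟩ := (hR.prime.dvd_finsetProd_iff _).1 h
      exact ⟨j, hj⟩)
    hdeg
    (η := 1 / (2 * (Fintype.card F : ℝ) ^ (b * 8 ^ u))) (B := 1 / (Fintype.card F : ℝ) ^ b)
    (by positivity)
    (by
      rw [(hP 0).2.1, div_pow, div_le_div_iff₀ (by positivity) (by positivity), mul_pow, ← pow_mul]
      calc _ = 2 ^ 4 * (Fintype.card F : ℝ) ^ (b * 8 ^ u * 2) := by ring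
        _ ≤ (Fintype.card F : ℝ) ^ 4 * (Fintype.card F : ℝ) ^ (b * 8 ^ u * 2) := by gcongr
        _ ≤ _ := by
          rw [← pow_add, one_pow, one_mul]
          exact pow_le_pow_right₀ hq1 (by simp; nlinarith))
    (by positivity)
    (by
      rw [h8, (hP 0).2.1, Fintype.card_fin, one_div_pow, ← pow_mul]
      have : 4 * 2 ^ (u * 3) / (Fintype.card F : ℝ) ^ (d + ((0 : Fin (u + 1)) : ℕ)) ≤
          1 / (2 * (Fintype.card F : ℝ) ^ (b * 8 ^ u)) := by
        rw [div_le_div_iff₀ (by positivity) (by positivity)]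
        calc _ = 2 ^ (u * 3 + 3) * (Fintype.card F : ℝ) ^ (b * 8 ^ u) := by ring
          _ ≤ (Fintype.card F : ℝ) ^ (u * 3 + 3) * (Fintype.card F : ℝ) ^ (b * 8 ^ u) := by gcongr
          _ ≤ _ := by
            rw [← pow_add, one_mul]
            rw [mul_assoc] at hb
            exact pow_le_pow_right₀ hq1 (by simp; omega)
      refine (add_le_add this le_rfl).trans_eq ?_
      field_simp
      norm_num)
    Z hZ
  have hcop : ∀ x : degreeLT F (2 * (d + u)), ind (¬ IsCoprime (s ^ 2 * (a * A) * x.1 + σ) v) ≤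
      ind (Bad d u ((G + (s ^ 2 * a * x.1) ^ 2 * A) * A)) := fun x => ind_mono fun h => by
    by_contra hb
    exact h (hPv ▸ IsCoprime.prod_right fun j _ =>
      ((hP j).2.2.coprime_iff_not_dvd.2 fun e => hb (hbad _ j e)).symm)
  have hsq : ∀ R : F[X], R ∣ s → ∀ x : F[X], R * R ∣ (s ^ 2 * a * x) ^ 2 * A := fun R h x =>
    (mul_dvd_mul h h).trans ⟨s ^ 2 * a ^ 2 * x ^ 2 * A, by ring⟩
  have hmd := fun (x : degreeLT F (2 * (d + u))) h1 h2 => md_eq (e := e) (hmon x).1 (hmon x).2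
    h1 h2 ha (hs1.mul hvm) (e1 x.1) hκ (hdeg x) hh hj
  obtain ⟨k, hc1, hc⟩ : ∃ k : ℝ, |k| ≤ 1 ∧ ∀ x : degreeLT F (2 * (d + u)),
      IsCoprime (s ^ 2 * (a * A) * x.1 + σ) v → md e a c h i (G + (s ^ 2 * a * x.1) ^ 2 * A) =
      k * ((liou ((s ^ 2 * (a * A) * x.1 + σ) ^ 2 + X * (s * v) ^ 2) : ℝ) *
        e (res (Z x) v)) := by
    by_cases hx₀ : ∃ x : degreeLT F (2 * (d + u)), Squarefree (G + (s ^ 2 * a * x.1) ^ 2 * A) ∧
      IsCoprime (G + (s ^ 2 * a * x.1) ^ 2 * A) a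
    swap
    · exact ⟨0, by simp, fun x _ => by rw [md_eq_zero hac fun h => hx₀ ⟨x, h⟩, zero_mul]⟩
    obtain ⟨y, hy1, hy2⟩ := hx₀
    obtain ⟨g, T, hg, hT, -⟩ := hmd y hy1 hy2
    refine ⟨liou A * e (res (h * T * E₁) (a * s)), ?_, fun x hx => ?_⟩
    · rw [abs_mul, he.toSgn.abs_eq, mul_one]
      rcases liou_cases A with h | h <;> simp [h]
    have h1 : Squarefree (G + (s ^ 2 * a * x.1) ^ 2 * A) := by
      rw [squarefree_iff_irreducible_sq_not_dvd_of_ne_zero (hmon x).1.ne_zero]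
      intro R hR hRG
      have h3 : R ^ 2 ∣ (G + (s ^ 2 * a * x.1) ^ 2 * A) * A := sq R ▸ hRG.mul_right A
      have h4 : R ∣ v * s := by
        have := dvd_od h3
        rwa [e1, od_eq (derivative_odd _ _), mul_comm] at this
      have h5 : R ∣ s ^ 2 * (a * A) * x.1 + σ := by
        rw [e1, mul_comm s v] at h3
        exact hR.prime.dvd_of_dvd_pow (n := 2) ((dvd_add_left
          ((dvd_pow h4 two_ne_zero).mul_left _)).1 ((dvd_pow_self R two_ne_zero).trans h3))
      rcases hR.prime.dvd_or_dvd h4 with h6 | h6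
      · exact hR.not_isUnit (hx.isUnit_of_dvd' h5 h6)
      · exact hR.not_isUnit (hy1 R (dvd_add ((dvd_add_left (hsq R h6 _)).1 hRG) (hsq R h6 _)))
    have h2 : IsCoprime (G + (s ^ 2 * a * x.1) ^ 2 * A) a := by
      obtain ⟨p, q, hpq⟩ := hy2
      exact ⟨p, q + p * s ^ 4 * a * A * (y.1 ^ 2 - x.1 ^ 2), by linear_combination hpq⟩
    obtain ⟨f, S, hf, hS, hm⟩ := hmd x h1 h2
    have h3 : a * s ∣ S - T := by
      refine cancel (v := v) (φ := f - g) (W := s ^ 2 * a * A * T * (y.1 ^ 2 - x.1 ^ 2) +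
        A * od (a * c) * (y.1 - x.1)) h1 h2 (by linear_combination hT - hS) fun δ h3 h4 => ?_
      refine sol_unique (h1.squarefree_of_dvd h3) (h2.of_isCoprime_of_dvd_left h3) (h3.trans hf)
        (dvd_trans ?_ hg)
      exact dvd_add ((dvd_add_left ((dvd_mul_right δ δ).trans (hsq δ h4 _))).1 h3)
        ((dvd_mul_right δ δ).trans (hsq δ h4 _))
    have h4 : v ∣ h * S * E₂ - Z x := by
      refine hx.symm.dvd_of_dvd_mul_left ?_
      have h5 : v ∣ (s ^ 2 * (a * A) * x.1 + σ) * S - od (a * c) * A := by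
        refine hx.symm.dvd_of_dvd_mul_left ⟨A * s * (a * f - κ) - X * s ^ 2 * v * S, ?_⟩
        linear_combination -A * hS - S * e1 x.1 -
          (s ^ 2 * (a * A) * x.1 + σ) * od (a * c) * A * h2F
      have := dvd_sub (h5.mul_left (h * E₂)) (hZ x hx)
      rwa [show _ - _ = (s ^ 2 * (a * A) * x.1 + σ) * (h * S * E₂ - Z x) by ring] at this
    rw [hm, ← e1, liou_mul (hmon x).1.ne_zero hA.ne_zero, show h * S = h * S * E₁ * v +
      h * S * E₂ * (a * s) by linear_combination -(h * S) * hE, ← mul_assoc a, res_add,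
      res_mul _ (ha.mul hs1) hvm, mul_comm (a * s) v, res_mul _ hvm (ha.mul hs1), he.add,
      res_congr hvm h4, res_congr (a' := h * T * E₁) (ha.mul hs1)
        (by rw [show _ - _ = h * E₁ * (S - T) by ring]; exact h3.mul_left _)]
    rcases liou_cases A with h | h <;> simp [h] <;> ring
  have hpt : ∀ x : degreeLT F (2 * (d + u)), |md e a c h i (G + (s ^ 2 * a * x.1) ^ 2 * A) -
      k * ((liou ((s ^ 2 * (a * A) * x.1 + σ) ^ 2 + X * (s * v) ^ 2) : ℝ) * e (res (Z x) v))| ≤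
      2 * ind (¬ IsCoprime (s ^ 2 * (a * A) * x.1 + σ) v) := fun x => by
    by_cases hx : IsCoprime (s ^ 2 * (a * A) * x.1 + σ) v
    · rw [ind_neg (not_not.2 hx), mul_zero, hc x hx, sub_self, abs_zero]
    · rw [ind_pos hx]
      refine (abs_sub _ _).trans ?_
      have : |k * ((liou ((s ^ 2 * (a * A) * x.1 + σ) ^ 2 + X * (s * v) ^ 2) : ℝ) *
          e (res (Z x) v))| ≤ 1 := by
        rw [abs_mul k, abs_mul, he.toSgn.abs_eq, mul_one]
        refine mul_le_one₀ hc1 (abs_nonneg _) ?_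
        rcases liou_cases ((s ^ 2 * (a * A) * x.1 + σ) ^ 2 + X * (s * v) ^ 2) with h | h <;>
          simp [h]
      linarith [hle x]
  have h1 := (Finset.abs_expect_le _ _).trans
    (Finset.expect_le_expect (s := univ) fun x _ => hpt x)
  rw [Finset.expect_sub_distrib, ← Finset.mul_expect, ← Finset.mul_expect] at h1
  have h2 := Finset.expect_le_expect (s := univ) fun x _ => hcop x
  have h3 := abs_sub_abs_le_abs_sub
    (𝔼 x : degreeLT F (2 * (d + u)), md e a c h i (G + (s ^ 2 * a * x.1) ^ 2 * A))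
    (k * 𝔼 x : degreeLT F (2 * (d + u)),
      (liou ((s ^ 2 * (a * A) * x.1 + σ) ^ 2 + X * (s * v) ^ 2) : ℝ) * e (res (Z x) v))
  rw [abs_mul] at h3
  have h4 := mul_le_of_le_one_left (abs_nonneg (𝔼 x : degreeLT F (2 * (d + u)),
      (liou ((s ^ 2 * (a * A) * x.1 + σ) ^ 2 + X * (s * v) ^ 2) : ℝ) * e (res (Z x) v))) hc1
  linarith

end QLine

open SLine QLine in
theorem line2 {e : F → ℝ} (he : Chr e) {d u r b i j : ℕ} {A B a c h : F[X]} (hu : 1 ≤ u)
    (hr : r < d) (hA : A.Monic) (hB : od (A * B) = 1)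
    (hN : i + A.natDegree = 2 * (∑ t : Fin (u + 1), (d + t) + r) + 1)
    (hl : A.natDegree + 4 * r + 2 * a.natDegree + 4 * (d + u) ≤ i)
    (hb : 2 * b * 8 ^ u + 3 * u + 4 ≤ d) (ha : a.Monic) (hac : IsCoprime a c)
    (had : a.natDegree < d) (hh : h.degree < j) (hj : j + a.natDegree + c.natDegree + 1 ≤ i) :
    |𝔼 g : degreeLT F i, md e a c h i (X ^ i + g.1) *
        gw (goodV F d u) r (od ((X ^ i + g.1) * A))| ≤
      4 * (u + 1 + A.natDegree) / (Fintype.card F : ℝ) ^ d + 1 / (Fintype.card F : ℝ) ^ b := by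
  have hq := card_pos' (F := F)
  have key : ∀ v ∈ goodV F d u, ∀ s ∈ monF F r,
      |𝔼 g : degreeLT F i, md e a c h i (X ^ i + g.1) * ind (v * s = od ((X ^ i + g.1) * A))| ≤
      𝔼 g : degreeLT F i, ind (v * s = od ((X ^ i + g.1) * A)) *
        (4 * ind (Bad d u ((X ^ i + g.1) * A)) + 1 / (Fintype.card F : ℝ) ^ b) := by
    intro v hv s hs
    obtain ⟨hs1, hs2⟩ := mem_monF.1 hs
    have hmem : ∀ x : degreeLT F (2 * (d + u)), (s ^ 2 * a * x.1) ^ 2 * A ∈ degreeLT F i :=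
      fun x => by
      rw [mem_degreeLT]
      by_cases hx : x.1 = 0
      · rw [hx, mul_zero, zero_pow two_ne_zero, zero_mul, degree_zero]
        exact WithBot.bot_lt_coe _
      have h1 := (natDegree_lt_iff_degree_lt hx).2 (mem_degreeLT.1 x.2)
      refine degree_le_natDegree.trans_lt (Nat.cast_lt.2 ?_)
      rw [mul_comm _ A, hA.natDegree_mul' (pow_ne_zero _
        (mul_ne_zero ((hs1.pow 2).mul ha).ne_zero hx)), natDegree_pow,
        ((hs1.pow 2).mul ha).natDegree_mul' hx, (hs1.pow 2).natDegree_mul ha, natDegree_pow]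
      omega
    have hod : ∀ g x : F[X], od ((X ^ i + (g + (s ^ 2 * a * x) ^ 2 * A)) * A) =
        od ((X ^ i + g) * A) := by
      intro g x
      rw [show (X ^ i + (g + (s ^ 2 * a * x) ^ 2 * A)) * A =
        (X ^ i + g) * A + (s ^ 2 * a * x * A) ^ 2 by ring, od_add, od_of_sq, add_zero]
    rw [expect_avg _ fun x : degreeLT F (2 * (d + u)) => (⟨_, hmem x⟩ : degreeLT F i),
      expect_avg (fun g : degreeLT F i => ind (v * s = od ((X ^ i + g.1) * A)) *
        (4 * ind (Bad d u ((X ^ i + g.1) * A)) + 1 / (Fintype.card F : ℝ) ^ b))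
        fun x : degreeLT F (2 * (d + u)) => (⟨_, hmem x⟩ : degreeLT F i)]
    refine (Finset.abs_expect_le _ _).trans (Finset.expect_le_expect fun g _ => ?_)
    simp only [Submodule.coe_add, hod]
    by_cases hW : v * s = od ((X ^ i + g.1) * A)
    · have h1 := QLine.local_line he (b := b) hu hr hA (monic_add_LT g).1 (monic_add_LT g).2 hv hs
        (by rw [(goodV_spec hv).2.1]; exact hN) hW hl hb ha hac had hh hj
      simp only [ind_pos hW, mul_one, one_mul, ← add_assoc]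
      rwa [Finset.expect_add_distrib, Fintype.expect_const, ← Finset.mul_expect]
    · simp [ind_neg hW]
  simp only [gw, Finset.mul_sum, Finset.expect_sum_comm]
  refine (Finset.abs_sum_le_sum_abs _ _).trans ((Finset.sum_le_sum fun v hv =>
    (Finset.abs_sum_le_sum_abs _ _).trans (Finset.sum_le_sum fun s hs => key v hv s hs)).trans ?_)
  simp only [← Finset.expect_sum_comm, ← Finset.sum_mul]
  refine (Finset.expect_le_expect (g := fun g : degreeLT F i =>
    4 * ind (Bad d u ((X ^ i + g.1) * A)) + 1 / (Fintype.card F : ℝ) ^ b) fun g _ =>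
      mul_le_of_le_one_left (by have := ind_nonneg (Bad d u ((X ^ i + g.1) * A)); positivity)
        (gw_le_one hr _)).trans ?_
  rw [Finset.expect_add_distrib, Fintype.expect_const, ← Finset.mul_expect, mul_div_assoc]
  gcongr
  exact expect_bad (X ^ i) hA.ne_zero hB (by omega)

end Pool.Agent.MP_f37147_nt
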