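import Mathlib
import Pool.Agent.MP_f37147_nt.QLine
import Pool.Agent.MP_c853c5_nt.SMu

/- Divisors of degree slightly above `n`. -/

set_option autoImplicit false

namespace Pool.Agent.MP_f37147_nt

open Polynomial Finset Pool.Agent.MP_4fffd4_nt Pool.Agent.MP_c853c5_nt
open scoped BigOperators

namespace QMid

/-- Cancellation on lines for the twisted Moebius function. -/
def Line2 {F : Type*} [Field F] [Fintype F] [CharP F 2] (N L κ : ℕ) (w : F[X] → ℝ) : Prop :=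
  ∀ (e : F → ℝ) (A B a c h : F[X]) (i j : ℕ), Chr e → A.Monic → od (A * B) = 1 →
    i + A.natDegree = 2 * N + 1 → A.natDegree + 2 * L + 2 * a.natDegree ≤ i → a.Monic →
    IsCoprime a c → a.natDegree ≤ κ → h.degree < j → j + a.natDegree + c.natDegree + 1 ≤ i →
    |𝔼 g : degreeLT F i, md e a c h i (X ^ i + g.1) * w (od ((X ^ i + g.1) * A))| ≤
      1 / (Fintype.card F : ℝ) ^ (3 * κ)

theorem pack_of2 {F : Type*} [Field F] [Fintype F] [CharP F 2] {N L κ d u r k : ℕ} (hu : 7 ≤ u)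
    (hr : r < d) (hN : ∑ j : Fin (u + 1), (d + j) + r = N) (h1 : 4 * d + 2 * u ≤ L)
    (h2 : 2 * L ≤ N) (h3 : 2 * (4 * κ) * 8 ^ u + 3 * u + 4 ≤ d) (h4 : 6 * κ ≤ r)
    (h5 : 2 * N ≤ 2 ^ k * (r - 6 * κ)) (h6 : 2 ^ (2 * k + 3) * (24 * κ) ≤ r - 6 * κ)
    (h7 : (2 * N) ^ (u + 1) ≤ 2 ^ κ) (h8 : 1 ≤ κ) :
    ∃ (w : F[X] → ℝ) (ρ : ℝ), Pack N L κ w ρ ∧ Line2 N L κ w := by
  have hq := card_pos' (F := F)
  have hq2 := two_le_card (F := F)
  have hq1 : (1 : ℝ) ≤ Fintype.card F := one_le_two.trans hq2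
  have h9 : ((2 * N : ℝ)) ^ (u + 1) ≤ (Fintype.card F : ℝ) ^ κ :=
    le_trans (by exact_mod_cast h7) (pow_le_pow_left₀ zero_le_two hq2 κ)
  have h10 : 5 * κ ≤ d := by
    have := Nat.one_le_pow u 8 (by norm_num)
    nlinarith
  have hnum : ∀ A : F[X], A.natDegree ≤ 2 * N + 1 → 4 * ((u : ℝ) + 1 + A.natDegree) /
      (Fintype.card F : ℝ) ^ d + 1 / (Fintype.card F : ℝ) ^ (4 * κ) ≤
      1 / (Fintype.card F : ℝ) ^ (3 * κ) := by
    intro A hd
    have e1 : 4 * ((u : ℝ) + 1 + A.natDegree) ≤ (Fintype.card F : ℝ) ^ κ := by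
      refine le_trans ?_ h9
      have : 4 * (u + 1 + A.natDegree) ≤ (2 * N) ^ (u + 1) := by
        have a1 : (2 * N) ^ 2 ≤ (2 * N) ^ (u + 1) := Nat.pow_le_pow_right (by omega) (by omega)
        have a2 : 4 * (u + 1 + A.natDegree) ≤ 16 * N := by omega
        nlinarith
      exact_mod_cast this
    have e2 : 4 * ((u : ℝ) + 1 + A.natDegree) / (Fintype.card F : ℝ) ^ d ≤
        1 / (Fintype.card F : ℝ) ^ (4 * κ) := by
      rw [div_le_div_iff₀ (by positivity) (by positivity), one_mul]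
      refine (mul_le_mul_of_nonneg_right e1 (by positivity)).trans ?_
      rw [← pow_add]
      exact pow_le_pow_right₀ hq1 (by omega)
    refine (add_le_add e2 le_rfl).trans ?_
    rw [← add_div, div_le_div_iff₀ (by positivity) (by positivity), one_mul]
    calc _ ≤ (Fintype.card F : ℝ) ^ 1 * (Fintype.card F : ℝ) ^ (3 * κ) := by
          gcongr; linarith
      _ ≤ _ := by rw [← pow_add]; exact pow_le_pow_right₀ hq1 (by omega)
  refine ⟨gw (goodV F d u) r, (goodV F d u).card /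
    (Fintype.card F : ℝ) ^ (∑ j : Fin (u + 1), (d + j)), ⟨fun W => ⟨gw_nonneg _ _ _,
      gw_le_one hr W⟩, ?_, ?_, fun A B F₀ l ψ hA hB hF hd hl hl' hψ => ?_, fun Δ hΔ hd => ?_⟩,
      fun e A B a c h i j he hA hB hi hl ha hac hd hh hj => (line2 (b := 4 * κ) he (by omega) hr hA
        hB (by rw [hN, hi]) (by omega) h3 ha hac (by omega) hh hj).trans (hnum A (by omega))⟩
  · rw [div_le_one (by positivity), ← Nat.cast_pow, ← card_monF, Nat.cast_le]
    exact Finset.card_le_card fun v hv => mem_monF.2 ⟨(goodV_spec hv).1, (goodV_spec hv).2.1⟩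
  · rw [le_div_iff₀ (by positivity), one_div_mul_eq_div]
    refine le_trans ?_ (card_goodV (by omega))
    have : (0 : ℝ) < d := by exact_mod_cast (by omega)
    refine div_le_div_of_nonneg_left (by positivity) (by positivity) (le_trans ?_ h9)
    have : (d + u : ℝ) ≤ N := by exact_mod_cast (by omega)
    gcongr
  · exact (line (b := 4 * κ) (by omega) hr hA hB hF rfl (by rw [hN, hd]) hl (by omega) h3
      hψ).trans (hnum A (by omega))
  · have := variance (T := goodV F d u) (N₁ := ∑ j : Fin (u + 1), (d + j)) (r := r) (L := L)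
      (k := k) (b := 24 * κ) (Δ := Δ) (fun v hv => ⟨(goodV_spec hv).1, (goodV_spec hv).2.1,
        (goodV_spec hv).2.2 Δ hΔ (by omega)⟩) hΔ (by omega) (by omega) (by omega)
      (hN ▸ h5.trans (Nat.mul_le_mul_left _ (by omega))) (by omega)
    rw [hN] at this
    refine this.trans ?_
    rw [div_le_div_iff₀ (by positivity) (by positivity), one_mul]
    calc _ ≤ (Fintype.card F : ℝ) ^ 2 * (Fintype.card F : ℝ) ^ Δ.natDegree *
          (Fintype.card F : ℝ) ^ (40 * κ) := by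
          gcongr; nlinarith
      _ ≤ _ := by rw [← pow_add, ← pow_add]; exact pow_le_pow_right₀ hq1 (by omega)

theorem exists_pack2 (R : ℕ) (hR : 1 ≤ R) : ∃ C : ℕ, 100 * R ≤ C ∧ ∃ N₀ : ℕ, ∀ N, N₀ ≤ N →
    ∀ L, N ≤ R * L → 2 * L ≤ N → ∀ (F : Type*) [Field F] [Fintype F] [CharP F 2],
      ∃ (w : F[X] → ℝ) (ρ : ℝ), Pack N L (N / C) w ρ ∧ Line2 N L (N / C) w := by
  obtain ⟨u, hu⟩ : ∃ u, u + 1 = 8 * R := ⟨8 * R - 1, by omega⟩
  obtain ⟨k, hk⟩ : ∃ k, 16 * (u + 1) ≤ 2 ^ k := ⟨_, Nat.lt_two_pow_self.le⟩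
  obtain ⟨c₀, hc₀⟩ : ∃ c₀ : ℕ, ∀ d : ℕ, ∑ j : Fin (u + 1), (d + j) = (u + 1) * d + c₀ :=
    ⟨∑ j : Fin (u + 1), (j : ℕ), fun d => by rw [Finset.sum_add_distrib]; simp⟩
  set C' := 96 * 2 ^ (2 * k + 3) + 16 * 8 ^ u + 100 with hC'
  have hC : 0 < 2 * (u + 1) * C' := by positivity
  obtain ⟨N₁, hN₁⟩ := poly_le 2 (u + 1) _ hC
  refine ⟨2 * (u + 1) * C', by
    have : 100 ≤ C' := Nat.le_add_left _ _
    nlinarith, N₁ + 2 * (u + 1) * C' + c₀ +
    (2 * (u + 1) + 1) * (2 * c₀ + 6 * u + 8), fun N hN L hL hL' F _ _ _ => ?_⟩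
  obtain ⟨N', rfl⟩ : ∃ N', N = N' + c₀ := ⟨N - c₀, by omega⟩
  have a1 := Nat.div_mul_le_self (2 * N') (2 * (u + 1) + 1)
  have a2 := Nat.lt_mul_div_succ (2 * N') (b := 2 * (u + 1) + 1) (by omega)
  have a3 : 2 * c₀ + 6 * u + 8 ≤ 2 * N' / (2 * (u + 1) + 1) :=
    (Nat.le_div_iff_mul_le (by omega)).2 (by rw [mul_comm]; omega)
  generalize 2 * N' / (2 * (u + 1) + 1) = d at a1 a2 a3
  obtain ⟨r, hr⟩ : ∃ r, (u + 1) * d + r = N' := ⟨N' - (u + 1) * d, by
    have : (u + 1) * d ≤ N' := by nlinarith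
    omega⟩
  have b1 : d ≤ 2 * r := by nlinarith
  have b2 : r < d := by nlinarith
  have b3 : N' + c₀ ≤ 2 * (u + 1) * d := by nlinarith
  have b4 := Nat.div_mul_le_self (N' + c₀) (2 * (u + 1) * C')
  have b5 : 1 ≤ (N' + c₀) / (2 * (u + 1) * C') := (Nat.le_div_iff_mul_le hC).2 (by omega)
  have b6 := hN₁ (N' + c₀) (by omega)
  generalize (N' + c₀) / (2 * (u + 1) * C') = κ at b4 b5 b6 ⊢
  have b7 : κ * C' ≤ d := Nat.le_of_mul_le_mul_left (c := 2 * (u + 1)) (by nlinarith) (by omega)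
  have b8 : 8 * d ≤ L := Nat.le_of_mul_le_mul_left (c := R) (by nlinarith) (by omega)
  rw [hC', mul_add, mul_add] at b7
  refine pack_of2 (d := d) (u := u) (r := r) (k := k) (by omega) b2 (by rw [hc₀]; omega) (by omega)
    hL' (by
      have : κ * (16 * 8 ^ u) = 2 * (2 * (4 * κ) * 8 ^ u) := by ring
      omega) (by omega) ?_ (by
      have : κ * (96 * 2 ^ (2 * k + 3)) = 4 * (2 ^ (2 * k + 3) * (24 * κ)) := by ring
      omega) b6 b5
  have b9 : d ≤ 4 * (r - 6 * κ) := by omega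
  calc _ ≤ 16 * (u + 1) * (r - 6 * κ) := by nlinarith
    _ ≤ _ := Nat.mul_le_mul_right _ hk

variable {F : Type*} [Field F] [Fintype F] [CharP F 2]

open SMu in
theorem md_le {N L κ : ℕ} {w : F[X] → ℝ} {ρ : ℝ} (hp : Pack N L κ w ρ) (hl : Line2 N L κ w)
    {e : F → ℝ} (he : Chr e) {a c h : F[X]} {i j t : ℕ} (hκ : 3 ≤ κ) (ht : 12 * κ + 4 ≤ t)
    (hN : i + t = 2 * N + 1) (hl' : t + 2 * L + 2 * a.natDegree ≤ i) (ha : a.Monic)
    (hac : IsCoprime a c) (hd : a.natDegree ≤ κ) (hh : h.degree < j)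
    (hj : j + a.natDegree + c.natDegree + 1 ≤ i) :
    |𝔼 g : degreeLT F i, md e a c h i (X ^ i + g.1)| ≤ 1 / (Fintype.card F : ℝ) ^ κ := by
  have hq := card_pos' (F := F)
  have hq1 : (1 : ℝ) ≤ Fintype.card F := one_le_two.trans two_le_card
  obtain ⟨A₂, hA₂⟩ := exists_irr (F := F) (a := t - 12 * κ) (by omega)
  obtain ⟨h₂, h₃, h₄⟩ := mem_irrF.1 hA₂
  obtain ⟨A₁, h₁, h0⟩ := exists_comp h₂ h₄
  have ha' : A₂.natDegree + 2 * (6 * κ) = t := by omega
  have hφ : ∀ g : degreeLT F i, ind ((X ^ i + g.1).natDegree = i) * md e a c h i (X ^ i + g.1) =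
      md e a c h i (X ^ i + g.1) := fun g => by rw [ind_pos (monic_add_LT g).2, one_mul]
  have h1 := box (fun y : degreeLT F (6 * κ) => fam (6 * κ) A₂ A₁ y.1) (fun _ => A₂)
    (fun y y' => y.1 + y'.1) (a := t) (l := i) (L := L)
    (fun y => ⟨(fam_monic h₂ h₁ y).1, (fam_monic h₂ h₁ y).2.trans ha', od_fam h0 _⟩)
    (fun y y' => od_fam_fam h0 _ _) (by omega)
    (fun g => ind ((X ^ i + g).natDegree = i) * md e a c h i (X ^ i + g)) w
    (fun g => by
      by_cases hg : (X ^ i + g).natDegree = i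
      · rw [ind_pos hg, one_mul]; exact abs_md_le he hac h hg
      · rw [ind_neg hg, zero_mul, abs_zero]; exact zero_le_one) hp.w01
    (le_trans (by positivity) hp.ge) hp.le (θ := 1 / (Fintype.card F : ℝ) ^ (3 * κ))
    (ε := 1 / (Fintype.card F : ℝ) ^ (3 * κ)) (by positivity) (X ^ i) fun y => by
      simp only [hφ]
      exact hl e _ A₂ a c h i j he (fam_monic h₂ h₁ y).1 (od_fam h0 _)
        (by rw [(fam_monic h₂ h₁ y).2, ha', hN]) (by rw [(fam_monic h₂ h₁ y).2, ha']; exact hl')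
        ha hac hd hh hj
  simp only [hφ] at h1
  have h2 := (mul_le_mul_of_nonneg_right hp.ge (abs_nonneg _)).trans h1
  rw [one_div_mul_eq_div, div_le_iff₀ (by positivity), card_degreeLT] at h2
  have h3 : 𝔼 y : degreeLT F (6 * κ), 𝔼 y' : degreeLT F (6 * κ), ind (y ≠ y') *
      𝔼 z : degreeLT F ((i + t) / 2), vv L w ρ (y.1 + y'.1)
        (od (X ^ i * fam (6 * κ) A₂ A₁ y'.1) + z.1) ≤ 1 / (Fintype.card F : ℝ) ^ (6 * κ) := by
    refine expect_ind_le' _ (by positivity) fun y y' hy => ?_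
    obtain ⟨m1, m2⟩ := fam_monic h₂ h₁ y'
    obtain ⟨m3, m4⟩ := monic_od ((monic_X_pow i).mul m1) (N := N)
      (by rw [(monic_X_pow i).natDegree_mul m1, natDegree_X_pow, m2, ha', hN])
    have e1 := expect_mon m3 m4 (z := 0) (by rw [degree_zero]; exact WithBot.bot_lt_coe _)
      (vv L w ρ (y.1 + y'.1))
    simp only [add_zero] at e1
    rw [show (i + t) / 2 = N by omega, e1]
    exact (vv_le hp hy).trans
      (one_div_le_one_div_of_le (by positivity) (pow_le_pow_right₀ hq1 (by omega)))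
  simp only [vv] at h3
  refine h2.trans (le_trans ?_ (fin_bound hκ))
  refine (mul_le_mul_of_nonneg_right (add_le_add le_rfl (div_le_div_of_nonneg_right
    (add_le_add le_rfl h3) (by positivity))) (by positivity)).trans ?_
  push_cast
  have : (1 : ℝ) / (Fintype.card F : ℝ) ^ (2 * κ) ≥ 0 := by positivity
  calc _ = 2 / (Fintype.card F : ℝ) ^ (2 * κ) +
        (Fintype.card F : ℝ) ^ (4 * κ) * (2 / (Fintype.card F : ℝ) ^ (6 * κ)) := by
        field_simp; ring
    _ ≤ _ := by gcongr; norm_num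

theorem RR_le {e : F → ℝ} (he : Chr e) (a c : F[X]) {n j : ℕ} (hj : 0 < j) {σ : ℝ}
    (H : ∀ h : F[X], h.degree < j →
      |𝔼 g : degreeLT F (n + j), md e a c h (n + j) (X ^ (n + j) + g.1)| ≤ σ) :
    |RR a c n (n + j)| ≤ (Fintype.card F : ℝ) ^ (n + j) * σ := by
  classical
  have hq := card_pos' (F := F)
  have h2 : (2 : F[X]) = 0 := by exact_mod_cast CharP.cast_eq_zero F[X] 2
  have hX : (X ^ n : F[X]).degree < (n + j : ℕ) := by
    rw [degree_X_pow]; exact_mod_cast (by omega)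
  have key : ∀ g : degreeLT F (n + j), mu (X ^ (n + j) + g.1) * cnt a c n (X ^ (n + j) + g.1) =
      𝔼 h : degreeLT F j, e ((h.1 * X ^ n).coeff (n + j - 1)) *
        md e a c h.1 (n + j) (X ^ (n + j) + g.1) := fun g => by
    obtain ⟨m1, m2⟩ := monic_add_LT g
    generalize X ^ (n + j) + g.1 = D at m1 m2
    have hD : D.degree = (n + j : ℕ) := by rw [degree_eq_natDegree m1.ne_zero, m2]
    have e1 : ∀ h : degreeLT F j, (h.1 * X ^ n).coeff (n + j - 1) = SFour.res (h.1 * X ^ n) D :=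
      fun h => by
        rw [SFour.res_of_lt m1, m2]
        rw [hD, mul_comm]
        exact mem_degreeLT.1 (mul_mem_degreeLT (by rw [natDegree_X_pow]) h)
    have e2 : ∀ h : degreeLT F j, e ((h.1 * X ^ n).coeff (n + j - 1)) * md e a c h.1 (n + j) D =
        mu D * ∑ f ∈ ltF F (n + j), ind (D ∣ a * f ^ 2 + c) *
          e (SFour.res (h.1 * (X ^ n + f)) D) := fun h => by
      rw [md, e1, mul_left_comm, Finset.mul_sum]
      congr 1
      refine Finset.sum_congr rfl fun f _ => ?_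
      rw [mul_add h.1, SFour.res_add, he.add]
      ring
    simp only [e2]
    rw [← Finset.mul_expect, Finset.expect_sum_comm]
    simp only [← Finset.mul_expect, SFour.expect_res he _ m1 m2]
    rw [cnt]
    congr 1
    rw [← Finset.sum_subset (s₁ := monF F n) (s₂ := ltF F (n + j)) (fun f hf => ?_) fun f hf hf' => ?_]
    · refine Finset.sum_congr rfl fun f hf => ?_
      obtain ⟨y, rfl⟩ : ∃ y : degreeLT F n, X ^ n + y.1 = f := by simpa [monF] using hf
      have hy := mem_degreeLT.1 y.2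
      rw [show X ^ n + (X ^ n + y.1) = y.1 by linear_combination X ^ n * h2,
        (modByMonic_eq_self_iff m1).2 (hy.trans_le (by rw [hD]; exact_mod_cast (by omega))),
        ind_pos hy, mul_one]
    · obtain ⟨h1, h3⟩ := mem_monF.1 hf
      rw [mem_ltF, degree_eq_natDegree h1.ne_zero, h3]
      exact_mod_cast (by omega)
    · rw [(modByMonic_eq_self_iff m1).2 (by
        rw [hD]; exact (degree_add_le _ _).trans_lt (max_lt hX (mem_ltF.1 hf)))]
      refine mul_eq_zero_of_right _ (ind_neg fun h => hf' ?_)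
      have := monic_add_LT ⟨X ^ n + f, mem_degreeLT.2 h⟩
      rw [show X ^ n + (X ^ n + f) = f by linear_combination X ^ n * h2] at this
      exact mem_monF.2 this
  rw [RR, sum_monF, ← div_le_iff₀' (by positivity), ← abs_of_pos (pow_pos hq (n + j)), ← abs_div,
    ← expect_LT]
  simp only [key]
  rw [Finset.expect_comm]
  refine (Finset.abs_expect_le _ _).trans (Finset.expect_le univ_nonempty fun h _ => ?_)
  rw [← Finset.mul_expect, abs_mul, he.toSgn.abs_eq, one_mul]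
  exact H h.1 (mem_degreeLT.1 h.2)

end QMid

universe u

open QMid in
theorem mid_bound : ∃ C : ℕ, 0 < C ∧ ∃ n₀ : ℕ, ∀ n, n₀ ≤ n →
    ∀ (F : Type u) [Field F] [Fintype F] [CharP F 2] (a c : F[X]), a.Monic → IsCoprime a c →
      a.natDegree ≤ n / C → c.natDegree ≤ n / C → ∀ i, n < i → i ≤ n + n / C →
      |RR a c n i| ≤ (Fintype.card F : ℝ) ^ n / (Fintype.card F : ℝ) ^ (n / C) := by
  obtain ⟨C, hC, N₀, h⟩ := exists_pack2.{u} 20 (by norm_num)
  refine ⟨C * 4, by omega, 2 * N₀ + 6 * C + 100, fun n hn F _ _ _ a c ha hac h1 h2 i h3 h4 => ?_⟩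
  have hq := card_pos' (F := F)
  have hq1 : (1 : ℝ) ≤ Fintype.card F := one_le_two.trans two_le_card
  obtain ⟨j, rfl⟩ : ∃ j, i = n + j := ⟨i - n, by omega⟩
  obtain ⟨e, he⟩ := exists_chr (F := F)
  obtain ⟨N, hN⟩ : ∃ N, N = (n + j + 2 * ((n + j) / 20)) / 2 := ⟨_, rfl⟩
  obtain ⟨w, ρ, hp, hl⟩ := h N (by omega) ((n + j) / 20) (by omega) (by omega) F
  have a1 : 3 ≤ N / C := (Nat.le_div_iff_mul_le (by omega)).2 (by omega)
  have a2 : N / C ≤ N / 2000 := Nat.div_le_div_left hC (by norm_num)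
  have a3 : n / 2 / C ≤ N / C := Nat.div_le_div_right (by omega)
  rw [Nat.div_div_eq_div_mul, mul_comm, ← Nat.div_div_eq_div_mul] at a3
  rw [← Nat.div_div_eq_div_mul] at h1 h2 h4 ⊢
  refine (RR_le he a c (by omega) fun h hh => md_le hp hl he (t := 2 * N + 1 - (n + j)) a1
    (by omega) (by omega) (by omega) ha hac (by omega) hh (by omega)).trans ?_
  rw [mul_one_div, div_le_div_iff₀ (by positivity) (by positivity), ← pow_add, ← pow_add]
  exact pow_le_pow_right₀ hq1 (by omega)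

end Pool.Agent.MP_f37147_nt
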