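import Mathlib
import Pool.Agent.MP_f37147_nt.QMid
import Pool.Agent.MP_f37147_nt.QFar
import Pool.Agent.MP_f37147_nt.QMainTerm

/- The asymptotic formula. -/

set_option autoImplicit false

namespace Pool.Agent.MP_f37147_nt

open Polynomial Finset Pool.Agent.MP_4fffd4_nt Pool.Agent.MP_c853c5_nt
open scoped BigOperators

universe u

namespace QCore

variable {F : Type*} [Field F] [Fintype F]

theorem vm_eq {g : F[X]} (hg : g.Monic) : vm g = -∑ d ∈ divs g, mu d * d.natDegree := by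
  classical
  have step : ∀ {P g' : F[X]}, P.Monic → Irreducible P → g'.Monic →
      -∑ d ∈ divs (P * g'), mu d * d.natDegree =
        P.natDegree * ∑ d ∈ divs g', if P ∣ d then 0 else mu d := by
    intro P g' h1 h2 h3
    rw [SConv.sum_divs_mul h1 h2 h3.ne_zero, mul_sum, ← sum_neg_distrib]
    refine sum_congr rfl fun d hd => ?_
    have hd' := ((mem_divs h3.ne_zero).1 hd).1
    rw [SConv.mu_mul h2 hd'.ne_zero, h1.natDegree_mul hd']
    split_ifs
    · simp
    · push_cast; ring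
  induction hn : g.natDegree using Nat.strong_induction_on generalizing g with
  | _ n ih =>
    by_cases h : g = 1
    · subst h
      simp [SConv.divs_one, SConv.vm_one]
    obtain ⟨P, g', h1, h2, h3, rfl⟩ := SConv.exists_fac hg h
    rw [step h1 h2 h3, SConv.vm_mul h1 h2]
    by_cases hP : P ∣ g'
    · obtain ⟨g'', rfl⟩ := hP
      have h4 := h1.of_mul_monic_left h3
      have h5 : P * g'' ≠ 1 := fun e => h2.not_isUnit (isUnit_of_dvd_one ⟨_, e.symm⟩)
      have h6 : (P * g'').natDegree < n := by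
        rw [← hn, h1.natDegree_mul h3]
        have := h2.natDegree_pos
        omega
      rw [if_pos (dvd_mul_right _ _), if_neg h5, add_zero, ih _ h6 h3 rfl, step h1 h2 h4,
        SConv.sum_divs_mul h1 h2 h4.ne_zero]
      congr 1
      refine sum_congr rfl fun d _ => ?_
      rw [if_pos (dvd_mul_right _ _), zero_add]
      split_ifs <;> rfl
    · rw [if_neg hP, zero_add, sum_congr rfl (g := mu) fun d hd =>
        if_neg fun h' => hP (h'.trans ((mem_divs h3.ne_zero).1 hd).2), sum_mu_divs h3]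
      split_ifs with h7
      · rw [ind_pos h7, mul_one]
      · rw [ind_neg h7, mul_zero]

theorem sum_divs_eq (g : F[X]) (φ : F[X] → ℝ) : ∑ d ∈ divs g, φ d =
    ∑ i ∈ range (g.natDegree + 1), ∑ d ∈ monF F i, φ d * ind (d ∣ g) := by
  classical
  unfold divs
  rw [sum_filter, sum_biUnion]
  · refine sum_congr rfl fun i _ => sum_congr rfl fun d _ => ?_
    split_ifs with h
    · rw [ind_pos h, mul_one]
    · rw [ind_neg h, mul_zero]
  · intro i _ j _ hij
    exact disjoint_left.2 fun d a b => hij ((mem_monF.1 a).2.symm.trans (mem_monF.1 b).2)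

omit [Fintype F] in
theorem monic_val {a c f : F[X]} {n : ℕ} (ha : a.Monic) (hf : f.Monic) (hn : f.natDegree = n)
    (hc : c.natDegree < n) :
    (a * f ^ 2 + c).Monic ∧ (a * f ^ 2 + c).natDegree = 2 * n + a.natDegree := by
  have h1 : (a * f ^ 2).Monic := ha.mul (hf.pow 2)
  have h2 : (a * f ^ 2).natDegree = 2 * n + a.natDegree := by
    rw [ha.natDegree_mul (hf.pow 2), hf.natDegree_pow, hn]; ring
  have h3 : c.natDegree < (a * f ^ 2).natDegree := by omega
  exact ⟨h1.add_of_left (degree_lt_degree h3), by rw [natDegree_add_eq_left_of_natDegree_lt h3, h2]⟩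

omit [Fintype F] in
theorem vm_val [CharP F 2] {a c f : F[X]} {n : ℕ} (ha : a.Monic) (hf : f.Monic)
    (hn : f.natDegree = n) (hc : a.natDegree + c.natDegree < n) (hd : derivative (a * c) ≠ 0) :
    vm (a * f ^ 2 + c) = (2 * n + a.natDegree) * ind (Irreducible (a * f ^ 2 + c)) := by
  obtain ⟨h1, h2⟩ := monic_val (c := c) ha hf hn (by omega)
  by_cases hi : Irreducible (a * f ^ 2 + c)
  · have := SConv.vm_pow h1 hi one_pos
    rw [pow_one, h2] at this
    rw [this, ind_pos hi]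
    push_cast
    ring
  rw [ind_neg hi, mul_zero]
  rcases SConv.vm_cases (a * f ^ 2 + c) with h | ⟨P, p1, p2, j, hj, e, -⟩
  · exact h
  exfalso
  have h2F : (2 : F[X]) = 0 := by exact_mod_cast CharP.cast_eq_zero F[X] 2
  have hj1 : j ≠ 1 := by
    rintro rfl
    rw [pow_one] at e
    exact hi (e ▸ p2)
  obtain ⟨k, rfl⟩ : ∃ k, j = k + 1 := ⟨j - 1, by omega⟩
  have hdv : P ^ k ∣ derivative (a * c) := by
    have e1 : derivative (a * c) = derivative (a * P ^ (k + 1)) := by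
      rw [← e, show a * (a * f ^ 2 + c) = (a * f) ^ 2 + a * c by ring, derivative_add,
        derivative_sq, map_ofNat, h2F]
      ring
    rw [e1, derivative_mul, derivative_pow_succ]
    exact dvd_add (Dvd.dvd.mul_left (pow_dvd_pow P (Nat.le_succ k)) _)
      (Dvd.dvd.mul_left (Dvd.dvd.mul_right (dvd_mul_left _ _) _) _)
  have h3 := natDegree_le_of_dvd hdv hd
  have h4 : (derivative (a * c)).natDegree ≤ a.natDegree + c.natDegree :=
    (natDegree_derivative_le _).trans ((Nat.sub_le _ _).trans natDegree_mul_le)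
  rw [p1.natDegree_pow] at h3
  rw [e, p1.natDegree_pow] at h2
  have h5 : P.natDegree ≤ k * P.natDegree := Nat.le_mul_of_pos_left _ (by omega)
  rw [add_mul, one_mul] at h2
  omega

theorem npr_eq [CharP F 2] {a c : F[X]} {n : ℕ} (ha : a.Monic)
    (hc : a.natDegree + c.natDegree < n) (hd : derivative (a * c) ≠ 0) :
    (2 * n + a.natDegree) * npr a c n =
      -∑ i ∈ range (2 * n + a.natDegree + 1), (i : ℝ) * RR a c n i := by
  have h1 : ∀ f ∈ monF F n, ((2 * n + a.natDegree : ℝ)) * ind (Irreducible (a * f ^ 2 + c)) =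
      -∑ i ∈ range (2 * n + a.natDegree + 1), ∑ d ∈ monF F i,
        mu d * d.natDegree * ind (d ∣ a * f ^ 2 + c) := by
    intro f hf
    obtain ⟨f1, f2⟩ := mem_monF.1 hf
    obtain ⟨m1, m2⟩ := monic_val (c := c) ha f1 f2 (by omega)
    rw [← vm_val ha f1 f2 hc hd, vm_eq m1, sum_divs_eq, m2]
  rw [npr, mul_sum, sum_congr rfl h1, sum_neg_distrib, sum_comm]
  congr 1
  refine sum_congr rfl fun i _ => ?_
  rw [sum_comm, RR, mul_sum]
  refine sum_congr rfl fun d hd => ?_
  rw [cnt, (mem_monF.1 hd).2, ← mul_sum]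
  ring

end QCore

theorem core : ∃ C : ℕ, 0 < C ∧ ∀ (F : Type u) [Field F] [Fintype F] [CharP F 2],
    ∃ n₀ : ℕ, CoreSt F C n₀ := by
  obtain ⟨C₁, p₁, n₁, h₁⟩ := mid_bound.{u}
  obtain ⟨C₂, p₂, h₂⟩ := far_bound.{u} C₁ p₁
  have hC : 0 < 8 * (C₁ + C₂ + 1) := by positivity
  obtain ⟨n₃, h₃⟩ := poly_le 18 2 _ hC
  refine ⟨_, hC, fun F _ _ _ => ?_⟩
  obtain ⟨n₂, h₂⟩ := h₂ F
  refine ⟨n₁ + n₂ + n₃ + 1, fun n hn a c ha hac hd da dc => ?_⟩
  have h₃ := h₃ n (by omega)
  have hk : ∀ D, 0 < D → 8 * D ≤ 8 * (C₁ + C₂ + 1) → 8 * (n / (8 * (C₁ + C₂ + 1))) ≤ n / D := by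
    intro D hD h
    rw [Nat.le_div_iff_mul_le hD]
    calc 8 * (n / (8 * (C₁ + C₂ + 1))) * D = n / (8 * (C₁ + C₂ + 1)) * (8 * D) := by ring
      _ ≤ n / (8 * (C₁ + C₂ + 1)) * (8 * (C₁ + C₂ + 1)) := Nat.mul_le_mul_left _ h
      _ ≤ n := Nat.div_mul_le_self _ _
  have k₀ := hk 1 one_pos (by omega)
  have k₁ := hk C₁ p₁ (by omega)
  have k₂ := hk C₂ p₂ (by omega)
  rw [Nat.div_one] at k₀
  generalize n / (8 * (C₁ + C₂ + 1)) = k at *
  have hq := two_le_card (F := F)
  have hm := main_term ha hac n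
  have hrest : ∀ i ∈ Ico (n + 1) (2 * n + a.natDegree + 1), |(i : ℝ) * RR a c n i| ≤
      3 * n * ((Fintype.card F : ℝ) ^ n / (Fintype.card F : ℝ) ^ (2 * k)) := by
    intro i hi
    obtain ⟨i1, i2⟩ := mem_Ico.1 hi
    rw [abs_mul, Nat.abs_cast]
    have i3 : (i : ℝ) ≤ 3 * n := by exact_mod_cast (by omega : i ≤ 3 * n)
    refine mul_le_mul i3 ?_ (abs_nonneg _) (by positivity)
    by_cases h : i ≤ n + n / C₁
    · refine (h₁ n (by omega) F a c ha hac (by omega) (by omega) i (by omega) h).trans ?_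
      gcongr
      · linarith
      · omega
    · refine (h₂ n (by omega) a c ha hd (by omega) (by omega) i (by omega) (by omega)).trans ?_
      gcongr
      · linarith
      · omega
  have hsum : |∑ i ∈ Ico (n + 1) (2 * n + a.natDegree + 1), (i : ℝ) * RR a c n i| ≤
      3 * n * (3 * n * ((Fintype.card F : ℝ) ^ n / (Fintype.card F : ℝ) ^ (2 * k))) := by
    refine (abs_sum_le_sum_abs _ _).trans ((sum_le_card_nsmul _ _ _ hrest).trans ?_)
    rw [Nat.card_Ico, nsmul_eq_mul]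
    gcongr
    exact_mod_cast (by omega : 2 * n + a.natDegree + 1 - (n + 1) ≤ 3 * n)
  rw [QCore.npr_eq ha (by omega) hd, ← sum_range_add_sum_Ico _
    (by omega : n + 1 ≤ 2 * n + a.natDegree + 1)]
  generalize (Fintype.card F : ℝ) = q at *
  have hn1 : (1 : ℝ) ≤ n := by exact_mod_cast (by omega : 1 ≤ n)
  have h4 : (18 * (n : ℝ)) ^ 2 ≤ q ^ k := by
    have : (18 * (n : ℝ)) ^ 2 ≤ 2 ^ k := by exact_mod_cast h₃
    exact this.trans (by gcongr)
  have hq0 : 0 < q := by linarith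
  have hQ : 0 < q ^ k := by positivity
  have hN : 0 < q ^ n := by positivity
  have b₁ : 8 * (n + 1) * 4 ^ a.natDegree * q ^ n / q ^ (n / 2) ≤ q ^ n / q ^ k / 2 := by
    have e1 : (4 : ℝ) ^ a.natDegree ≤ (q ^ k) ^ 2 := by
      calc (4 : ℝ) ^ a.natDegree ≤ 4 ^ k := by gcongr; norm_num
        _ = (2 ^ k) ^ 2 := by rw [← pow_mul, mul_comm, pow_mul]; norm_num
        _ ≤ (q ^ k) ^ 2 := by gcongr
    have e2 : (q ^ k) ^ 4 ≤ q ^ (n / 2) := by
      rw [← pow_mul]
      exact pow_le_pow_right₀ (by linarith) (by omega)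
    have e3 : 8 * ((n : ℝ) + 1) ≤ q ^ k / 2 := by nlinarith
    calc 8 * (n + 1) * 4 ^ a.natDegree * q ^ n / q ^ (n / 2)
        ≤ q ^ k / 2 * (q ^ k) ^ 2 * q ^ n / (q ^ k) ^ 4 := by gcongr
      _ = q ^ n / q ^ k / 2 := by field_simp
  have b₂ : 3 * n * (3 * n * (q ^ n / q ^ (2 * k))) ≤ q ^ n / q ^ k / 2 := by
    have e3 : 3 * (n : ℝ) * (3 * n) ≤ q ^ k / 2 := by nlinarith
    calc 3 * n * (3 * n * (q ^ n / q ^ (2 * k))) = 3 * n * (3 * n) * (q ^ n / (q ^ k) ^ 2) := by
          rw [← pow_mul, mul_comm k 2]; ring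
      _ ≤ q ^ k / 2 * (q ^ n / (q ^ k) ^ 2) := by gcongr
      _ = q ^ n / q ^ k / 2 := by field_simp
  have e : ∀ x y z : ℝ, -(x + y) - z = (-x - z) - y := fun x y z => by ring
  rw [e]
  refine (abs_sub _ _).trans ?_
  linarith

end Pool.Agent.MP_f37147_nt
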