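import Mathlib

/- A lower bound sieve of bounded dimension. -/

set_option autoImplicit false

namespace Pool.Agent.MP_f37147_nt

open Finset

namespace QSieve

variable {P : Type*} [DecidableEq P]

/-- `f` is a multilinear polynomial on `B` with small coefficients and small support. -/
def Rep (dg : P → ℕ) (B : Finset P) (f : (P → ℝ) → ℝ) (c D : ℝ) : Prop :=
  ∃ l : Finset P → ℝ, (∀ x, f x = ∑ S ∈ B.powerset, l S * ∏ p ∈ S, x p) ∧
    ∀ S ⊆ B, |l S| ≤ c ∧ (l S ≠ 0 → ∑ p ∈ S, (dg p : ℝ) ≤ D)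

variable {dg : P → ℕ} {B C : Finset P} {f f' : (P → ℝ) → ℝ} {c c' D D' : ℝ}

omit [DecidableEq P] in
theorem Rep.add (h : Rep dg B f c D) (h' : Rep dg B f' c' D) (e : ℝ) (he : |e| = 1) :
    Rep dg B (fun x => f x + e * f' x) (c + c') D := by
  obtain ⟨l, h1, h2⟩ := h
  obtain ⟨l', h1', h2'⟩ := h'
  refine ⟨fun S => l S + e * l' S, fun x => ?_, fun S hS => ⟨?_, fun h => ?_⟩⟩
  · beta_reduce
    rw [h1, h1', mul_sum, ← sum_add_distrib]
    exact sum_congr rfl fun S _ => by ring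
  · refine (abs_add_le _ _).trans (add_le_add (h2 S hS).1 ?_)
    rw [abs_mul, he, one_mul]; exact (h2' S hS).1
  · by_cases h0 : l S = 0
    · exact (h2' S hS).2 fun h3 => h (by simp [h0, h3])
    · exact (h2 S hS).2 h0

theorem Rep.mul (h : Rep dg B f c D) (h' : Rep dg C f' 1 D') (hd : Disjoint B C) :
    Rep dg (B ∪ C) (fun x => f x * f' x) c (D + D') := by
  obtain ⟨l, h1, h2⟩ := h
  obtain ⟨l', h1', h2'⟩ := h'
  have hu : ∀ S ⊆ B ∪ C, S ∩ B ∪ S ∩ C = S := fun S hS => by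
    rw [← inter_union_distrib_left, inter_eq_left.2 hS]
  have hdd : ∀ S : Finset P, Disjoint (S ∩ B) (S ∩ C) := fun S =>
    hd.mono inter_subset_right inter_subset_right
  refine ⟨fun S => l (S ∩ B) * l' (S ∩ C), fun x => ?_, fun S hS => ⟨?_, fun h => ?_⟩⟩
  · beta_reduce
    rw [h1, h1', sum_mul_sum, ← sum_product']
    symm
    refine sum_nbij' (fun S => (S ∩ B, S ∩ C)) (fun q => q.1 ∪ q.2) ?_ ?_ ?_ ?_ ?_
    · intro S _
      simp
    · intro q hq
      simp only [mem_product, mem_powerset] at hq ⊢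
      exact union_subset_union hq.1 hq.2
    · intro S hS
      exact hu S (mem_powerset.1 hS)
    · intro q hq
      simp only [mem_product, mem_powerset] at hq
      rw [union_inter_distrib_right, union_inter_distrib_right, inter_eq_left.2 hq.1,
        inter_eq_left.2 hq.2, disjoint_iff_inter_eq_empty.1 (hd.symm.mono_left hq.2),
        disjoint_iff_inter_eq_empty.1 (hd.mono_left hq.1), union_empty, empty_union]
    · intro S hS
      nth_rewrite 3 [← hu S (mem_powerset.1 hS)]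
      rw [prod_union (hdd S)]
      ring
  · have a := (h2 _ (inter_subset_right (s₁ := S))).1
    have b := (h2' _ (inter_subset_right (s₁ := S))).1
    rw [abs_mul]
    nlinarith [abs_nonneg (l (S ∩ B)), abs_nonneg (l' (S ∩ C))]
  · rw [← hu S hS, sum_union (hdd S)]
    exact add_le_add ((h2 _ inter_subset_right).2 (left_ne_zero_of_mul h))
      ((h2' _ inter_subset_right).2 (right_ne_zero_of_mul h))

/-- Truncated inclusion and exclusion. -/
def Ut (B : Finset P) (k : ℕ) (x : P → ℝ) : ℝ :=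
  ∑ S ∈ B.powerset, (if S.card ≤ k then (-1) ^ S.card else 0) * ∏ p ∈ S, x p

/-- Elementary symmetric function. -/
def Vt (B : Finset P) (k : ℕ) (x : P → ℝ) : ℝ :=
  ∑ S ∈ B.powerset, (if S.card = k then 1 else 0) * ∏ p ∈ S, x p

omit [DecidableEq P] in
theorem Ut_zero (B : Finset P) (x : P → ℝ) : Ut B 0 x = 1 := by
  rw [Ut, sum_eq_single ∅]
  · simp
  · intro S _ hS
    rw [if_neg (by simpa using hS), zero_mul]
  · simp

theorem Ut_insert {a : P} (ha : a ∉ B) (k : ℕ) (x : P → ℝ) :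
    Ut (insert a B) (k + 1) x = Ut B (k + 1) x - x a * Ut B k x := by
  rw [Ut, sum_powerset_insert ha, Ut, Ut, mul_sum, sub_eq_add_neg, ← sum_neg_distrib]
  congr 1
  refine sum_congr rfl fun S hS => ?_
  have : a ∉ S := fun h => ha (mem_powerset.1 hS h)
  rw [card_insert_of_notMem this, prod_insert this]
  simp only [Nat.add_le_add_iff_right]
  split_ifs <;> ring

theorem bonf (x : P → ℝ) (B : Finset P) (hx : ∀ p ∈ B, 0 ≤ x p ∧ x p ≤ 1) (k : ℕ) :
    0 ≤ (-1) ^ k * (Ut B k x - ∏ p ∈ B, (1 - x p)) := by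
  induction B using Finset.induction_on generalizing k with
  | empty => simp [Ut]
  | insert a B ha ih =>
    rcases k with _ | k
    · rw [Ut_zero, pow_zero, one_mul, sub_nonneg]
      exact prod_le_one (fun p hp => sub_nonneg.2 (hx p hp).2) fun p hp => by linarith [(hx p hp).1]
    · have h1 := ih (fun p hp => hx p (mem_insert_of_mem hp))
      have h2 := mul_nonneg (hx a (mem_insert_self _ _)).1 (h1 k)
      have h3 := h1 (k + 1)
      rw [Ut_insert ha, prod_insert ha]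
      rw [pow_succ] at h3 ⊢
      linarith

omit [DecidableEq P] in
theorem Ut_odd (B : Finset P) (k : ℕ) (x : P → ℝ) :
    Ut B (2 * k + 1) x = Ut B (2 * k) x - Vt B (2 * k + 1) x := by
  rw [Ut, Ut, Vt, ← sum_sub_distrib]
  refine sum_congr rfl fun S _ => ?_
  rcases lt_trichotomy S.card (2 * k + 1) with h | h | h
  · rw [if_pos h.le, if_pos (by omega), if_neg h.ne]; ring
  · rw [if_pos h.le, if_neg (by omega), if_pos h, h, pow_succ, pow_mul]; ring
  · rw [if_neg (by omega), if_neg (by omega), if_neg h.ne']; ring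

omit [DecidableEq P] in
theorem Vt_nonneg {x : P → ℝ} (hx : ∀ p ∈ B, 0 ≤ x p) (k : ℕ) : 0 ≤ Vt B k x :=
  sum_nonneg fun S hS => mul_nonneg (by split_ifs <;> norm_num)
    (prod_nonneg fun p hp => hx p (mem_powerset.1 hS hp))

omit [DecidableEq P] in
theorem Vt_le {x : P → ℝ} (hx : ∀ p ∈ B, 0 ≤ x p) (hs : ∑ p ∈ B, x p ≤ 2) (k : ℕ) :
    4 ^ k * Vt B k x ≤ 4096 := by
  have h1 : 4 ^ k * Vt B k x ≤ ∏ p ∈ B, (1 + 4 * x p) := by
    rw [prod_one_add, Vt, mul_sum]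
    refine sum_le_sum fun S hS => ?_
    rw [prod_mul_distrib, prod_const]
    have : 0 ≤ ∏ p ∈ S, x p := prod_nonneg fun p hp => hx p (mem_powerset.1 hS hp)
    split_ifs with h
    · rw [h, one_mul]
    · rw [zero_mul, mul_zero]; positivity
  have h2 : ∏ p ∈ B, (1 + 4 * x p) ≤ Real.exp (∑ p ∈ B, 4 * x p) := by
    rw [Real.exp_sum]
    exact prod_le_prod (fun p hp => by linarith [hx p hp]) fun p _ => by
      linarith [Real.add_one_le_exp (4 * x p)]
  have h3 : Real.exp (∑ p ∈ B, 4 * x p) ≤ Real.exp 1 ^ 8 := by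
    rw [← Real.exp_nat_mul, ← mul_sum]
    exact Real.exp_le_exp.2 (by push_cast; linarith)
  have h4 : Real.exp 1 ^ 8 ≤ 2.7182818286 ^ 8 :=
    pow_le_pow_left₀ (Real.exp_pos _).le Real.exp_one_lt_d9.le 8
  have h5 : (2.7182818286 : ℝ) ^ 8 ≤ 4096 := by norm_num
  linarith

omit [DecidableEq P] in
theorem prod_ge {x : P → ℝ} (hx : ∀ p ∈ B, 0 ≤ x p ∧ x p ≤ 1 / 2) (hs : ∑ p ∈ B, x p ≤ 2) :
    1 / 16 ≤ ∏ p ∈ B, (1 - x p) := by
  have h1 : ∏ p ∈ B, (1 / 2 : ℝ) ^ (2 * x p) ≤ ∏ p ∈ B, (1 - x p) :=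
    prod_le_prod (fun p _ => by positivity) fun p hp => by
      have := rpow_one_add_le_one_add_mul_self (s := -1 / 2) (by norm_num) (p := 2 * x p)
        (by linarith [(hx p hp).1]) (by linarith [(hx p hp).2])
      rw [show (1 : ℝ) + -1 / 2 = 1 / 2 by norm_num] at this
      linarith
  rw [← Real.rpow_sum_of_pos (by norm_num), ← mul_sum] at h1
  refine le_trans ?_ h1
  have h2 : (1 / 2 : ℝ) ^ ((4 : ℕ) : ℝ) ≤ (1 / 2 : ℝ) ^ (2 * ∑ p ∈ B, x p) :=
    Real.rpow_le_rpow_of_exponent_ge (by norm_num) (by norm_num) (by push_cast; linarith)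
  rw [Real.rpow_natCast] at h2
  linarith

omit [DecidableEq P] in
theorem sum_dg_le {d : ℝ} (hd : ∀ p ∈ B, (dg p : ℝ) ≤ d) (d0 : 0 ≤ d) {S : Finset P} (hS : S ⊆ B)
    {k : ℕ} (hk : S.card ≤ k) : ∑ p ∈ S, (dg p : ℝ) ≤ k * d := by
  refine (sum_le_card_nsmul S _ d fun p hp => hd p (hS hp)).trans ?_
  rw [nsmul_eq_mul]
  exact mul_le_mul_of_nonneg_right (by exact_mod_cast hk) d0

theorem blocks (Ps : Finset P) (dg : P → ℕ) (g : P → ℝ) (z : ℕ)
    (h1 : ∀ p ∈ Ps, 1 ≤ dg p ∧ dg p ≤ z ∧ 0 ≤ g p ∧ g p ≤ 1 / 2)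
    (h2 : ∀ y : ℕ, ∑ p ∈ Ps with y ≤ dg p ∧ dg p < 2 * y, g p ≤ 2) (j : ℕ) :
    ∃ up er : (P → ℝ) → ℝ,
      Rep dg (Ps.filter fun p => z < 2 ^ j * dg p) up 1 (z * (22 - (4 * j + 22) / 2 ^ j)) ∧
      Rep dg (Ps.filter fun p => z < 2 ^ j * dg p) er j (z * (22 - (4 * j + 22) / 2 ^ j)) ∧
      (∀ x : P → ℝ, (∀ p ∈ Ps, 0 ≤ x p ∧ x p ≤ 1) →
        ∏ p ∈ Ps with z < 2 ^ j * dg p, (1 - x p) ≤ up x ∧
        up x - er x ≤ ∏ p ∈ Ps with z < 2 ^ j * dg p, (1 - x p)) ∧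
      1 / 16 ^ j ≤ up g ∧ er g ≤ up g * (1 / 2 - 1 / 2 ^ (j + 1)) := by
  induction j with
  | zero =>
    have e : (Ps.filter fun p => z < 2 ^ 0 * dg p) = ∅ :=
      filter_eq_empty_iff.2 fun p hp => by have := (h1 p hp).2.1; omega
    rw [e]
    refine ⟨fun _ => 1, fun _ => 0, ⟨fun _ => 1, by simp, ?_⟩, ⟨fun _ => 0, by simp, by simp⟩,
      by simp, by simp, by simp⟩
    intro S hS
    rw [subset_empty.1 hS]
    simp
  | succ j ih =>
    obtain ⟨up, er, r1, r2, r3, r4, r5⟩ := ih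
    set C := Ps.filter fun p => z < 2 ^ j * dg p with hC
    set B := Ps.filter fun p => 2 ^ j * dg p ≤ z ∧ z < 2 ^ (j + 1) * dg p with hB
    have e : (Ps.filter fun p => z < 2 ^ (j + 1) * dg p) = C ∪ B := by
      ext p
      simp only [hB, hC, mem_union, mem_filter, pow_succ', mul_assoc]
      constructor
      · rintro ⟨a, b⟩
        rcases lt_or_ge z (2 ^ j * dg p) with h | h
        · exact Or.inl ⟨a, h⟩
        · exact Or.inr ⟨a, h, b⟩
      · rintro (⟨a, b⟩ | ⟨a, b⟩)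
        · exact ⟨a, by omega⟩
        · exact ⟨a, b.2⟩
    have hd : Disjoint C B := disjoint_filter.2 fun p _ h h' => by omega
    have hBP : B ⊆ Ps := filter_subset _ _
    have hdg : ∀ p ∈ B, (dg p : ℝ) ≤ z / 2 ^ j := fun p hp => by
      rw [le_div_iff₀ (by positivity), mul_comm]
      exact_mod_cast (mem_filter.1 hp).2.1
    have hs : ∑ p ∈ B, g p ≤ 2 := by
      refine le_trans (sum_le_sum_of_subset_of_nonneg ?_ fun p hp _ => (h1 p (mem_filter.1 hp).1).2.2.1)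
        (h2 (z / 2 ^ (j + 1) + 1))
      intro p hp
      obtain ⟨a, b, c⟩ := mem_filter.1 hp
      refine mem_filter.2 ⟨a, (Nat.div_lt_iff_lt_mul (by positivity)).2 (by rwa [mul_comm]), ?_⟩
      have b' : dg p ≤ z / 2 ^ j := (Nat.le_div_iff_mul_le (by positivity)).2 (by rwa [mul_comm])
      rw [pow_succ, ← Nat.div_div_eq_div_mul]
      omega
    have u1 : Rep dg B (Ut B (2 * (j + 4))) 1 ((2 * (j + 4) + 1 : ℕ) * (z / 2 ^ j)) :=
      ⟨_, fun _ => rfl, fun S hS => ⟨by split_ifs <;> simp, fun h =>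
        sum_dg_le hdg (by positivity) hS (by by_contra h'; exact h (if_neg (by omega)))⟩⟩
    have u2 : Rep dg B (Vt B (2 * (j + 4) + 1)) 1 ((2 * (j + 4) + 1 : ℕ) * (z / 2 ^ j)) :=
      ⟨_, fun _ => rfl, fun S hS => ⟨by split_ifs <;> simp, fun h =>
        sum_dg_le hdg (by positivity) hS (by by_contra h'; exact h (if_neg (by omega)))⟩⟩
    have eD : (z : ℝ) * (22 - (4 * (j + 1 : ℕ) + 22) / 2 ^ (j + 1)) =
        z * (22 - (4 * j + 22) / 2 ^ j) + (2 * (j + 4) + 1 : ℕ) * (z / 2 ^ j) := by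
      push_cast; field_simp; ring
    have key : ∀ x : P → ℝ, (∀ p ∈ Ps, 0 ≤ x p ∧ x p ≤ 1) →
        ∏ p ∈ B, (1 - x p) ≤ Ut B (2 * (j + 4)) x ∧
        Ut B (2 * (j + 4)) x - Vt B (2 * (j + 4) + 1) x ≤ ∏ p ∈ B, (1 - x p) := by
      intro x hx
      have a := bonf x B (fun p hp => hx p (hBP hp)) (2 * (j + 4))
      have b := bonf x B (fun p hp => hx p (hBP hp)) (2 * (j + 4) + 1)
      rw [Ut_odd, pow_succ, pow_mul] at b
      rw [pow_mul] at a
      simp only [neg_one_sq, one_pow] at a b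
      constructor <;> linarith
    rw [e, eD]
    refine ⟨fun x => up x * Ut B (2 * (j + 4)) x,
      fun x => er x * Ut B (2 * (j + 4)) x + 1 * (up x * Vt B (2 * (j + 4) + 1) x),
      r1.mul u1 hd, ?_, fun x hx => ?_, ?_⟩
    · rw [Nat.cast_succ]
      exact (r2.mul u1 hd).add (r1.mul u2 hd) 1 abs_one
    · obtain ⟨a1, a2⟩ := r3 x hx
      obtain ⟨b1, b2⟩ := key x hx
      have c1 : 0 ≤ ∏ p ∈ C, (1 - x p) :=
        prod_nonneg fun p hp => sub_nonneg.2 (hx p (mem_filter.1 hp).1).2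
      have c2 : 0 ≤ ∏ p ∈ B, (1 - x p) := prod_nonneg fun p hp => sub_nonneg.2 (hx p (hBP hp)).2
      have c3 := Vt_nonneg (fun p hp => (hx p (hBP hp)).1) (2 * (j + 4) + 1)
      rw [prod_union hd]
      refine ⟨mul_le_mul a1 b1 c2 (c1.trans a1), ?_⟩
      nlinarith [mul_le_mul_of_nonneg_right a2 (c2.trans b1), mul_le_mul_of_nonneg_right a1 c3,
        mul_le_mul_of_nonneg_left b2 c1]
    · have a1 := (prod_ge (fun p hp => (h1 p (hBP hp)).2.2) hs).trans
        (key g fun p hp => ⟨(h1 p hp).2.2.1, by linarith [(h1 p hp).2.2.2]⟩).1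
      have a2 := Vt_le (fun p hp => (h1 p (hBP hp)).2.2.1) hs (2 * (j + 4) + 1)
      have a3 : 0 ≤ up g := le_trans (by positivity) r4
      have a4 : Vt B (2 * (j + 4) + 1) g ≤ 1 / 2 ^ (j + 1 + 1) * (1 / 16) := by
        have b1 : (2 : ℝ) ^ j ≤ 16 ^ j := pow_le_pow_left₀ (by norm_num) (by norm_num) j
        have b2 : (4 : ℝ) ^ (2 * (j + 4) + 1) = 16 ^ j * 262144 := by
          rw [pow_succ, pow_mul, pow_add]; norm_num; ring
        have b3 := Vt_nonneg (fun p hp => (h1 p (hBP hp)).2.2.1) (2 * (j + 4) + 1)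
        rw [b2] at a2
        rw [div_mul_div_comm, le_div_iff₀ (by positivity), pow_succ, pow_succ]
        nlinarith
      refine ⟨?_, ?_⟩
      · rw [pow_succ, ← one_div_mul_one_div]
        exact mul_le_mul r4 a1 (by norm_num) a3
      · have a5 : Vt B (2 * (j + 4) + 1) g ≤ 1 / 2 ^ (j + 1 + 1) * Ut B (2 * (j + 4)) g :=
          a4.trans (mul_le_mul_of_nonneg_left a1 (by positivity))
        have a6 : (1 : ℝ) / 2 ^ (j + 1) = 2 * (1 / 2 ^ (j + 1 + 1)) := by field_simp; ring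
        rw [a6] at r5
        nlinarith [mul_le_mul_of_nonneg_right r5 (le_trans (by norm_num) a1),
          mul_le_mul_of_nonneg_left a5 a3]

end QSieve

open QSieve in
theorem sieve_exists {P Ω : Type*} [DecidableEq P] (Ps : Finset P) (dg : P → ℕ) (g : P → ℝ) (z : ℕ)
    (A : Finset Ω) (T : Ω → Finset P) (Xm : ℝ)
    (h1 : ∀ p ∈ Ps, 1 ≤ dg p ∧ dg p ≤ z ∧ 0 ≤ g p ∧ g p ≤ 1 / 2)
    (h2 : ∀ y : ℕ, ∑ p ∈ Ps with y ≤ dg p ∧ dg p < 2 * y, g p ≤ 2)
    (h3 : ∀ t ∈ A, T t ⊆ Ps) (h4 : 0 ≤ Xm)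
    (h5 : (z + 1) * ∑ S ∈ Ps.powerset with ∑ p ∈ S, dg p ≤ 32 * z,
      |((A.filter fun t => S ⊆ T t).card : ℝ) - Xm * ∏ p ∈ S, g p| < Xm / (32 * (z + 1) ^ 4)) :
    ∃ t ∈ A, T t = ∅ := by
  by_contra hne
  push Not at hne
  obtain ⟨up, er, r1, r2, r3, r4, r5⟩ := blocks Ps dg g z h1 h2 z.size
  have e : (Ps.filter fun p => z < 2 ^ z.size * dg p) = Ps := filter_true_of_mem fun p hp =>
    (Nat.lt_size_self z).trans_le (Nat.le_mul_of_pos_right _ (h1 p hp).1)
  rw [e] at r1 r2 r3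
  obtain ⟨l, l1, l2⟩ := r1.add r2 (-1) (by simp)
  have s1 : z.size ≤ z := Nat.size_le.2 Nat.lt_two_pow_self
  have s2 : 2 ^ z.size ≤ 2 * (z + 1) := by
    rcases Nat.eq_zero_or_pos z.size with h | h
    · rw [h]; omega
    · obtain ⟨k, hk⟩ := Nat.exists_eq_succ_of_ne_zero h.ne'
      have : 2 ^ k ≤ z := Nat.lt_size.1 (by omega)
      rw [hk, pow_succ]; omega
  have s3 : (16 : ℝ) ^ z.size ≤ 16 * (z + 1) ^ 4 := by
    have : ((2 : ℝ) ^ z.size) ^ 4 ≤ (2 * (z + 1)) ^ 4 :=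
      pow_le_pow_left₀ (by positivity) (by exact_mod_cast s2) 4
    rw [← pow_mul, mul_comm, pow_mul, mul_pow] at this
    norm_num at this ⊢
    exact this
  have m1 : 1 / (32 * ((z : ℝ) + 1) ^ 4) ≤ up g + -1 * er g := by
    have a1 : 1 / (16 * ((z : ℝ) + 1) ^ 4) ≤ up g :=
      (one_div_le_one_div_of_le (by positivity) s3).trans r4
    have a2 : 1 / (16 * ((z : ℝ) + 1) ^ 4) = 2 * (1 / (32 * ((z : ℝ) + 1) ^ 4)) := by
      field_simp; norm_num
    have a3 : 0 ≤ up g := le_trans (by positivity) r4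
    have a4 : 0 ≤ up g * (1 / 2 ^ (z.size + 1)) := by positivity
    nlinarith
  have m2 : ∑ S ∈ Ps.powerset, l S * ((A.filter fun t => S ⊆ T t).card : ℝ) ≤ 0 := by
    have a1 : ∀ t ∈ A, ∑ S ∈ Ps.powerset, l S * (if S ⊆ T t then 1 else 0) ≤ 0 := by
      intro t ht
      have b1 := (r3 (fun p => if p ∈ T t then 1 else 0) fun p _ => by split_ifs <;> norm_num).2
      obtain ⟨p, hp⟩ := hne t ht
      rw [prod_eq_zero (h3 t ht hp) (by simp [hp])] at b1
      have b2 := l1 fun p => if p ∈ T t then 1 else 0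
      simp only [prod_boole, ← subset_iff] at b2
      linarith
    have a2 := sum_nonpos a1
    rw [sum_comm] at a2
    simpa only [← mul_sum, sum_boole] using a2
  have m3 : ∑ S ∈ Ps.powerset, l S * (Xm * ∏ p ∈ S, g p - (A.filter fun t => S ⊆ T t).card) ≤
      (z + 1) * ∑ S ∈ Ps.powerset with ∑ p ∈ S, dg p ≤ 32 * z,
        |((A.filter fun t => S ⊆ T t).card : ℝ) - Xm * ∏ p ∈ S, g p| := by
    rw [mul_sum, sum_filter]
    refine sum_le_sum fun S hS => ?_
    obtain ⟨b1, b2⟩ := l2 S (mem_powerset.1 hS)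
    split_ifs with h
    · refine (le_abs_self _).trans ?_
      rw [abs_mul, abs_sub_comm]
      have : (z.size : ℝ) ≤ z := by exact_mod_cast s1
      exact mul_le_mul_of_nonneg_right (by linarith) (abs_nonneg _)
    · by_cases h0 : l S = 0
      · rw [h0, zero_mul]
      · refine absurd ?_ h
        have b3 := b2 h0
        have b4 : (0 : ℝ) ≤ z * ((4 * z.size + 22) / 2 ^ z.size) := by positivity
        have b5 : (0 : ℝ) ≤ z := Nat.cast_nonneg z
        exact_mod_cast (by nlinarith : ∑ p ∈ S, (dg p : ℝ) ≤ 32 * z)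
  have m4 : ∑ S ∈ Ps.powerset, l S * (Xm * ∏ p ∈ S, g p - (A.filter fun t => S ⊆ T t).card) =
      Xm * (up g + -1 * er g) - ∑ S ∈ Ps.powerset, l S * ((A.filter fun t => S ⊆ T t).card : ℝ) := by
    have := l1 g
    simp only at this
    rw [this, mul_sum, ← sum_sub_distrib]
    exact sum_congr rfl fun S _ => by ring
  have m5 := mul_le_mul_of_nonneg_left m1 h4
  rw [mul_one_div] at m5
  linarith

end Pool.Agent.MP_f37147_nt
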