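import Mathlib
import Pool.Agent.MP_f37147_nt.QPairA
import Pool.Agent.MP_f37147_nt.QSieve
import Pool.Agent.MP_c853c5_nt.SPack

/- Almost primes P such that a P ^ 2 + c is d times a prime. -/

set_option autoImplicit false

namespace Pool.Agent.MP_f37147_nt

open Polynomial Finset Pool.Agent.MP_4fffd4_nt Pool.Agent.MP_c853c5_nt
open scoped BigOperators

variable {F : Type*} [Field F] [Fintype F] [CharP F 2]

namespace QPairB

omit [CharP F 2] in
theorem two_le_pow {R : F[X]} (hR : Irreducible R) :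
    (2 : ℝ) ≤ (Fintype.card F : ℝ) ^ R.natDegree :=
  two_le_card.trans (le_self_pow₀ (one_le_two.trans two_le_card) hR.natDegree_pos.ne')

omit [CharP F 2] in
theorem gl_nonneg (a : F[X]) {R : F[X]} (hR : Irreducible R) : 0 ≤ gl a R := by
  have := two_le_pow hR
  unfold gl
  split_ifs
  · positivity
  · exact div_nonneg zero_le_one (by linarith)

omit [CharP F 2] in
theorem gl_le_two (a : F[X]) {R : F[X]} (hR : Irreducible R) :
    gl a R ≤ 2 / (Fintype.card F : ℝ) ^ R.natDegree := by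
  have := two_le_pow hR
  unfold gl
  split_ifs
  · exact div_le_div_of_nonneg_right one_le_two (by positivity)
  · rw [div_le_div_iff₀ (by linarith) (by linarith)]
    linarith

theorem gl_le_half {a c d x₀ y₀ : F[X]}
    (h2 : Fintype.card F = 2 → IsCoprime (x₀ * y₀) (X * (X + 1)))
    (heq : a * x₀ ^ 2 + c = d * y₀) {R : F[X]} (hm : R.Monic) (hR : Irreducible R)
    (hcd : ¬ R ∣ c * d) : gl a R ≤ 1 / 2 := by
  have h := two_le_pow hR
  unfold gl
  split_ifs with ha
  · exact one_div_le_one_div_of_le two_pos h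
  refine one_div_le_one_div_of_le two_pos ?_
  by_contra hlt
  have h3 : Fintype.card F ^ R.natDegree < 3 := by
    have : (Fintype.card F : ℝ) ^ R.natDegree < 3 := by linarith
    exact_mod_cast this
  have hq : 2 ≤ Fintype.card F := Fintype.one_lt_card
  have hd1 : R.natDegree = 1 := by
    by_contra hne
    have h4 : 2 ≤ R.natDegree := by have := hR.natDegree_pos; omega
    have h5 : 2 ^ 2 ≤ Fintype.card F ^ R.natDegree :=
      (Nat.pow_le_pow_left hq 2).trans (Nat.pow_le_pow_right (by omega) h4)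
    omega
  rw [hd1, pow_one] at h3
  have hq2 : Fintype.card F = 2 := by omega
  have hone : ∀ t : F, t ≠ 0 → t = 1 := fun t ht => by
    have := FiniteField.pow_card_sub_one_eq_one t ht
    rwa [hq2, show 2 - 1 = 1 from rfl, pow_one] at this
  have htwo : (2 : F) = 0 := by exact_mod_cast CharP.cast_eq_zero F 2
  obtain ⟨r, hr⟩ : ∃ r : F, R = X - C r :=
    ⟨- R.coeff 0, by rw [C_neg, sub_neg_eq_add]; exact hm.eq_X_add_C hd1⟩
  subst hr
  rw [dvd_iff_isRoot, IsRoot.def] at ha hcd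
  rw [eval_mul] at hcd
  have hX : (X - C r) ∣ (X * (X + 1) : F[X]) := by
    rw [dvd_iff_isRoot, IsRoot.def]
    simp only [eval_mul, eval_X, eval_add, eval_one]
    by_cases hr : r = 0
    · rw [hr, zero_mul]
    · rw [hone r hr]; linear_combination htwo
  have hxy : eval r x₀ * eval r y₀ ≠ 0 := fun h0 => by
    have h5 : (X - C r) ∣ x₀ * y₀ := by rw [dvd_iff_isRoot, IsRoot.def, eval_mul, h0]
    exact hR.not_isUnit ((h2 hq2).isUnit_of_dvd' h5 hX)
  have h6 := congrArg (eval r) heq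
  rw [eval_add, eval_mul, eval_mul, eval_pow, hone _ ha, hone _ (left_ne_zero_of_mul hcd),
    hone _ (right_ne_zero_of_mul hcd), hone _ (left_ne_zero_of_mul hxy),
    hone _ (right_ne_zero_of_mul hxy)] at h6
  exact one_ne_zero (α := F) (by linear_combination h6)

theorem block_le (a : F[X]) (Ps : Finset F[X]) (hPs : ∀ R ∈ Ps, R.Monic ∧ Irreducible R) (y : ℕ) :
    ∑ p ∈ Ps with y ≤ p.natDegree ∧ p.natDegree < 2 * y, gl a p ≤ 2 := by
  classical
  have hq := card_pos' (F := F)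
  rcases Nat.eq_zero_or_pos y with rfl | hy
  · simp
  have hy' : (0 : ℝ) < y := by exact_mod_cast hy
  calc ∑ p ∈ Ps with y ≤ p.natDegree ∧ p.natDegree < 2 * y, gl a p
      ≤ ∑ p ∈ Ps with y ≤ p.natDegree ∧ p.natDegree < 2 * y,
          2 / (Fintype.card F : ℝ) ^ p.natDegree :=
        sum_le_sum fun p hp => gl_le_two a (hPs p (mem_filter.1 hp).1).2
    _ ≤ ∑ p ∈ (Ico y (2 * y)).biUnion (irrF F), 2 / (Fintype.card F : ℝ) ^ p.natDegree := by
        refine sum_le_sum_of_subset_of_nonneg (fun p hp => ?_) fun _ _ _ => by positivity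
        obtain ⟨h1, h2⟩ := mem_filter.1 hp
        exact mem_biUnion.2 ⟨_, mem_Ico.2 h2, mem_irrF.2 ⟨(hPs p h1).1, rfl, (hPs p h1).2⟩⟩
    _ ≤ ∑ j ∈ Ico y (2 * y), ∑ p ∈ irrF F j, 2 / (Fintype.card F : ℝ) ^ p.natDegree := by
        refine le_of_eq (sum_biUnion fun i _ j _ hij => disjoint_left.2 fun p h1 h2 => hij ?_)
        rw [← (mem_irrF.1 h1).2.1, (mem_irrF.1 h2).2.1]
    _ ≤ ∑ _j ∈ Ico y (2 * y), 2 / (y : ℝ) := by
        refine sum_le_sum fun j hj => ?_
        rw [sum_congr rfl (g := fun _ => 2 / (Fintype.card F : ℝ) ^ j)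
          (fun p hp => by rw [(mem_irrF.1 hp).2.1]), sum_const, nsmul_eq_mul, ← mul_div_assoc,
          div_le_div_iff₀ (by positivity) hy']
        have h1 := SConv.card_irrF_le (F := F) j
        have h2 : (y : ℝ) ≤ j := by exact_mod_cast (mem_Ico.1 hj).1
        have h3 : (0 : ℝ) ≤ (irrF F j).card := by positivity
        nlinarith
    _ = 2 := by
        rw [sum_const, Nat.card_Ico, nsmul_eq_mul, show 2 * y - y = y by omega]
        field_simp

omit [CharP F 2] in
theorem subsets_le (Ps : Finset F[X]) (z : ℕ) (hPs : ∀ R ∈ Ps, R.Monic ∧ R.natDegree ≤ z) :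
    ∑ S ∈ Ps.powerset, 1 / (Fintype.card F : ℝ) ^ (∑ R ∈ S, R.natDegree) ≤ 4 ^ (z + 1) := by
  classical
  have hq := card_pos' (F := F)
  have h1 : ∑ R ∈ Ps, 1 / (Fintype.card F : ℝ) ^ R.natDegree ≤ (z + 1 : ℕ) := by
    calc ∑ R ∈ Ps, 1 / (Fintype.card F : ℝ) ^ R.natDegree
        ≤ ∑ R ∈ (range (z + 1)).biUnion (monF F), 1 / (Fintype.card F : ℝ) ^ R.natDegree := by
          refine sum_le_sum_of_subset_of_nonneg (fun p hp => ?_) fun _ _ _ => by positivity
          exact mem_biUnion.2 ⟨_, mem_range.2 (Nat.lt_succ_of_le (hPs p hp).2),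
            mem_monF.2 ⟨(hPs p hp).1, rfl⟩⟩
      _ = ∑ j ∈ range (z + 1), ∑ R ∈ monF F j, 1 / (Fintype.card F : ℝ) ^ R.natDegree := by
          refine sum_biUnion fun i _ j _ hij => disjoint_left.2 fun p h1 h2 => hij ?_
          rw [← (mem_monF.1 h1).2, (mem_monF.1 h2).2]
      _ = ∑ _j ∈ range (z + 1), (1 : ℝ) := by
          refine sum_congr rfl fun j _ => ?_
          rw [sum_congr rfl (g := fun _ => 1 / (Fintype.card F : ℝ) ^ j)
            (fun p hp => by rw [(mem_monF.1 hp).2]), sum_const, nsmul_eq_mul, card_monF]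
          push_cast
          field_simp
      _ = (z + 1 : ℕ) := by simp
  calc ∑ S ∈ Ps.powerset, 1 / (Fintype.card F : ℝ) ^ (∑ R ∈ S, R.natDegree)
      = ∏ R ∈ Ps, (1 + 1 / (Fintype.card F : ℝ) ^ R.natDegree) := by
        rw [prod_one_add]
        refine sum_congr rfl fun S _ => ?_
        rw [prod_div_distrib, prod_const_one, prod_pow_eq_pow_sum]
    _ ≤ ∏ R ∈ Ps, Real.exp (1 / (Fintype.card F : ℝ) ^ R.natDegree) :=
        prod_le_prod (fun _ _ => by positivity) fun _ _ => by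
          rw [add_comm]; exact Real.add_one_le_exp _
    _ ≤ Real.exp (z + 1 : ℕ) := by rw [← Real.exp_sum]; exact Real.exp_le_exp.2 h1
    _ ≤ 4 ^ (z + 1) := by
        rw [← Real.exp_one_pow]
        exact pow_le_pow_left₀ (Real.exp_pos 1).le (Real.exp_one_lt_three.le.trans (by norm_num)) _

theorem num_lt {z : ℕ} (hz : 1 ≤ z) : 32 * (z + 1) ^ 5 * 4 ^ (z + 1) < 2 ^ (128 * z) := by
  have h1 : z + 1 ≤ 2 ^ z := Nat.lt_two_pow_self
  calc 32 * (z + 1) ^ 5 * 4 ^ (z + 1) ≤ 32 * (2 ^ z) ^ 5 * 4 ^ (z + 1) := by gcongr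
    _ = 2 ^ (7 * z + 7) := by
        rw [show (4 : ℕ) = 2 ^ 2 from rfl, show (32 : ℕ) = 2 ^ 5 from rfl, ← pow_mul, ← pow_mul,
          ← pow_add, ← pow_add]
        congr 1; ring
    _ < 2 ^ (128 * z) := Nat.pow_lt_pow_right one_lt_two (by omega)

end QPairB

open QPairB in
theorem pair_of_core {C n₀ : ℕ} (hC : 0 < C) (hcore : CoreSt F C n₀) {a c d x₀ y₀ : F[X]}
    (hd : d ≠ 0) (hsq : ¬ IsSquare (a * c)) (hcop : IsCoprime (x₀ * y₀) (a * d))
    (h2 : Fintype.card F = 2 → IsCoprime (x₀ * y₀) (X * (X + 1)))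
    (heq : a * x₀ ^ 2 + c = d * y₀) :
    ∃ n₁ : ℕ, ∀ n, n₁ ≤ n → ∃ P Q : F[X], P.Monic ∧ P.natDegree = n ∧
      (∀ R : F[X], Irreducible R → R ∣ P → n ≤ 256 * C * R.natDegree) ∧ Irreducible Q ∧
      a * P ^ 2 + c = d * Q := by
  classical
  have ha : a ≠ 0 := fun h => hsq (by rw [h, zero_mul]; exact IsSquare.zero)
  have hq := card_pos' (F := F)
  refine ⟨2 * n₀ + 256 * C * (a.natDegree + d.natDegree + c.natDegree + 1), fun n hn => ?_⟩
  obtain ⟨z, hz⟩ : ∃ z, z = n / (256 * C) := ⟨_, rfl⟩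
  have hz1 : a.natDegree + d.natDegree + c.natDegree + 1 ≤ z := by
    rw [hz, Nat.le_div_iff_mul_le (by positivity), mul_comm]; omega
  have hz2 : 256 * (C * z) ≤ n := by
    rw [hz, ← mul_assoc]; exact Nat.mul_div_le _ _
  have hz3 : n < 256 * C * (z + 1) := by
    rw [hz]; exact Nat.lt_mul_div_succ _ (by positivity)
  have hz4 : z ≤ C * z := Nat.le_mul_of_pos_left _ hC
  set Ps : Finset F[X] := ((range (z + 1)).biUnion (irrF F)).filter fun R => ¬ R ∣ c * d with hPs
  have hmem : ∀ R, R ∈ Ps ↔ R.Monic ∧ Irreducible R ∧ R.natDegree ≤ z ∧ ¬ R ∣ c * d := fun R => by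
    simp only [hPs, mem_filter, mem_biUnion, mem_range, mem_irrF]
    exact ⟨fun ⟨⟨j, h1, h2, h3, h4⟩, h5⟩ => ⟨h2, h4, by omega, h5⟩,
      fun ⟨h1, h2, h3, h4⟩ => ⟨⟨_, by omega, h1, rfl, h2⟩, h4⟩⟩
  set L : ℝ := 2 * n + a.natDegree - d.natDegree with hL
  have hL0 : 0 < L := by
    have h1 : d.natDegree < 2 * n + a.natDegree := by omega
    have h2 : (d.natDegree : ℝ) < 2 * n + a.natDegree := by exact_mod_cast h1
    linarith
  have hs := one_le_sing (mul_ne_zero ha hd)
  set Y : ℝ := (Fintype.card F : ℝ) ^ (n - d.natDegree) with hY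
  have hY0 : 0 < Y := by positivity
  obtain ⟨P, hP, hT⟩ := sieve_exists Ps natDegree (gl a) z (om a c d x₀ n)
    (fun P => Ps.filter (· ∣ P)) (Y * sing (a * d) / L)
    (fun R hR => by
      obtain ⟨h1, h3, h4, h5⟩ := (hmem R).1 hR
      exact ⟨h3.natDegree_pos, h4, gl_nonneg a h3, gl_le_half h2 heq h1 h3 h5⟩)
    (block_le a Ps fun R hR => ⟨((hmem R).1 hR).1, ((hmem R).1 hR).2.1⟩)
    (fun _ _ => filter_subset _ _) (by positivity) (by
      have hterm : ∀ S ∈ Ps.powerset.filter (fun S => ∑ p ∈ S, p.natDegree ≤ 32 * z),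
          |(((om a c d x₀ n).filter fun t => S ⊆ Ps.filter (· ∣ t)).card : ℝ) -
            Y * sing (a * d) / L * ∏ p ∈ S, gl a p| ≤
          Y / (L * 2 ^ (128 * z)) * (1 / (Fintype.card F : ℝ) ^ (∑ R ∈ S, R.natDegree)) := by
        intro S hS
        obtain ⟨hS1, hS2⟩ := mem_filter.1 hS
        rw [mem_powerset] at hS1
        obtain ⟨s, hs'⟩ : ∃ s, s = ∑ R ∈ S, R.natDegree := ⟨_, rfl⟩
        obtain ⟨n', hn'⟩ : ∃ n', n = n' + d.natDegree + s := ⟨n - d.natDegree - s, by omega⟩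
        have hw : 128 * z ≤ n' / C := by
          rw [Nat.le_div_iff_mul_le hC, mul_assoc, mul_comm z]; omega
        have h3 := count_class hcore hd hsq hcop heq S
          (fun R hR => ⟨((hmem R).1 (hS1 hR)).1, ((hmem R).1 (hS1 hR)).2.1,
            ((hmem R).1 (hS1 hR)).2.2.2⟩) (n := n) (n' := n') (hs' ▸ hn') (by omega)
          (by omega) (by omega)
        have h4 : ((om a c d x₀ n).filter fun t => S ⊆ Ps.filter (· ∣ t)) =
            (om a c d x₀ n).filter fun P => ∀ R ∈ S, R ∣ P :=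
          filter_congr fun t _ => ⟨fun h R hR => (mem_filter.1 (h hR)).2,
            fun h R hR => mem_filter.2 ⟨hS1 hR, h R hR⟩⟩
        rw [h4, ← hs']
        have h5 : Y = (Fintype.card F : ℝ) ^ n' * (Fintype.card F : ℝ) ^ s := by
          rw [hY, ← pow_add]; congr 1; omega
        have h6 : (2 : ℝ) ^ (128 * z) ≤ (Fintype.card F : ℝ) ^ (n' / C) :=
          (pow_le_pow_left₀ zero_le_two two_le_card _).trans
            (pow_le_pow_right₀ (one_le_two.trans two_le_card) hw)
        have h7 : (Fintype.card F : ℝ) ^ n' / (Fintype.card F : ℝ) ^ (n' / C) ≤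
            (Fintype.card F : ℝ) ^ n' / 2 ^ (128 * z) :=
          div_le_div_of_nonneg_left (by positivity) (by positivity) h6
        have h8 := h3.trans h7
        rw [← hL, ← hY] at h8
        refine le_of_mul_le_mul_left ?_ hL0
        rw [← abs_of_pos hL0, ← abs_mul, abs_of_pos hL0]
        convert h8 using 1
        · congr 1; field_simp
        · rw [h5]; field_simp
      have h9 := (sum_le_sum hterm).trans (sum_le_sum_of_subset_of_nonneg (filter_subset _ _)
        fun _ _ _ => by positivity)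
      rw [← mul_sum] at h9
      have h10 := h9.trans (mul_le_mul_of_nonneg_left
        (subsets_le Ps z fun R hR => ⟨((hmem R).1 hR).1, ((hmem R).1 hR).2.2.1⟩) (by positivity))
      refine (mul_le_mul_of_nonneg_left h10 (by positivity)).trans_lt ?_
      have h11 : (32 : ℝ) * (z + 1) ^ 5 * 4 ^ (z + 1) < 2 ^ (128 * z) := by
        exact_mod_cast num_lt (z := z) (by omega)
      calc ((z : ℝ) + 1) * (Y / (L * 2 ^ (128 * z)) * 4 ^ (z + 1))
          = Y / L / (32 * (z + 1) ^ 4) * (32 * (z + 1) ^ 5 * 4 ^ (z + 1) / 2 ^ (128 * z)) := by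
            field_simp
        _ < Y / L / (32 * (z + 1) ^ 4) * 1 :=
            mul_lt_mul_of_pos_left ((div_lt_one (by positivity)).2 h11) (by positivity)
        _ ≤ Y * sing (a * d) / L / (32 * (z + 1) ^ 4) := by
            rw [mul_one]
            gcongr
            exact le_mul_of_one_le_right hY0.le hs)
  obtain ⟨hP1, hP2, Q, hQ, hPQ⟩ := mem_filter.1 hP
  obtain ⟨hP3, hP4⟩ := mem_monF.1 hP1
  refine ⟨P, Q, hP3, hP4, fun R hR hRP => ?_, hQ, hPQ⟩
  by_contra hlt
  have hRz : R.natDegree ≤ z := by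
    by_contra h
    exact hlt (hz3.le.trans (Nat.mul_le_mul_left _ (by omega)))
  have hRcd : R ∣ c * d := by
    by_contra h
    have h1 : normalize R ∈ Ps.filter (· ∣ P) := mem_filter.2 ⟨(hmem _).2
      ⟨monic_normalize hR.ne_zero, (associated_normalize R).irreducible hR,
        by rwa [natDegree_eq_of_degree_eq (degree_normalize (p := R))],
        by rwa [normalize_dvd_iff]⟩, by rwa [normalize_dvd_iff]⟩
    rw [show Ps.filter (· ∣ P) = ∅ from hT] at h1
    exact notMem_empty _ h1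
  have hRd : ¬ R ∣ d := fun h => by
    have h1 : R ∣ x₀ := (dvd_sub_right hRP).1 (h.trans hP2)
    exact hR.not_isUnit (hcop.isUnit_of_dvd' (h1.mul_right _) (h.mul_left _))
  have hRc : R ∣ c := (hR.prime.dvd_or_dvd hRcd).resolve_right hRd
  have hRQ : R ∣ Q := by
    refine (hR.prime.dvd_or_dvd ?_).resolve_left hRd
    rw [← hPQ]
    exact dvd_add ((dvd_pow hRP two_ne_zero).mul_left _) hRc
  have h1 : R.natDegree = Q.natDegree :=
    natDegree_eq_of_degree_eq (degree_eq_degree_of_associated (hR.associated_of_dvd hQ hRQ))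
  have h3 : (a * P ^ 2).natDegree = a.natDegree + 2 * n := by
    rw [natDegree_mul ha (pow_ne_zero _ hP3.ne_zero), natDegree_pow, hP4]
  have h4 := congrArg natDegree hPQ
  rw [natDegree_add_eq_left_of_natDegree_lt (by omega), h3, natDegree_mul hd hQ.ne_zero] at h4
  omega

end Pool.Agent.MP_f37147_nt
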